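import Pool.Agent.Work.MP_055a27_an.Thr.Stmts

/-!
# The key estimate for the gradient
-/

open MeasureTheory Set Filter Topology Complex Metric
open scoped ENNReal NNReal

namespace Pool.Agent.Work.MP_055a27_an.Thr

namespace KE

lemma rpow_add_le {a b g : ℝ} (ha : 0 ≤ a) (hb : 0 ≤ b) (h0 : 0 ≤ g) (h1 : g ≤ 1) :
    (a + b) ^ g ≤ a ^ g + b ^ g := by
  have h := NNReal.rpow_add_le_add_rpow ⟨a, ha⟩ ⟨b, hb⟩ h0 h1
  exact_mod_cast h

lemma diff_dschw {f : ℝ → ℝ} (hf : Admissible f) {w : ℂ} (hw : 0 < w.im) :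
    DifferentiableAt ℂ (dschw f) w := by
  have h1 : DifferentiableOn ℂ (schw f) uhp := fun v hv =>
    (hasDerivAt_schw hf hv).differentiableAt.differentiableWithinAt
  have h2 : DifferentiableOn ℂ (deriv (schw f)) uhp := h1.deriv isOpen_uhp
  have h3 : DifferentiableAt ℂ (deriv (schw f)) w :=
    (h2 w hw).differentiableAt (isOpen_uhp.mem_nhds hw)
  refine h3.congr_of_eventuallyEq ?_
  filter_upwards [isOpen_uhp.mem_nhds hw] with v hv
  exact ((hasDerivAt_schw hf hv).deriv).symm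

/-- The exponent. -/
noncomputable def ex (g k q p : ℝ) (w : ℂ) : ℂ :=
  (pw g w / (k : ℂ) - (q : ℂ) * pw (g - 1) w) / (p : ℂ)

lemma ex_re (g k q p : ℝ) (w : ℂ) :
    (ex g k q p w).re = ((pw g w).re / k - q * (pw (g - 1) w).re) / p := by
  unfold ex
  rw [Complex.div_ofReal_re, Complex.sub_re, Complex.div_ofReal_re, Complex.re_ofReal_mul]

lemma ex_diff (g k q p : ℝ) {w : ℂ} (hw : 0 < w.im) : DifferentiableAt ℂ (ex g k q p) w := by
  unfold ex
  have h1 := (hasDerivAt_pw g hw).differentiableAt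
  have h2 := (hasDerivAt_pw (g - 1) hw).differentiableAt
  fun_prop

/-- The auxiliary function. -/
noncomputable def G (f : ℝ → ℝ) (g k q p a : ℝ) (ζ : ℂ) : ℂ :=
  dschw f (ζ + a * I) * Complex.exp (ex g k q p (ζ + a * I))

lemma im_shift (ζ : ℂ) (a : ℝ) : (ζ + a * I).im = ζ.im + a := by simp

lemma G_diff {f : ℝ → ℝ} (hf : Admissible f) (g k q p : ℝ) {a : ℝ} (ha : 0 < a) {ζ : ℂ}
    (hζ : 0 ≤ ζ.im) : DifferentiableAt ℂ (G f g k q p a) ζ := by
  have hw : 0 < (ζ + a * I).im := by rw [im_shift]; linarith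
  have h1 : DifferentiableAt ℂ (fun z : ℂ => z + a * I) ζ := by fun_prop
  have h2 : DifferentiableAt ℂ (fun z : ℂ => dschw f (z + a * I)) ζ :=
    DifferentiableAt.comp (g := dschw f) (f := fun z : ℂ => z + a * I) ζ (diff_dschw hf hw) h1
  have h3 : DifferentiableAt ℂ (fun z : ℂ => ex g k q p (z + a * I)) ζ :=
    DifferentiableAt.comp (g := ex g k q p) (f := fun z : ℂ => z + a * I) ζ
      (ex_diff g k q p hw) h1
  exact h2.mul h3.cexp

lemma norm_G (f : ℝ → ℝ) (g k q p a : ℝ) (ζ : ℂ) :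
    ‖G f g k q p a ζ‖ = ‖dschw f (ζ + a * I)‖ * Real.exp ((ex g k q p (ζ + a * I)).re) := by
  unfold G
  rw [norm_mul, Complex.norm_exp]

end KE

open KE in
theorem stKE (hPL : StPL) (hGrow : StGrow) (hBd : StBd) (hLoss : StLoss) (hComp : StComp) :
    StKE := by
  intro g b p hg0 hg1 hb hp
  obtain ⟨CL, hCL, hL⟩ := hLoss g hg0 hg1
  obtain ⟨CB, hCB, hB⟩ := hBd b hb
  set k : ℝ := Real.cos (Real.pi * g / 2) with hk
  set sg : ℝ := Real.sin (Real.pi * g / 2) with hsg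
  have hk0 : 0 < k := cos_half_pos hg0 hg1
  have hs0 : 0 < sg := sin_half_pos hg0 hg1
  have hcomp := hComp g hg0 hg1
  set C3 : ℝ := CL / sg with hC3
  have hC30 : 0 < C3 := div_pos hCL hs0
  refine ⟨max CB C3, lt_of_lt_of_le hCB (le_max_left _ _), ?_⟩
  intro f hf s y a ha hay
  set q : ℝ := C3 * a with hq
  have hq0 : 0 < q := mul_pos hC30 ha
  -- growth
  obtain ⟨K, hK⟩ := hGrow f hf a ha
  have hgrowth : ∀ ζ : ℂ, 0 ≤ ζ.im → ‖G f g k q p a ζ‖ ≤
      (|K| * (1 + a) ^ 2 * Real.exp (a ^ g / (k * p))) * (1 + ‖ζ‖) ^ 2 *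
        Real.exp (1 / (k * p) * ‖ζ‖ ^ g) := by
    intro ζ hζ
    have hw : 0 < (ζ + a * I).im := by rw [im_shift]; linarith
    have hn : ‖ζ + a * I‖ ≤ ‖ζ‖ + a := by
      refine (norm_add_le _ _).trans ?_
      simp [abs_of_pos ha]
    have h1 : ‖dschw f (ζ + a * I)‖ ≤ |K| * (1 + a) ^ 2 * (1 + ‖ζ‖) ^ 2 := by
      refine (hK (ζ + a * I) (by rw [im_shift]; linarith)).trans ?_
      calc K * (1 + ‖ζ + a * I‖) ^ 2 ≤ |K| * ((1 + a) * (1 + ‖ζ‖)) ^ 2 := by
            apply mul_le_mul (le_abs_self K) ?_ (by positivity) (abs_nonneg K)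
            apply pow_le_pow_left₀ (by positivity)
            nlinarith [norm_nonneg ζ]
        _ = _ := by ring
    have h2 : (ex g k q p (ζ + a * I)).re ≤ a ^ g / (k * p) + 1 / (k * p) * ‖ζ‖ ^ g := by
      rw [ex_re]
      have e1 : (pw g (ζ + a * I)).re ≤ ‖ζ‖ ^ g + a ^ g := by
        calc (pw g (ζ + a * I)).re ≤ ‖pw g (ζ + a * I)‖ := Complex.re_le_norm _
          _ = ‖ζ + a * I‖ ^ g := norm_pw hw
          _ ≤ (‖ζ‖ + a) ^ g := Real.rpow_le_rpow (norm_nonneg _) hn hg0.le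
          _ ≤ _ := rpow_add_le (norm_nonneg _) ha.le hg0.le hg1.le
      have e2 : 0 ≤ q * (pw (g - 1) (ζ + a * I)).re := by
        apply mul_nonneg hq0.le
        refine le_trans ?_ (hcomp _ hw).1
        positivity
      have e3 : a ^ g / (k * p) + 1 / (k * p) * ‖ζ‖ ^ g = ((‖ζ‖ ^ g + a ^ g) / k) / p := by
        field_simp
        ring
      rw [e3]
      apply div_le_div_of_nonneg_right _ hp.le
      have e4 := div_le_div_of_nonneg_right e1 hk0.le
      linarith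
    rw [norm_G]
    calc ‖dschw f (ζ + a * I)‖ * Real.exp ((ex g k q p (ζ + a * I)).re)
        ≤ (|K| * (1 + a) ^ 2 * (1 + ‖ζ‖) ^ 2) *
          Real.exp (a ^ g / (k * p) + 1 / (k * p) * ‖ζ‖ ^ g) := by
          apply mul_le_mul h1 (Real.exp_le_exp.2 h2) (Real.exp_nonneg _) (by positivity)
      _ = _ := by rw [Real.exp_add]; ring
  have hpl := hPL g _ _ (G f g k q p a) hg0 hg1 (fun ζ hζ => G_diff hf g k q p ha hζ) hgrowth
    s (y - a) (by linarith)
  -- the real line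
  have hline : ∀ t : ℝ, ENNReal.ofReal ‖G f g k q p a t‖ ≤
      ENNReal.ofReal (CB / a) * hh g b p f t := by
    intro t
    have hw : 0 < ((t : ℂ) + a * I).im := by rw [im_shift]; simpa using ha
    have h1 : (ex g k q p ((t : ℂ) + a * I)).re ≤ |t| ^ g / p := by
      rw [ex_re]
      apply div_le_div_of_nonneg_right _ hp.le
      have e1 := hL t a ha
      unfold cg at e1
      rw [← hk] at e1
      have e2 := (hcomp _ hw).1
      have e3 : q * (sg * ‖(t : ℂ) + a * I‖ ^ (g - 1)) = CL * a * ‖(t : ℂ) + a * I‖ ^ (g - 1) := by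
        rw [hq, hC3]
        field_simp
      have e4 := mul_le_mul_of_nonneg_left e2 hq0.le
      rw [e3] at e4
      linarith
    rw [norm_G, ENNReal.ofReal_mul (norm_nonneg _)]
    unfold hh
    rw [← mul_assoc]
    apply mul_le_mul' (hB f hf t a ha)
    exact ENNReal.ofReal_le_ofReal (Real.exp_le_exp.2 h1)
  -- the left side
  set w : ℂ := (s : ℂ) + y * I with hw
  have hy : 0 < y := lt_trans ha hay
  have hwim : 0 < w.im := by rw [hw, im_shift]; simpa using hy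
  have hsh : ((s : ℂ) + ((y - a : ℝ) : ℂ) * I) + a * I = w := by
    rw [hw]; push_cast; ring
  have hG : ENNReal.ofReal ‖dschw f w‖ ≤
      ENNReal.ofReal (Real.exp ((C3 * a * ‖w‖ ^ (g - 1) - cg g w) / p)) *
        ENNReal.ofReal ‖G f g k q p a ((s : ℂ) + ((y - a : ℝ) : ℂ) * I)‖ := by
    rw [← ENNReal.ofReal_mul (Real.exp_nonneg _), norm_G, hsh]
    apply ENNReal.ofReal_le_ofReal
    have h1 : 0 ≤ (C3 * a * ‖w‖ ^ (g - 1) - cg g w) / p + (ex g k q p w).re := by
      rw [ex_re]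
      unfold cg
      rw [← hk, ← add_div]
      apply div_nonneg _ hp.le
      have e2 := mul_le_mul_of_nonneg_left (hcomp w hwim).2 hq0.le
      rw [hq] at e2 ⊢
      linarith
    have h2 : 1 ≤ Real.exp ((C3 * a * ‖w‖ ^ (g - 1) - cg g w) / p) *
        Real.exp ((ex g k q p w).re) := by
      rw [← Real.exp_add]
      exact Real.one_le_exp h1
    calc ‖dschw f w‖ = ‖dschw f w‖ * 1 := (mul_one _).symm
      _ ≤ ‖dschw f w‖ * (Real.exp ((C3 * a * ‖w‖ ^ (g - 1) - cg g w) / p) *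
        Real.exp ((ex g k q p w).re)) := mul_le_mul_of_nonneg_left h2 (norm_nonneg _)
      _ = _ := by ring
  have hint : ∫⁻ t : ℝ, ENNReal.ofReal ((y - a) / ((s - t) ^ 2 + (y - a) ^ 2)) *
      ENNReal.ofReal ‖G f g k q p a t‖ ≤ ENNReal.ofReal (CB / a) *
      ∫⁻ t, ENNReal.ofReal ((y - a) / ((s - t) ^ 2 + (y - a) ^ 2)) * hh g b p f t := by
    rw [← lintegral_const_mul' _ _ ENNReal.ofReal_ne_top]
    apply lintegral_mono
    intro t
    calc ENNReal.ofReal ((y - a) / ((s - t) ^ 2 + (y - a) ^ 2)) *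
        ENNReal.ofReal ‖G f g k q p a t‖
        ≤ ENNReal.ofReal ((y - a) / ((s - t) ^ 2 + (y - a) ^ 2)) *
          (ENNReal.ofReal (CB / a) * hh g b p f t) := by gcongr; exact hline t
      _ = _ := by ring
  calc ENNReal.ofReal ‖dschw f w‖ ≤
      ENNReal.ofReal (Real.exp ((C3 * a * ‖w‖ ^ (g - 1) - cg g w) / p)) *
        (ENNReal.ofReal (CB / a) *
      ∫⁻ t, ENNReal.ofReal ((y - a) / ((s - t) ^ 2 + (y - a) ^ 2)) * hh g b p f t) := by
        refine hG.trans ?_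
        gcongr
        exact hpl.trans hint
    _ = ENNReal.ofReal (CB / a * Real.exp ((C3 * a * ‖w‖ ^ (g - 1) - cg g w) / p)) *
      ∫⁻ t, ENNReal.ofReal ((y - a) / ((s - t) ^ 2 + (y - a) ^ 2)) * hh g b p f t := by
        rw [ENNReal.ofReal_mul (by positivity)]
        ring
    _ ≤ _ := by
        gcongr ?_ * _
        apply ENNReal.ofReal_le_ofReal
        have hw0 : 0 ≤ ‖w‖ ^ (g - 1) := by positivity
        gcongr
        · exact le_max_left _ _
        · exact le_max_right _ _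

end Pool.Agent.Work.MP_055a27_an.Thr
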