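import Pool.Agent.Work.MP_055a27_an.Thr.Base

/-!
# The weights `exp (|x| ^ g)`: statements of the items
-/

open MeasureTheory Set Filter Topology Complex Metric
open scoped ENNReal NNReal

namespace Pool.Agent.Work.MP_055a27_an.Thr

/-- Hardy Littlewood maximal theorem on the line. -/
def StHL : Prop := ∀ p : ℝ, 1 < p → ∃ C : ℝ≥0, ∀ h : ℝ → ℝ≥0∞, Measurable h →
  ∫⁻ x, (hlM h x) ^ p ≤ C * ∫⁻ x, (h x) ^ p

/-- Poisson averages are bounded by the maximal function. -/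
def StPois : Prop := ∀ β : ℝ, 0 < β → ∃ C : ℝ≥0, ∀ (h : ℝ → ℝ≥0∞) (x s y : ℝ), Measurable h →
  0 < y → |x - s| ≤ β * y →
  ∫⁻ t, ENNReal.ofReal (y / ((s - t) ^ 2 + y ^ 2)) * h t ≤ C * hlM h x

/-- Phragmen Lindelof principle with the Poisson majorant in the closed upper half plane. -/
def StPL : Prop := ∀ (g A B : ℝ) (G : ℂ → ℂ), 0 < g → g < 1 →
  (∀ ζ : ℂ, 0 ≤ ζ.im → DifferentiableAt ℂ G ζ) →
  (∀ ζ : ℂ, 0 ≤ ζ.im → ‖G ζ‖ ≤ A * (1 + ‖ζ‖) ^ 2 * Real.exp (B * ‖ζ‖ ^ g)) →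
  ∀ s y : ℝ, 0 < y →
    ENNReal.ofReal ‖G (s + y * I)‖ ≤
      ∫⁻ t : ℝ, ENNReal.ofReal (y / ((s - t) ^ 2 + y ^ 2)) * ENNReal.ofReal ‖G t‖

/-- Polynomial growth of the derivative of the Schwarz integral. -/
def StGrow : Prop := ∀ f : ℝ → ℝ, Admissible f → ∀ a : ℝ, 0 < a →
  ∃ K : ℝ, ∀ w : ℂ, a ≤ w.im → ‖dschw f w‖ ≤ K * (1 + ‖w‖) ^ 2

/-- Gradient bound above the vertex of a cone. -/
def StBd : Prop := ∀ b : ℝ, 0 < b → ∃ C : ℝ, 0 < C ∧ ∀ f : ℝ → ℝ, Admissible f →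
  ∀ x a : ℝ, 0 < a →
    ENNReal.ofReal ‖dschw f (x + a * I)‖ ≤ ENNReal.ofReal (C / a) * ntMax b f x

/-- Lower bound for `cg` in cones of aperture less than `T g`. -/
def StCone : Prop := ∀ g β : ℝ, 0 < g → g < 1 → 0 < β → β < T g → ∃ δ : ℝ, 0 < δ ∧
  ∀ x s y : ℝ, 0 < y → |x - s| ≤ β * y →
    |x| ^ g + δ * y * ‖(s : ℂ) + y * I‖ ^ (g - 1) ≤ cg g (s + y * I)

/-- Upper bound for `cg` above a boundary point. -/
def StLoss : Prop := ∀ g : ℝ, 0 < g → g < 1 → ∃ C : ℝ, 0 < C ∧ ∀ x a : ℝ, 0 < a →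
  cg g (x + a * I) ≤ |x| ^ g + C * a * ‖(x : ℂ) + a * I‖ ^ (g - 1)

/-- The real part of the power `g - 1`. -/
def StComp : Prop := ∀ g : ℝ, 0 < g → g < 1 → ∀ w : ℂ, 0 < w.im →
  Real.sin (Real.pi * g / 2) * ‖w‖ ^ (g - 1) ≤ (pw (g - 1) w).re ∧
    (pw (g - 1) w).re ≤ ‖w‖ ^ (g - 1)

/-- The key estimate for the gradient. -/
def StKE : Prop := ∀ g b p : ℝ, 0 < g → g < 1 → 0 < b → 0 < p → ∃ C : ℝ, 0 < C ∧
  ∀ f : ℝ → ℝ, Admissible f → ∀ s y a : ℝ, 0 < a → a < y →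
    ENNReal.ofReal ‖dschw f (s + y * I)‖ ≤
      ENNReal.ofReal (C / a *
        Real.exp ((C * a * ‖(s : ℂ) + y * I‖ ^ (g - 1) - cg g (s + y * I)) / p)) *
      ∫⁻ t, ENNReal.ofReal ((y - a) / ((s - t) ^ 2 + (y - a) ^ 2)) * hh g b p f t

/-- Measurability of `hh`. -/
def StMeas : Prop := ∀ (g b p : ℝ) (f : ℝ → ℝ), 0 < g → Admissible f → Measurable (hh g b p f)

/-- Points of the cone of height at most `(1 + |x|) ^ (1 - g)`. -/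
def StLow : Prop := ∀ g b b' p : ℝ, 0 < g → g < 1 → 0 < b → 0 < b' → 0 < p → ∃ C : ℝ≥0,
  ∀ f : ℝ → ℝ, Admissible f → ∀ x z y : ℝ, 0 < y → |x - z| ≤ b' * y →
    y ≤ (1 + |x|) ^ (1 - g) →
    ENNReal.ofReal (|poisson f z y| * Real.exp (|x| ^ g / p)) ≤ C * hlM (hh g b p f) x

/-- Vertical integration of the gradient. -/
def StVert : Prop := ∀ f : ℝ → ℝ, Admissible f →
  (∀ z : ℝ, Tendsto (fun y : ℝ => poisson f z y) atTop (𝓝 0)) → ∀ z y : ℝ, 0 < y →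
    ENNReal.ofReal |poisson f z y| ≤ ∫⁻ τ in Ioi y, ENNReal.ofReal ‖dschw f (z + τ * I)‖

/-- Vanishing at infinity. -/
def StVan : Prop := ∀ (g b p : ℝ) (f : ℝ → ℝ), 0 < g → 0 < b → 0 < p → Admissible f →
  ∫⁻ x, (ntMax b f x) ^ p * ENNReal.ofReal (Ug g x) ≠ ∞ →
  ∀ z : ℝ, Tendsto (fun y : ℝ => poisson f z y) atTop (𝓝 0)

/-- The decay integral. -/
def StDec : Prop := ∀ g δ : ℝ, 0 < g → g < 1 → 0 < δ → ∃ C : ℝ≥0, ∀ X : ℝ, 1 ≤ X →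
  ∫⁻ τ in Ioi (0 : ℝ), ENNReal.ofReal (Real.exp (-(δ * τ * (X + τ) ^ (g - 1)))) ≤
    C * ENNReal.ofReal (X ^ (1 - g))

/-- Points of the cone of height larger than `(1 + |x|) ^ (1 - g)`. -/
def StHigh : Prop := ∀ g b b' p : ℝ, 0 < g → g < 1 → 0 < b → 0 < b' → b' < T g → 0 < p →
  ∃ C : ℝ≥0, ∀ f : ℝ → ℝ, Admissible f →
    (∀ z : ℝ, Tendsto (fun y : ℝ => poisson f z y) atTop (𝓝 0)) →
    ∀ x z y : ℝ, |x - z| ≤ b' * y → (1 + |x|) ^ (1 - g) < y →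
    ENNReal.ofReal (|poisson f z y| * Real.exp (|x| ^ g / p)) ≤ C * hlM (hh g b p f) x

/-- Change of aperture. -/
def StAper : Prop := ∀ g b b' p : ℝ, 0 < g → g < 1 → 0 < b → 0 < b' → b' < T g → 1 < p →
  ∃ C : ℝ≥0, ∀ f : ℝ → ℝ, Admissible f →
    ∫⁻ x, (ntMax b' f x) ^ p * ENNReal.ofReal (Ug g x) ≤
      C * ∫⁻ x, (ntMax b f x) ^ p * ENNReal.ofReal (Ug g x)

/-- Elementary properties of the weight. -/
def StWeight : Prop := ∀ g : ℝ, 0 < g → IsWeight (Ug g) ∧ WeakAInfty (Ug g) ∧ ¬ AInfty (Ug g)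

/-- The positive part of the theorem. -/
def StPos : Prop := ∀ g lam b p : ℝ, 0 < g → g < 1 → 0 < lam → 0 < b → 1 < p →
  lam < max b (T g) → Star lam b p (Ug g)

/-- Upper bound for `cg` in a cone. -/
def StUpper : Prop := ∀ B : ℝ, 1 ≤ B → ∃ C y0 : ℝ, 0 < C ∧ 0 < y0 ∧
  ∀ g1 x y β : ℝ, 0 < g1 → g1 < 1 → T g1 ≤ B → 0 < x → 0 < y → y ≤ y0 * x → 0 ≤ β → β ≤ B →
    cg g1 (((x - β * y : ℝ) : ℂ) + y * I) ≤
      x ^ g1 + g1 * x ^ (g1 - 1) * (T g1 - β) * y + C * x ^ (g1 - 2) * y ^ 2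

/-- The test functions. -/
def StTest : Prop := ∀ A p g1 η : ℝ, 0 < A → 0 < p → 0 < g1 → g1 < 1 → 0 < η →
  Admissible (tf A p g1 η) ∧
  (∀ z y : ℝ, 0 < y → poisson (tf A p g1 η) z y = (tst A p g1 η (z + y * I)).re) ∧
  (∀ z y : ℝ, 0 < y → gradSq (tf A p g1 η) z y =
    (A * g1 / (p * Real.cos (Real.pi * g1 / 2)) * ‖(z : ℂ) + ((y + η : ℝ) : ℂ) * I‖ ^ (g1 - 1) *
      Real.exp (-(A / p) * cg g1 ((z : ℂ) + ((y + η : ℝ) : ℂ) * I))) ^ 2)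

/-- Upper bound for the maximal function of the test functions. -/
def StTestUp : Prop := ∀ A p g1 η b : ℝ, 0 < A → 0 < p → 0 < g1 → g1 < 1 → 0 < η → 0 < b →
  b < T g1 → ∀ x : ℝ,
    ntMax b (tf A p g1 η) x ≤ ENNReal.ofReal (Real.exp (-(A / p) * |x| ^ g1))

/-- Lower bound for the area function of the test functions. -/
def StAreaLow : Prop := ∀ lam p : ℝ, 0 < lam → 0 < p → ∃ c : ℝ, 0 < c ∧
  ∀ g1 A x η : ℝ, 0 < g1 → g1 < 1 → lam < T g1 → T g1 ≤ lam + 1 → 0 < A → 0 < x → 0 < η →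
    (1 / (T g1 - lam)) ^ 2 ≤ A * x ^ g1 → η ≤ c * x / (A * x ^ g1) →
    ENNReal.ofReal (c * (1 / (T g1 - lam)) ^ (1 / 2 : ℝ) * Real.exp (-(A / p) * x ^ g1)) ≤
      areaFn lam (tf A p g1 η) x

/-- The Laplace type comparison. -/
def StLap : Prop := ∀ g g1 : ℝ, 0 < g → g < g1 → g1 < 1 → ∃ R0 : ℝ, 1 ≤ R0 ∧ ∀ R : ℝ, R0 ≤ R →
  ∫⁻ x : ℝ, ENNReal.ofReal (Real.exp (|x| ^ g - g / g1 * R ^ (g - g1) * |x| ^ g1)) ≤
    4 * ∫⁻ x in Icc (R / 2) (2 * R),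
      ENNReal.ofReal (Real.exp (x ^ g - g / g1 * R ^ (g - g1) * x ^ g1))

/-- The negative part of the theorem. -/
def StNeg : Prop := ∀ g lam b p : ℝ, 0 < g → g < 1 → 0 < lam → 0 < b → 0 < p →
  max b (T g) ≤ lam → ¬ Star lam b p (Ug g)

/-- There are non trivial functions with finite right side. -/
def StNonvac : Prop := ∀ g : ℝ, 0 < g → g < 1 → ∃ f : ℝ → ℝ, Admissible f ∧
  (∃ z y : ℝ, 0 < y ∧ poisson f z y ≠ 0) ∧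
  ∀ b p : ℝ, 0 < b → 0 < p → ∫⁻ x, (ntMax b f x) ^ p * ENNReal.ofReal (Ug g x) < ∞

/-- Exponential decay in a half plane forces vanishing. -/
def StExpZero : Prop := ∀ (ψ : ℂ → ℂ) (C c η : ℝ), 0 < c → 0 < η → DifferentiableOn ℂ ψ uhp →
  (∀ w : ℂ, η ≤ w.im → ‖ψ w‖ ≤ C * Real.exp (-c * ‖w‖)) → ∀ w : ℂ, η < w.im → ψ w = 0

/-- Vacuous weights: for `1 ≤ g` the inequality holds for all parameters. -/
def StVac : Prop := ∀ g lam b p : ℝ, 1 ≤ g → 0 < lam → 0 < b → 0 < p → Star lam b p (Ug g)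

end Pool.Agent.Work.MP_055a27_an.Thr
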