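import Pool.Agent.Work.MP_055a27_an.Thr.Stmts

/-!
# Vertical integration of the gradient
-/

open MeasureTheory Set Filter Topology Complex Metric
open scoped ENNReal NNReal

namespace Pool.Agent.Work.MP_055a27_an.Thr

namespace Vert

lemma hasDerivAt_line {f : ℝ → ℝ} (hf : Admissible f) (z : ℝ) {τ : ℝ} (hτ : 0 < τ) :
    HasDerivAt (fun t : ℝ => schw f ((z : ℂ) + t * I)) (dschw f ((z : ℂ) + τ * I) * I) τ := by
  have h0 : 0 < ((z : ℂ) + τ * I).im := by simpa using hτ
  have h1 : HasDerivAt (schw f) (dschw f ((z : ℂ) + τ * I)) ((z : ℂ) + τ * I) :=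
    hasDerivAt_schw hf h0
  have h2 : HasDerivAt (fun t : ℝ => (z : ℂ) + (t : ℂ) * I) I τ := by
    have h3 : HasDerivAt (fun t : ℝ => (t : ℂ)) 1 τ := Complex.ofRealCLM.hasDerivAt
    have h4 := (h3.mul_const I).const_add (z : ℂ)
    simpa using h4
  have h5 := HasDerivAt.comp (h₂ := schw f) (h := fun t : ℝ => (z : ℂ) + (t : ℂ) * I) τ h1 h2
  exact h5

lemma continuousOn_dschw {f : ℝ → ℝ} (hf : Admissible f) : ContinuousOn (dschw f) uhp := by
  have h1 : ContinuousOn (deriv (schw f)) uhp := ((schw_diff hf).deriv isOpen_uhp).continuousOn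
  refine h1.congr ?_
  intro w hw
  exact (hasDerivAt_schw hf hw).deriv.symm

lemma continuousOn_line {f : ℝ → ℝ} (hf : Admissible f) (z : ℝ) :
    ContinuousOn (fun τ : ℝ => dschw f ((z : ℂ) + τ * I) * I) (Ioi 0) := by
  refine ContinuousOn.mul ?_ continuousOn_const
  refine (continuousOn_dschw hf).comp (by fun_prop) ?_
  intro τ hτ
  have : 0 < ((z : ℂ) + τ * I).im := by simpa using hτ
  exact this

end Vert

theorem stVert : StVert := by
  intro f hf htend z y hy
  set J : ℝ≥0∞ := ∫⁻ τ in Ioi y, ENNReal.ofReal ‖dschw f (z + τ * I)‖ with hJ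
  have key : ∀ M : ℝ, y < M → ENNReal.ofReal |poisson f z y| ≤ ENNReal.ofReal |poisson f z M| + J := by
    intro M hM
    have hM0 : 0 < M := hy.trans hM
    have hcont : ContinuousOn (fun τ : ℝ => dschw f ((z : ℂ) + τ * I) * I) (uIcc y M) := by
      refine (Vert.continuousOn_line hf z).mono ?_
      intro τ hτ
      rw [uIcc_of_le hM.le] at hτ
      exact lt_of_lt_of_le hy hτ.1
    have hint : (∫ τ in y..M, dschw f ((z : ℂ) + τ * I) * I)
        = schw f ((z : ℂ) + M * I) - schw f ((z : ℂ) + y * I) := by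
      refine intervalIntegral.integral_eq_sub_of_hasDerivAt (f := fun t : ℝ => schw f ((z : ℂ) + t * I)) ?_
        hcont.intervalIntegrable
      intro τ hτ
      rw [uIcc_of_le hM.le] at hτ
      exact Vert.hasDerivAt_line hf z (lt_of_lt_of_le hy hτ.1)
    have h1 : |poisson f z y| ≤ |poisson f z M|
        + ‖∫ τ in y..M, dschw f ((z : ℂ) + τ * I) * I‖ := by
      rw [poisson_eq_re hf hy, poisson_eq_re hf hM0, hint]
      have h2 := Complex.abs_re_le_norm (schw f ((z : ℂ) + M * I) - schw f ((z : ℂ) + y * I))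
      rw [Complex.sub_re] at h2
      have h3 := abs_sub_abs_le_abs_sub (schw f ((z : ℂ) + y * I)).re (schw f ((z : ℂ) + M * I)).re
      rw [abs_sub_comm] at h3
      linarith
    have h2 : ENNReal.ofReal ‖∫ τ in y..M, dschw f ((z : ℂ) + τ * I) * I‖ ≤ J := by
      rw [intervalIntegral.integral_of_le hM.le, ofReal_norm]
      refine (enorm_integral_le_lintegral_enorm _).trans ?_
      have h4 : ∀ τ : ℝ, ‖dschw f ((z : ℂ) + τ * I) * I‖ₑ
          = ENNReal.ofReal ‖dschw f (z + τ * I)‖ := by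
        intro τ
        rw [← ofReal_norm, norm_mul, Complex.norm_I, mul_one]
      simp only [h4]
      exact lintegral_mono_set Ioc_subset_Ioi_self
    calc ENNReal.ofReal |poisson f z y|
        ≤ ENNReal.ofReal (|poisson f z M| + ‖∫ τ in y..M, dschw f ((z : ℂ) + τ * I) * I‖) :=
          ENNReal.ofReal_le_ofReal h1
      _ ≤ ENNReal.ofReal |poisson f z M|
          + ENNReal.ofReal ‖∫ τ in y..M, dschw f ((z : ℂ) + τ * I) * I‖ := ENNReal.ofReal_add_le
      _ ≤ ENNReal.ofReal |poisson f z M| + J := by gcongr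
  have hlim : Tendsto (fun M : ℝ => ENNReal.ofReal |poisson f z M| + J) atTop (𝓝 (0 + J)) := by
    refine Tendsto.add ?_ tendsto_const_nhds
    have h3 : Tendsto (fun M : ℝ => |poisson f z M|) atTop (𝓝 |(0 : ℝ)|) := (htend z).abs
    have h4 := ENNReal.tendsto_ofReal h3
    simpa using h4
  rw [zero_add] at hlim
  refine ge_of_tendsto hlim ?_
  filter_upwards [eventually_gt_atTop y] with M hM
  exact key M hM

end Pool.Agent.Work.MP_055a27_an.Thr
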