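import Pool.Agent.Work.MP_055a27_an.Thr.Stmts

/-! # Change of aperture -/

open MeasureTheory Set Filter Topology Complex Metric
open scoped ENNReal NNReal

namespace Pool.Agent.Work.MP_055a27_an.Thr

namespace Aper

lemma pow_eq (g b p : ℝ) (hp : 0 < p) (f : ℝ → ℝ) (x : ℝ) :
    (ntMax b f x * ENNReal.ofReal (Real.exp (|x| ^ g / p))) ^ p =
      (ntMax b f x) ^ p * ENNReal.ofReal (Ug g x) := by
  rw [ENNReal.mul_rpow_of_nonneg _ _ hp.le, ENNReal.ofReal_rpow_of_pos (Real.exp_pos _)]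
  congr 2
  unfold Ug
  rw [← Real.exp_mul]
  congr 1
  field_simp

lemma pointwise (g b b' p : ℝ) (f : ℝ → ℝ) (K : ℝ≥0∞)
    (h : ∀ x z y : ℝ, 0 < y → |x - z| ≤ b' * y →
      ENNReal.ofReal (|poisson f z y| * Real.exp (|x| ^ g / p)) ≤ K * hlM (hh g b p f) x)
    (x : ℝ) :
    ntMax b' f x * ENNReal.ofReal (Real.exp (|x| ^ g / p)) ≤ K * hlM (hh g b p f) x := by
  unfold ntMax
  simp only [ENNReal.iSup_mul]
  refine iSup_le fun z => iSup_le fun y => iSup_le fun hy => ?_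
  rw [← ENNReal.ofReal_mul (abs_nonneg _)]
  refine h x (x - z) y hy.1 ?_
  rw [sub_sub_cancel]
  exact hy.2

end Aper

theorem stAper (hHL : StHL) (hLow : StLow) (hHigh : StHigh) (hVan : StVan) (hMeas : StMeas) :
    StAper := by
  intro g b b' p hg hg1 hb hb' hT hp
  have hp0 : 0 < p := by linarith
  obtain ⟨C1, h1⟩ := hLow g b b' p hg hg1 hb hb' hp0
  obtain ⟨C2, h2⟩ := hHigh g b b' p hg hg1 hb hb' hT hp0
  obtain ⟨C3, h3⟩ := hHL p hp
  refine ⟨(max C1 C2) ^ p * C3 + 1, fun f hf => ?_⟩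
  by_cases hR : ∫⁻ x, (ntMax b f x) ^ p * ENNReal.ofReal (Ug g x) = ∞
  · rw [hR, ENNReal.mul_top]
    · exact le_top
    · simp
  · have hv := hVan g b p f hg hb hp0 hf hR
    have key := Aper.pointwise g b b' p f ((max C1 C2 : ℝ≥0) : ℝ≥0∞) (fun x z y hy hz => by
      by_cases hc : y ≤ (1 + |x|) ^ (1 - g)
      · refine (h1 f hf x z y hy hz hc).trans ?_
        gcongr
        exact le_max_left _ _
      · refine (h2 f hf hv x z y hz (not_le.1 hc)).trans ?_
        gcongr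
        exact le_max_right _ _)
    calc ∫⁻ x, (ntMax b' f x) ^ p * ENNReal.ofReal (Ug g x)
        = ∫⁻ x, (ntMax b' f x * ENNReal.ofReal (Real.exp (|x| ^ g / p))) ^ p := by
          simp_rw [Aper.pow_eq g b' p hp0 f]
      _ ≤ ∫⁻ x, ((max C1 C2 : ℝ≥0) : ℝ≥0∞) ^ p * (hlM (hh g b p f) x) ^ p := by
          refine lintegral_mono fun x => ?_
          rw [← ENNReal.mul_rpow_of_nonneg _ _ hp0.le]
          exact ENNReal.rpow_le_rpow (key x) hp0.le
      _ = ((max C1 C2 : ℝ≥0) : ℝ≥0∞) ^ p * ∫⁻ x, (hlM (hh g b p f) x) ^ p := by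
          rw [lintegral_const_mul']
          exact ENNReal.rpow_ne_top_of_nonneg hp0.le ENNReal.coe_ne_top
      _ ≤ ((max C1 C2 : ℝ≥0) : ℝ≥0∞) ^ p * (C3 * ∫⁻ x, (hh g b p f x) ^ p) := by
          gcongr
          exact h3 _ (hMeas g b p f hg hf)
      _ = ((max C1 C2 : ℝ≥0) : ℝ≥0∞) ^ p * C3 *
            ∫⁻ x, (ntMax b f x) ^ p * ENNReal.ofReal (Ug g x) := by
          rw [mul_assoc]
          congr 2
          refine lintegral_congr fun x => ?_
          exact Aper.pow_eq g b p hp0 f x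
      _ ≤ _ := by
          gcongr
          rw [ENNReal.coe_add, ENNReal.coe_mul, ENNReal.coe_rpow_of_nonneg _ hp0.le]
          exact le_self_add

end Pool.Agent.Work.MP_055a27_an.Thr
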