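import Pool.Agent.Work.MP_055a27_an.Thr.Stmts

/-!
# Lower bound for the area function of the test functions
-/

open MeasureTheory Set Filter Topology Complex Metric
open scoped ENNReal NNReal

namespace Pool.Agent.Work.MP_055a27_an.Thr

namespace AreaLow

lemma ofReal_sqrt {v : ℝ} (hv : 0 ≤ v) :
    ENNReal.ofReal v = (ENNReal.ofReal (v ^ 2)) ^ (1 / 2 : ℝ) := by
  rw [ENNReal.ofReal_rpow_of_nonneg (sq_nonneg v) (by norm_num), ← Real.sqrt_eq_rpow,
    Real.sqrt_sq hv]

lemma g1_lower {lam g1 : ℝ} (h0 : 0 < g1) (h1 : g1 < 1) (h : lam < T g1) :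
    2 / Real.pi * Real.arctan lam ≤ g1 := by
  have hpi := Real.pi_pos
  have h2 : Real.arctan (T g1) = Real.pi * g1 / 2 := by
    unfold T
    apply Real.arctan_tan <;> nlinarith
  have h3 : Real.arctan lam < Real.pi * g1 / 2 := by
    rw [← h2]
    exact Real.arctan_strictMono h
  rw [div_mul_eq_mul_div, div_le_iff₀ hpi]
  nlinarith

/-- the bound of the exponent -/
lemma expo {lam p C kap c e L x g1 A η z y Y W : ℝ} (hlam : 0 < lam) (hp : 0 < p) (hC : 0 < C)
    (hkap : 0 < kap) (hc : c ≤ kap) (he : 0 < e) (he2 : 1 ≤ e ^ 2 * L)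
    (hL : 1 ≤ L) (hx : 0 < x) (hg1 : 0 < g1) (hg11 : g1 < 1)
    (hA : 0 < A) (hLdef : L = A * x ^ g1) (hη : 0 < η) (hηc : η ≤ c * x / L)
    (hηy : η ≤ y)
    (hY : Y = kap * x / (e * L)) (hW : W = kap * lam * x / (2 * L))
    (hy1 : y ≤ Y) (hy0 : 0 < y) (hz2 : z ≤ x - lam * y + W)
    (hTe : T g1 = lam + e) (hTB : T g1 ≤ lam + 1)
    (hcg : cg g1 (((x - (x - z) / (y + η) * (y + η) : ℝ) : ℂ) + ((y + η : ℝ) : ℂ) * I) ≤
      x ^ g1 + g1 * x ^ (g1 - 1) * (T g1 - (x - z) / (y + η)) * (y + η)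
        + C * x ^ (g1 - 2) * (y + η) ^ 2) :
    A / p * cg g1 ((z : ℂ) + ((y + η : ℝ) : ℂ) * I) ≤ A / p * x ^ g1 +
      (kap * (1 + lam / 2) + (lam + 1) * kap + 4 * C * kap ^ 2) / p := by
  have hy' : 0 < y + η := by linarith
  have e1 : x - (x - z) / (y + η) * (y + η) = z := by
    rw [div_mul_cancel₀ _ hy'.ne']; ring
  rw [e1] at hcg
  have hLp : 0 < L := by linarith
  have hx1 : A * x ^ (g1 - 1) = L / x := by
    rw [hLdef, Real.rpow_sub_one hx.ne']; ring
  have hx2 : A * x ^ (g1 - 2) = L / x ^ 2 := by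
    have : x ^ (g1 - 2) = x ^ g1 / x ^ 2 := by
      rw [Real.rpow_sub hx, Real.rpow_two]
    rw [hLdef, this]; ring
  have hpow1 : 0 < x ^ (g1 - 1) := Real.rpow_pos_of_pos hx _
  have hpow2 : 0 < x ^ (g1 - 2) := Real.rpow_pos_of_pos hx _
  have e2 : (T g1 - (x - z) / (y + η)) * (y + η) = T g1 * (y + η) - (x - z) := by
    field_simp
  -- first order term
  have t1 : (T g1 - (x - z) / (y + η)) * (y + η) ≤ e * Y + (lam + 1) * η + W := by
    rw [e2]
    have h1 : e * y ≤ e * Y := mul_le_mul_of_nonneg_left hy1 he.le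
    have h2 : T g1 * η ≤ (lam + 1) * η := mul_le_mul_of_nonneg_right hTB hη.le
    have h3 : T g1 * (y + η) - (x - z) ≤ e * y + T g1 * η + W := by
      have h4 : T g1 * (y + η) = lam * y + e * y + T g1 * η := by
        rw [mul_add]
        nth_rewrite 1 [hTe]
        ring
      linarith
    linarith
  have t0 : 0 ≤ e * Y + (lam + 1) * η + W := by
    have : 0 ≤ Y := hy0.le.trans hy1
    have hW0 : 0 ≤ W := by rw [hW]; positivity
    positivity
  have t2 : A * (g1 * x ^ (g1 - 1) * (T g1 - (x - z) / (y + η)) * (y + η))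
      ≤ kap * (1 + lam / 2) + (lam + 1) * kap := by
    have h1 : A * (g1 * x ^ (g1 - 1) * (T g1 - (x - z) / (y + η)) * (y + η))
        = g1 * (L / x) * ((T g1 - (x - z) / (y + η)) * (y + η)) := by
      rw [← hx1]; ring
    rw [h1]
    have h2 : g1 * (L / x) * ((T g1 - (x - z) / (y + η)) * (y + η))
        ≤ g1 * (L / x) * (e * Y + (lam + 1) * η + W) :=
      mul_le_mul_of_nonneg_left t1 (by positivity)
    have h3 : g1 * (L / x) * (e * Y + (lam + 1) * η + W)
        ≤ 1 * ((L / x) * (e * Y + (lam + 1) * η + W)) := by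
      rw [mul_assoc]
      exact mul_le_mul_of_nonneg_right hg11.le (by positivity)
    have h4 : (L / x) * (e * Y) = kap := by
      rw [hY]; field_simp
    have h5 : (L / x) * W = kap * lam / 2 := by
      rw [hW]; field_simp
    have h6 : (L / x) * η ≤ kap := by
      have : (L / x) * η ≤ (L / x) * (c * x / L) := mul_le_mul_of_nonneg_left hηc (by positivity)
      have h7 : (L / x) * (c * x / L) = c := by field_simp
      linarith
    have h8 : (L / x) * (e * Y + (lam + 1) * η + W)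
        = (L / x) * (e * Y) + (lam + 1) * ((L / x) * η) + (L / x) * W := by ring
    have h9 : (lam + 1) * ((L / x) * η) ≤ (lam + 1) * kap :=
      mul_le_mul_of_nonneg_left h6 (by linarith)
    rw [h8, h4, h5] at h3
    linarith
  -- second order term
  have t3 : A * (C * x ^ (g1 - 2) * (y + η) ^ 2) ≤ 4 * C * kap ^ 2 := by
    have h1 : A * (C * x ^ (g1 - 2) * (y + η) ^ 2) = C * ((L / x ^ 2) * (y + η) ^ 2) := by
      rw [← hx2]; ring
    rw [h1]
    have h2 : (y + η) ^ 2 ≤ (2 * Y) ^ 2 := pow_le_pow_left₀ hy'.le (by linarith) 2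
    have h3 : (L / x ^ 2) * (y + η) ^ 2 ≤ (L / x ^ 2) * (2 * Y) ^ 2 :=
      mul_le_mul_of_nonneg_left h2 (by positivity)
    have h4 : (L / x ^ 2) * (2 * Y) ^ 2 = 4 * kap ^ 2 / (e ^ 2 * L) := by
      rw [hY]; field_simp; ring
    have h5 : 4 * kap ^ 2 / (e ^ 2 * L) ≤ 4 * kap ^ 2 := div_le_self (by positivity) he2
    have h6 := mul_le_mul_of_nonneg_left (h3.trans (h4.le.trans h5)) hC.le
    linarith
  have h10 : A * cg g1 ((z : ℂ) + ((y + η : ℝ) : ℂ) * I) ≤ A * x ^ g1 +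
      (kap * (1 + lam / 2) + (lam + 1) * kap + 4 * C * kap ^ 2) := by
    have := mul_le_mul_of_nonneg_left hcg hA.le
    have e3 : A * (x ^ g1 + g1 * x ^ (g1 - 1) * (T g1 - (x - z) / (y + η)) * (y + η)
        + C * x ^ (g1 - 2) * (y + η) ^ 2)
        = A * x ^ g1 + A * (g1 * x ^ (g1 - 1) * (T g1 - (x - z) / (y + η)) * (y + η))
          + A * (C * x ^ (g1 - 2) * (y + η) ^ 2) := by ring
    rw [e3] at this
    linarith
  rw [div_mul_eq_mul_div, div_mul_eq_mul_div, ← add_div]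
  exact div_le_div_of_nonneg_right h10 hp.le

/-- the bound of the gradient -/
lemma grad {p g1 A x D E0 L g0 : ℝ} {w : ℂ} (hp : 0 < p) (hg1 : 0 < g1) (hg11 : g1 < 1)
    (hg0 : 0 < g0) (hg01 : g0 ≤ g1)
    (hA : 0 < A) (hx : 0 < x) (hLdef : L = A * x ^ g1) (hw0 : 0 < ‖w‖) (hw : ‖w‖ ≤ 2 * x)
    (hE : E0 ≤ A / p * x ^ g1 + D) :
    (g0 * L / (2 * p * x)) ^ 2 * Real.exp (-2 * D) * Real.exp (-(A / p) * x ^ g1) ^ 2 ≤
    (A * g1 / (p * Real.cos (Real.pi * g1 / 2)) * ‖w‖ ^ (g1 - 1) * Real.exp (-E0)) ^ 2 := by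
  have hcos := cos_half_pos hg1 hg11
  have hcos1 : Real.cos (Real.pi * g1 / 2) ≤ 1 := Real.cos_le_one _
  have e1 : (g0 * L / (2 * p * x)) ^ 2 * Real.exp (-2 * D) * Real.exp (-(A / p) * x ^ g1) ^ 2
      = (g0 * L / (2 * p * x) * Real.exp (-(A / p * x ^ g1 + D))) ^ 2 := by
    have : Real.exp (-(A / p * x ^ g1 + D)) = Real.exp (-D) * Real.exp (-(A / p) * x ^ g1) := by
      rw [← Real.exp_add]; congr 1; ring
    rw [this]
    have h2 : Real.exp (-2 * D) = Real.exp (-D) ^ 2 := by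
      rw [← Real.exp_nat_mul]; congr 1; push_cast; ring
    rw [h2]; ring
  rw [e1]
  have hx0 : 0 < x ^ g1 := Real.rpow_pos_of_pos hx _
  have hL : 0 < L := by rw [hLdef]; positivity
  apply pow_le_pow_left₀ (by positivity)
  have h3 : Real.exp (-(A / p * x ^ g1 + D)) ≤ Real.exp (-E0) :=
    Real.exp_le_exp.2 (by linarith)
  have h4 : x ^ (g1 - 1) / 2 ≤ ‖w‖ ^ (g1 - 1) := by
    have h5 : (2 * x) ^ (g1 - 1) ≤ ‖w‖ ^ (g1 - 1) :=
      Real.rpow_le_rpow_of_nonpos hw0 hw (by linarith)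
    have h6 : (2 * x) ^ (g1 - 1) = 2 ^ (g1 - 1) * x ^ (g1 - 1) :=
      Real.mul_rpow (by norm_num) hx.le
    have h7 : (1 / 2 : ℝ) ≤ 2 ^ (g1 - 1) := by
      have h8 : (2 : ℝ) ^ (-1 : ℝ) ≤ 2 ^ (g1 - 1) :=
        Real.rpow_le_rpow_of_exponent_le (by norm_num) (by linarith)
      rw [Real.rpow_neg_one] at h8
      linarith
    have h9 : 0 < x ^ (g1 - 1) := Real.rpow_pos_of_pos hx _
    have h10 : 1 / 2 * x ^ (g1 - 1) ≤ 2 ^ (g1 - 1) * x ^ (g1 - 1) :=
      mul_le_mul_of_nonneg_right h7 h9.le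
    rw [h6] at h5
    linarith
  have h5 : g0 * L / (2 * p * x) = A * g0 / p * (x ^ (g1 - 1) / 2) := by
    rw [hLdef, Real.rpow_sub_one hx.ne']
    field_simp
  have h6 : A * g0 / p ≤ A * g1 / (p * Real.cos (Real.pi * g1 / 2)) := by
    have h7 : A * g0 / p ≤ A * g1 / p :=
      div_le_div_of_nonneg_right (mul_le_mul_of_nonneg_left hg01 hA.le) hp.le
    refine h7.trans ?_
    apply div_le_div_of_nonneg_left (by positivity) (by positivity)
    calc p * Real.cos (Real.pi * g1 / 2) ≤ p * 1 := mul_le_mul_of_nonneg_left hcos1 hp.le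
      _ = p := mul_one p
  rw [h5]
  have h8 : 0 ≤ x ^ (g1 - 1) / 2 := by
    have := Real.rpow_pos_of_pos hx (g1 - 1)
    positivity
  apply mul_le_mul _ h3 (Real.exp_pos _).le (by positivity)
  exact mul_le_mul h6 h4 h8 (by positivity)

end AreaLow

open AreaLow in
theorem stAreaLow (hUpper : StUpper) (hTest : StTest) : StAreaLow := by
  intro lam p hlam hp
  obtain ⟨C, y0, hC, hy0, hU⟩ := hUpper (lam + 1) (by linarith)
  -- constants
  obtain ⟨kap, hkap, hk1, hk2, hk3⟩ : ∃ kap : ℝ, 0 < kap ∧ 2 * kap ≤ y0 ∧ kap ≤ 1 / 4 ∧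
      lam * kap ≤ 1 := by
    refine ⟨min (y0 / 2) (min (1 / 4) (1 / (lam + 1))), ?_, ?_, ?_, ?_⟩
    · exact lt_min (by positivity) (lt_min (by norm_num) (by positivity))
    · have := min_le_left (y0 / 2) (min (1 / 4) (1 / (lam + 1)))
      linarith
    · exact (min_le_right _ _).trans (min_le_left _ _)
    · have h1 : min (y0 / 2) (min (1 / 4) (1 / (lam + 1))) ≤ 1 / (lam + 1) :=
        (min_le_right _ _).trans (min_le_right _ _)
      calc lam * min (y0 / 2) (min (1 / 4) (1 / (lam + 1))) ≤ lam * (1 / (lam + 1)) :=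
            mul_le_mul_of_nonneg_left h1 hlam.le
        _ ≤ 1 := by
            rw [mul_one_div, div_le_one (by positivity)]; linarith
  set D : ℝ := (kap * (1 + lam / 2) + (lam + 1) * kap + 4 * C * kap ^ 2) / p with hD
  set g0 : ℝ := 2 / Real.pi * Real.arctan lam with hg0
  have hg0p : 0 < g0 := by
    have h1 := Real.arctan_strictMono hlam
    rw [Real.arctan_zero] at h1
    have := Real.pi_pos
    positivity
  set K : ℝ := g0 * kap * Real.sqrt lam * Real.exp (-D) / (4 * p) with hK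
  have hKp : 0 < K := by
    have := Real.sqrt_pos.2 hlam
    positivity
  refine ⟨min (kap / 2) K, lt_min (by positivity) hKp, ?_⟩
  set c := min (kap / 2) K with hc
  have hc0 : 0 < c := lt_min (by positivity) hKp
  have hck : c ≤ kap / 2 := min_le_left _ _
  have hcK : c ≤ K := min_le_right _ _
  intro g1 A x η hg1 hg11 hT1 hT2 hA hx hη hLe hηc
  set L := A * x ^ g1 with hL
  set e := T g1 - lam with he
  have he0 : 0 < e := by rw [he]; linarith
  have he1 : e ≤ 1 := by rw [he]; linarith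
  have he2 : 1 ≤ e ^ 2 * L := by
    rw [div_pow, one_pow, div_le_iff₀ (by positivity)] at hLe
    linarith
  have hL0 : 0 < L := by
    have : 0 < x ^ g1 := Real.rpow_pos_of_pos hx _
    rw [hL]; positivity
  have hL1 : 1 ≤ L := by
    have h1 : e ^ 2 ≤ 1 := pow_le_one₀ he0.le he1
    have h2 : e ^ 2 * L ≤ 1 * L := mul_le_mul_of_nonneg_right h1 hL0.le
    linarith
  have heL : 1 ≤ e * L := by
    have h1 : e ^ 2 * L ≤ e * L := by
      have : e ^ 2 ≤ e := by nlinarith
      exact mul_le_mul_of_nonneg_right this hL0.le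
    linarith
  set Y := kap * x / (e * L) with hY
  set W := kap * lam * x / (2 * L) with hW
  have hY0 : 0 < Y := by rw [hY]; positivity
  have hW0 : 0 < W := by rw [hW]; positivity
  have hYx : Y ≤ kap * x := by rw [hY]; exact div_le_self (by positivity) heL
  have hWY : W ≤ lam * Y / 2 := by
    have h1 : W = e * (lam * Y / 2) := by rw [hW, hY]; field_simp
    rw [h1]
    have : e * (lam * Y / 2) ≤ 1 * (lam * Y / 2) :=
      mul_le_mul_of_nonneg_right he1 (by positivity)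
    linarith
  have hηY : η ≤ Y / 2 := by
    have h1 : c * x / L ≤ kap / 2 * x / L := by
      apply div_le_div_of_nonneg_right _ hL0.le
      exact mul_le_mul_of_nonneg_right hck hx.le
    have h2 : kap / 2 * x / L = e * (Y / 2) := by rw [hY]; field_simp
    have h3 : e * (Y / 2) ≤ 1 * (Y / 2) := mul_le_mul_of_nonneg_right he1 (by positivity)
    linarith
  -- the set
  set P : Set (ℝ × ℝ) := {q : ℝ × ℝ | q.2 ∈ Icc (Y / 2) Y ∧
    q.1 ∈ Icc (x - lam * q.2) (x - lam * q.2 + W)} with hP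
  have hφ : Measurable (fun y : ℝ => x - lam * y) := by fun_prop
  have hPm : MeasurableSet P := measurableSet_strip hφ
  have hPv : volume P = ENNReal.ofReal W * ENNReal.ofReal (Y - Y / 2) := volume_strip hφ
  have hPc : P ⊆ cone lam x := by
    rintro ⟨z, y⟩ ⟨⟨h1, h2⟩, h3, h4⟩
    simp only at h1 h2 h3 h4
    refine ⟨?_, by simp only; linarith⟩
    simp only
    rw [abs_le]
    have : lam * (Y / 2) ≤ lam * y := mul_le_mul_of_nonneg_left h1 hlam.le
    have hy : 0 < y := by linarith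
    have h5 : 0 ≤ lam * y := by positivity
    constructor <;> linarith
  have hgrad : ∀ q ∈ P, (g0 * L / (2 * p * x)) ^ 2 * Real.exp (-2 * D) *
      Real.exp (-(A / p) * x ^ g1) ^ 2 ≤ gradSq (tf A p g1 η) q.1 q.2 := by
    rintro ⟨z, y⟩ ⟨⟨h1, h2⟩, h3, h4⟩
    simp only at h1 h2 h3 h4 ⊢
    have hy : 0 < y := by linarith
    rw [(hTest A p g1 η hA hp hg1 hg11 hη).2.2 z y hy]
    have hyη : 0 < y + η := by linarith
    have h5 : lam * (Y / 2) ≤ lam * y := mul_le_mul_of_nonneg_left h1 hlam.le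
    have hxz : 0 ≤ x - z := by linarith
    have hxz2 : x - z ≤ lam * (y + η) := by
      have h6 : lam * y ≤ lam * (y + η) := mul_le_mul_of_nonneg_left (by linarith) hlam.le
      linarith
    have hyy : y + η ≤ y0 * x := by
      have h6 : 2 * kap * x ≤ y0 * x := mul_le_mul_of_nonneg_right hk1 hx.le
      linarith
    have hβ : (x - z) / (y + η) ≤ lam + 1 := by
      rw [div_le_iff₀ hyη]
      have h6 : (lam + 1) * (y + η) = lam * (y + η) + (y + η) := by ring
      linarith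
    have hcg := hU g1 x (y + η) ((x - z) / (y + η)) hg1 hg11 hT2 hx hyη hyy
      (by positivity) hβ
    have hE := expo (lam := lam) (p := p) (C := C) (kap := kap) (c := c) (e := e) (L := L)
      (Y := Y) (W := W) hlam hp hC hkap (by linarith) he0 he2 hL1 hx hg1 hg11 hA hL hη hηc
      (by linarith) hY hW h2 hy h4 (by rw [he]; ring) hT2 hcg
    rw [← hD] at hE
    have hw0 : 0 < ‖(z : ℂ) + ((y + η : ℝ) : ℂ) * I‖ := by
      apply norm_pos_iff.2
      intro h
      have := congrArg Complex.im h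
      simp at this
      linarith
    have hw : ‖(z : ℂ) + ((y + η : ℝ) : ℂ) * I‖ ≤ 2 * x := by
      refine (norm_add_le _ _).trans ?_
      rw [norm_mul, Complex.norm_I, mul_one, Complex.norm_real, Complex.norm_real,
        Real.norm_eq_abs, Real.norm_eq_abs, abs_of_pos hyη]
      have h6 : |z| ≤ x := by
        rw [abs_le]
        have h7 : lam * y ≤ lam * (kap * x) := mul_le_mul_of_nonneg_left (h2.trans hYx) hlam.le
        have h8 : lam * (kap * x) ≤ 1 * x := by
          rw [← mul_assoc]; exact mul_le_mul_of_nonneg_right hk3 hx.le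
        constructor <;> linarith
      have h9 : kap * x ≤ 1 / 4 * x := mul_le_mul_of_nonneg_right hk2 hx.le
      linarith
    have hfin := grad (D := D) (g0 := g0) hp hg1 hg11 hg0p (g1_lower hg1 hg11 hT1) hA hx hL
      hw0 hw hE
    refine hfin.trans (le_of_eq ?_)
    congr 2
    rw [neg_mul]
  have harea := area_lower hPm hPc hgrad
  unfold areaFn
  have hv0 : 0 ≤ c * (1 / (T g1 - lam)) ^ (1 / 2 : ℝ) * Real.exp (-(A / p) * x ^ g1) := by
    rw [← he]; positivity
  rw [ofReal_sqrt hv0]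
  apply ENNReal.rpow_le_rpow _ (by norm_num)
  refine le_trans ?_ harea
  rw [hPv, ← ENNReal.ofReal_mul hW0.le, ← ENNReal.ofReal_mul (by positivity)]
  apply ENNReal.ofReal_le_ofReal
  have e1 : (c * (1 / (T g1 - lam)) ^ (1 / 2 : ℝ) * Real.exp (-(A / p) * x ^ g1)) ^ 2
      = c ^ 2 * (1 / e) * Real.exp (-(A / p) * x ^ g1) ^ 2 := by
    rw [← he, mul_pow, mul_pow]
    congr 2
    rw [← Real.sqrt_eq_rpow, Real.sq_sqrt (by positivity)]
  rw [e1]
  have e2 : (g0 * L / (2 * p * x)) ^ 2 * Real.exp (-2 * D) * Real.exp (-(A / p) * x ^ g1) ^ 2 *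
      (W * (Y - Y / 2)) = K ^ 2 * (1 / e) * Real.exp (-(A / p) * x ^ g1) ^ 2 := by
    have h1 : Real.exp (-2 * D) = Real.exp (-D) ^ 2 := by
      rw [← Real.exp_nat_mul]; congr 1; push_cast; ring
    have h2 : Real.sqrt lam ^ 2 = lam := Real.sq_sqrt hlam.le
    have h3 : K ^ 2 = g0 ^ 2 * kap ^ 2 * lam * Real.exp (-D) ^ 2 / (16 * p ^ 2) := by
      rw [hK]
      calc (g0 * kap * Real.sqrt lam * Real.exp (-D) / (4 * p)) ^ 2
          = g0 ^ 2 * kap ^ 2 * Real.sqrt lam ^ 2 * Real.exp (-D) ^ 2 / (16 * p ^ 2) := by ring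
        _ = _ := by rw [h2]
    rw [h1, h3, hY, hW]
    field_simp
    ring
  rw [e2]
  have h4 : c ^ 2 ≤ K ^ 2 := pow_le_pow_left₀ hc0.le hcK 2
  have h5 : 0 ≤ 1 / e := by positivity
  exact mul_le_mul_of_nonneg_right (mul_le_mul_of_nonneg_right h4 h5) (sq_nonneg _)

end Pool.Agent.Work.MP_055a27_an.Thr
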