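import Pool.Agent.Work.MP_055a27_an.WeakStar

/-!
# The weights `exp (|x| ^ g)`: basic definitions
-/

open MeasureTheory Set Filter Topology Complex Metric
open scoped ENNReal NNReal

namespace Pool.Agent.Work.MP_055a27_an.Thr

/-- The weight `exp (|x| ^ g)`. -/
noncomputable def Ug (g x : ℝ) : ℝ := Real.exp (|x| ^ g)

/-- The slope `tan (π g / 2)`. -/
noncomputable def T (g : ℝ) : ℝ := Real.tan (Real.pi * g / 2)

/-- The power `(-i w) ^ s`. -/
noncomputable def pw (s : ℝ) (w : ℂ) : ℂ := (-I * w) ^ (s : ℂ)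

/-- The harmonic function in the upper half plane with boundary values `|x| ^ g`. -/
noncomputable def cg (g : ℝ) (w : ℂ) : ℝ := (pw g w).re / Real.cos (Real.pi * g / 2)

/-- The Hardy Littlewood maximal function on the line. -/
noncomputable def hlM (h : ℝ → ℝ≥0∞) (x : ℝ) : ℝ≥0∞ :=
  ⨆ (r : ℝ) (_ : 0 < r), (∫⁻ t in Icc (x - r) (x + r), h t) / ENNReal.ofReal (2 * r)

/-- The function `N_b(f) U ^ (1 / p)` for `U = exp (|x| ^ g)`. -/
noncomputable def hh (g b p : ℝ) (f : ℝ → ℝ) (t : ℝ) : ℝ≥0∞ :=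
  ntMax b f t * ENNReal.ofReal (Real.exp (|t| ^ g / p))

/-- The test function `exp (-(A / p) Phi (w + i η))`, where `Re Phi = cg g1`. -/
noncomputable def tst (A p g1 η : ℝ) (w : ℂ) : ℂ :=
  Complex.exp (-((A / (p * Real.cos (Real.pi * g1 / 2)) : ℝ) : ℂ) * pw g1 (w + η * I))

/-- The admissible function given by the boundary values of `tst`. -/
noncomputable def tf (A p g1 η : ℝ) (t : ℝ) : ℝ := (tst A p g1 η t).re

lemma re_negI_mul (w : ℂ) : (-I * w).re = w.im := by simp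

lemma im_negI_mul (w : ℂ) : (-I * w).im = -w.re := by simp

lemma negI_mul_mem {w : ℂ} (hw : 0 < w.im) : -I * w ∈ slitPlane := by
  left; rw [re_negI_mul]; exact hw

lemma negI_mul_ne {w : ℂ} (hw : w ≠ 0) : -I * w ≠ 0 := by
  simp [hw]

lemma norm_negI_mul (w : ℂ) : ‖-I * w‖ = ‖w‖ := by simp

lemma ne_zero_of_im {w : ℂ} (hw : 0 < w.im) : w ≠ 0 := by
  rintro rfl; simp at hw

/-- Polar form of the powers in the open upper half plane. -/
lemma polar {w : ℂ} (hw : 0 < w.im) : ∃ φ : ℝ, -(Real.pi / 2) < φ ∧ φ < Real.pi / 2 ∧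
    w.im = ‖w‖ * Real.cos φ ∧ w.re = -(‖w‖ * Real.sin φ) ∧
    ∀ s : ℝ, (pw s w).re = ‖w‖ ^ s * Real.cos (s * φ) ∧ ‖pw s w‖ = ‖w‖ ^ s := by
  have hne : -I * w ≠ 0 := negI_mul_ne (ne_zero_of_im hw)
  refine ⟨(-I * w).arg, ?_, ?_, ?_, ?_, ?_⟩
  · have := (abs_arg_lt_pi_div_two_iff (z := -I * w)).2 (Or.inl (by rw [re_negI_mul]; exact hw))
    exact (abs_lt.1 this).1
  · have := (abs_arg_lt_pi_div_two_iff (z := -I * w)).2 (Or.inl (by rw [re_negI_mul]; exact hw))
    exact (abs_lt.1 this).2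
  · have := Complex.norm_mul_cos_arg (-I * w)
    rw [norm_negI_mul, re_negI_mul] at this
    exact this.symm
  · have := Complex.norm_mul_sin_arg (-I * w)
    rw [norm_negI_mul, im_negI_mul] at this
    linarith
  · intro s
    have h1 : pw s w = ((‖w‖ ^ s : ℝ) : ℂ) * Complex.exp (((s * (-I * w).arg : ℝ) : ℂ) * I) := by
      unfold pw
      rw [Complex.cpow_def_of_ne_zero hne]
      have h2 : Complex.log (-I * w) = (Real.log ‖w‖ : ℂ) + (-I * w).arg * I := by
        rw [Complex.log, norm_negI_mul]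
      have hpos : 0 < ‖w‖ := norm_pos_iff.2 (ne_zero_of_im hw)
      rw [h2, add_mul, Complex.exp_add]
      congr 1
      · rw [Real.rpow_def_of_pos hpos]
        push_cast
        rfl
      · congr 1
        push_cast
        ring
    constructor
    · rw [h1, Complex.re_ofReal_mul, Complex.exp_ofReal_mul_I_re]
    · rw [h1, norm_mul, Complex.norm_exp_ofReal_mul_I, mul_one, Complex.norm_real,
        Real.norm_eq_abs, abs_of_nonneg (by positivity)]

lemma hasDerivAt_pw (s : ℝ) {w : ℂ} (hw : 0 < w.im) :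
    HasDerivAt (pw s) (-I * s * pw (s - 1) w) w := by
  have h1 : HasDerivAt (fun w : ℂ => -I * w) (-I) w := by
    simpa using (hasDerivAt_id w).const_mul (-I)
  have h2 := h1.cpow_const (c := (s : ℂ)) (negI_mul_mem hw)
  have e : (s : ℂ) * (-I * w) ^ ((s : ℂ) - 1) * -I = -I * s * pw (s - 1) w := by
    unfold pw
    push_cast
    ring
  rw [← e]
  exact h2

lemma norm_pw {s : ℝ} {w : ℂ} (hw : 0 < w.im) : ‖pw s w‖ = ‖w‖ ^ s := by
  obtain ⟨φ, _, _, _, _, h⟩ := polar hw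
  exact (h s).2

lemma cos_half_pos {g : ℝ} (h0 : 0 < g) (h1 : g < 1) : 0 < Real.cos (Real.pi * g / 2) := by
  apply Real.cos_pos_of_mem_Ioo
  have := Real.pi_pos
  constructor <;> nlinarith

lemma sin_half_pos {g : ℝ} (h0 : 0 < g) (h1 : g < 1) : 0 < Real.sin (Real.pi * g / 2) := by
  apply Real.sin_pos_of_pos_of_lt_pi
  · have := Real.pi_pos; positivity
  · have := Real.pi_pos; nlinarith

lemma T_pos {g : ℝ} (h0 : 0 < g) (h1 : g < 1) : 0 < T g := by
  unfold T
  rw [Real.tan_eq_sin_div_cos]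
  exact div_pos (sin_half_pos h0 h1) (cos_half_pos h0 h1)

end Pool.Agent.Work.MP_055a27_an.Thr
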