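import Pool.Agent.Work.MP_055a27_an.Thr.Stmts

/-! # Comp: the real part of the power `g - 1` -/

set_option autoImplicit false

open MeasureTheory Set Filter Topology Complex Metric
open scoped ENNReal NNReal

namespace Pool.Agent.Work.MP_055a27_an.Thr

namespace Comp

lemma cos_lower (g φ : ℝ) (h0 : 0 < g) (h1 : g < 1) (ha : -(Real.pi / 2) < φ)
    (hb : φ < Real.pi / 2) : Real.sin (Real.pi * g / 2) ≤ Real.cos ((g - 1) * φ) := by
  have hpi := Real.pi_pos
  have e1 : Real.sin (Real.pi * g / 2) = Real.cos ((1 - g) * (Real.pi / 2)) := by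
    rw [← Real.cos_pi_div_two_sub]
    congr 1
    ring
  rw [e1, ← Real.cos_abs ((g - 1) * φ)]
  apply Real.cos_le_cos_of_nonneg_of_le_pi (abs_nonneg _)
  · nlinarith
  · rw [abs_mul, abs_of_neg (by linarith : g - 1 < 0)]
    have h2 : |φ| ≤ Real.pi / 2 := abs_le.mpr ⟨by linarith, by linarith⟩
    have h3 := mul_le_mul_of_nonneg_left h2 (by linarith : 0 ≤ 1 - g)
    linarith

end Comp

theorem stComp : StComp := by
  intro g h0 h1 w hw
  obtain ⟨φ, ha, hb, _, _, h⟩ := polar hw
  have hr : 0 ≤ ‖w‖ ^ (g - 1) := Real.rpow_nonneg (norm_nonneg w) _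
  rw [(h (g - 1)).1]
  constructor
  · rw [mul_comm]
    exact mul_le_mul_of_nonneg_left (Comp.cos_lower g φ h0 h1 ha hb) hr
  · have := mul_le_mul_of_nonneg_left (Real.cos_le_one ((g - 1) * φ)) hr
    linarith

end Pool.Agent.Work.MP_055a27_an.Thr
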