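import Pool.Agent.Work.MP_055a27_an.Thr.Stmts

/-!
# Lower bound for `cg` in cones
-/

open MeasureTheory Set Filter Topology Complex Metric
open scoped ENNReal NNReal

namespace Pool.Agent.Work.MP_055a27_an.Thr

namespace Cone

/-- the logarithmic function -/
noncomputable def DD (g γ ψ : ℝ) : ℝ :=
  Real.log (Real.cos (g * ψ)) - Real.log (Real.cos (Real.pi * g / 2)) -
    g * Real.log (Real.sin (ψ + γ)) + g * Real.log (Real.cos γ)

lemma cos_g_pos {g ψ : ℝ} (hg0 : 0 < g) (hg1 : g < 1) (h0 : 0 ≤ ψ) (h1 : ψ ≤ Real.pi / 2) :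
    0 < Real.cos (g * ψ) := by
  have hpi := Real.pi_pos
  apply Real.cos_pos_of_mem_Ioo
  have h2 : 0 ≤ g * ψ := by positivity
  have h3 : g * ψ ≤ g * (Real.pi / 2) := mul_le_mul_of_nonneg_left h1 hg0.le
  have h4 : g * (Real.pi / 2) < 1 * (Real.pi / 2) := mul_lt_mul_of_pos_right hg1 (by positivity)
  constructor <;> linarith

lemma sin_pos' {γ ψ : ℝ} (hγ0 : 0 < γ) (hγ1 : γ < Real.pi / 2) (h0 : 0 ≤ ψ)
    (h1 : ψ ≤ Real.pi / 2) : 0 < Real.sin (ψ + γ) :=
  Real.sin_pos_of_pos_of_lt_pi (by linarith) (by linarith)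

lemma der {g γ ψ : ℝ} (hg0 : 0 < g) (hg1 : g < 1) (hγ0 : 0 < γ) (hγ1 : γ < Real.pi / 2)
    (h0 : 0 ≤ ψ) (h1 : ψ ≤ Real.pi / 2) :
    HasDerivAt (DD g γ) (-(g * Real.cos (ψ + γ - g * ψ)) / (Real.cos (g * ψ) * Real.sin (ψ + γ)))
      ψ := by
  have hc := cos_g_pos hg0 hg1 h0 h1
  have hs := sin_pos' hγ0 hγ1 h0 h1
  have a1 : HasDerivAt (fun x : ℝ => g * x) g ψ := by
    simpa using (hasDerivAt_id' ψ).const_mul g
  have a2 : HasDerivAt (fun x : ℝ => Real.cos (g * x)) (-Real.sin (g * ψ) * g) ψ := a1.cos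
  have a3 : HasDerivAt (fun x : ℝ => Real.log (Real.cos (g * x)))
      (-Real.sin (g * ψ) * g / Real.cos (g * ψ)) ψ := a2.log hc.ne'
  have b1 : HasDerivAt (fun x : ℝ => x + γ) 1 ψ := (hasDerivAt_id' ψ).add_const γ
  have b2 : HasDerivAt (fun x : ℝ => Real.sin (x + γ)) (Real.cos (ψ + γ) * 1) ψ := b1.sin
  have b3 : HasDerivAt (fun x : ℝ => Real.log (Real.sin (x + γ)))
      (Real.cos (ψ + γ) * 1 / Real.sin (ψ + γ)) ψ := b2.log hs.ne'
  have c1 := ((a3.sub_const (Real.log (Real.cos (Real.pi * g / 2)))).fun_sub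
    (b3.const_mul g)).add_const (g * Real.log (Real.cos γ))
  have c2 : HasDerivAt (DD g γ) (-Real.sin (g * ψ) * g / Real.cos (g * ψ) -
      g * (Real.cos (ψ + γ) * 1 / Real.sin (ψ + γ))) ψ := c1
  convert! c2 using 1
  rw [Real.cos_sub]
  field_simp
  ring

lemma key {g γ : ℝ} (hg0 : 0 < g) (hg1 : g < 1) (hγ0 : 0 < γ) (hγ1 : γ < Real.pi * g / 2)
    {ψ : ℝ} (h0 : 0 ≤ ψ) (h1 : ψ ≤ Real.pi / 2) :
    g * Real.sin (Real.pi * g / 2 - γ) * (Real.pi / 2 - ψ) ≤ DD g γ ψ := by
  have hpi := Real.pi_pos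
  have hγ2 : γ < Real.pi / 2 := by nlinarith
  set d : ℝ := g * Real.sin (Real.pi * g / 2 - γ) with hd
  have hsin : 0 < Real.sin (Real.pi * g / 2 - γ) := by
    apply Real.sin_pos_of_pos_of_lt_pi
    · linarith
    · nlinarith
  have hder : ∀ x ∈ Icc (0 : ℝ) (Real.pi / 2), HasDerivAt (fun x => DD g γ x + d * x)
      (-(g * Real.cos (x + γ - g * x)) / (Real.cos (g * x) * Real.sin (x + γ)) + d) x := by
    intro x hx
    have e1 : HasDerivAt (fun x : ℝ => d * x) d x := by
      simpa using (hasDerivAt_id' x).const_mul d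
    exact (der hg0 hg1 hγ0 hγ2 hx.1 hx.2).fun_add e1
  have hanti : AntitoneOn (fun x => DD g γ x + d * x) (Icc 0 (Real.pi / 2)) := by
    apply antitoneOn_of_deriv_nonpos (convex_Icc _ _)
    · exact fun x hx => (hder x hx).continuousAt.continuousWithinAt
    · rw [interior_Icc]
      exact fun x hx => (hder x (Ioo_subset_Icc_self hx)).differentiableAt.differentiableWithinAt
    · rw [interior_Icc]
      intro x hx
      have hx' := Ioo_subset_Icc_self hx
      rw [(hder x hx').deriv]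
      have hc := cos_g_pos hg0 hg1 hx'.1 hx'.2
      have hs := sin_pos' hγ0 hγ2 hx'.1 hx'.2
      have hden : 0 < Real.cos (g * x) * Real.sin (x + γ) := mul_pos hc hs
      have hden1 : Real.cos (g * x) * Real.sin (x + γ) ≤ 1 := by
        have := mul_le_mul (Real.cos_le_one (g * x)) (Real.sin_le_one (x + γ)) hs.le zero_le_one
        linarith
      have hcos : Real.sin (Real.pi * g / 2 - γ) ≤ Real.cos (x + γ - g * x) := by
        have e1 : Real.sin (Real.pi * g / 2 - γ) =
            Real.cos (Real.pi / 2 - (Real.pi * g / 2 - γ)) := (Real.cos_pi_div_two_sub _).symm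
        rw [e1]
        have e2 : 0 ≤ (1 - g) * x := mul_nonneg (by linarith) hx'.1
        have e3 : (1 - g) * x ≤ (1 - g) * (Real.pi / 2) :=
          mul_le_mul_of_nonneg_left hx'.2 (by linarith)
        apply Real.cos_le_cos_of_nonneg_of_le_pi
        · linarith
        · linarith
        · linarith
      have h2 : d ≤ g * Real.cos (x + γ - g * x) / (Real.cos (g * x) * Real.sin (x + γ)) := by
        rw [le_div_iff₀ hden, hd]
        have e4 : 0 ≤ g * Real.sin (Real.pi * g / 2 - γ) := by positivity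
        calc g * Real.sin (Real.pi * g / 2 - γ) * (Real.cos (g * x) * Real.sin (x + γ))
            ≤ g * Real.sin (Real.pi * g / 2 - γ) * 1 := mul_le_mul_of_nonneg_left hden1 e4
          _ = g * Real.sin (Real.pi * g / 2 - γ) := mul_one _
          _ ≤ g * Real.cos (x + γ - g * x) := mul_le_mul_of_nonneg_left hcos hg0.le
      rw [neg_div]
      linarith
  have h2 := hanti ⟨h0, h1⟩ ⟨by positivity, le_rfl⟩ h1
  have h3 : DD g γ (Real.pi / 2) = 0 := by
    unfold DD
    have e1 : g * (Real.pi / 2) = Real.pi * g / 2 := by ring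
    have e2 : Real.sin (Real.pi / 2 + γ) = Real.cos γ := by
      rw [add_comm, Real.sin_add_pi_div_two]
    rw [e1, e2]
    ring
  simp only [h3] at h2
  linarith

end Cone

open Cone in
theorem stCone : StCone := by
  intro g β hg0 hg1 hβ0 hβ1
  have hpi := Real.pi_pos
  set γ : ℝ := Real.arctan β with hγ
  have hγ0 : 0 < γ := Real.arctan_pos.2 hβ0
  have hg2 : Real.pi * g / 2 < Real.pi / 2 := by nlinarith
  have hγ1 : γ < Real.pi * g / 2 := by
    have h1 : Real.arctan (T g) = Real.pi * g / 2 := by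
      unfold T
      exact Real.arctan_tan (by nlinarith) hg2
    rw [hγ, ← h1]
    exact Real.arctan_strictMono hβ1
  have hcγ : 0 < Real.cos γ := Real.cos_arctan_pos β
  have htan : Real.tan γ = β := Real.tan_arctan β
  have hc0 := cos_half_pos hg0 hg1
  set d : ℝ := g * Real.sin (Real.pi * g / 2 - γ) with hd
  have hsin : 0 < Real.sin (Real.pi * g / 2 - γ) := by
    apply Real.sin_pos_of_pos_of_lt_pi
    · linarith
    · linarith
  have hd0 : 0 < d := mul_pos hg0 hsin
  set m : ℝ := (min 1 β) ^ g with hm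
  have hmin : 0 < min 1 β := lt_min one_pos hβ0
  have hm0 : 0 < m := Real.rpow_pos_of_pos hmin g
  refine ⟨d * m, mul_pos hd0 hm0, ?_⟩
  intro x s y hy hxs
  have him : 0 < ((s : ℂ) + y * I).im := by simpa using hy
  obtain ⟨φ, hφ1, hφ2, him2, hre2, hpw⟩ := polar him
  set r : ℝ := ‖(s : ℂ) + y * I‖ with hr
  have hr0 : 0 < r := norm_pos_iff.2 (ne_zero_of_im him)
  have hyr : y = r * Real.cos φ := by
    rw [← him2]
    simp
  have hsr : s = -(r * Real.sin φ) := by
    rw [← hre2]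
    simp
  -- the nonnegative angle
  set ψ : ℝ := |φ| with hψ
  have hψ0 : 0 ≤ ψ := abs_nonneg φ
  have hψ1 : ψ < Real.pi / 2 := abs_lt.2 ⟨hφ1, hφ2⟩
  have hcψ : Real.cos φ = Real.cos ψ := (Real.cos_abs φ).symm
  have hgψ : Real.cos (g * φ) = Real.cos (g * ψ) := by
    rcases abs_cases φ with h | h
    · rw [hψ, h.1]
    · rw [hψ, h.1, mul_neg, Real.cos_neg]
  have hsψ : |Real.sin φ| = Real.sin ψ := by
    have hs0 : 0 ≤ Real.sin ψ := Real.sin_nonneg_of_nonneg_of_le_pi hψ0 (by linarith)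
    rcases abs_cases φ with h | h
    · rw [hψ, h.1]
      rw [hψ, h.1] at hs0
      exact abs_of_nonneg hs0
    · rw [hψ, h.1, Real.sin_neg]
      rw [hψ, h.1, Real.sin_neg] at hs0
      exact abs_of_nonpos (by linarith)
  have hs0 : 0 ≤ Real.sin ψ := Real.sin_nonneg_of_nonneg_of_le_pi hψ0 (by linarith)
  have hc1 : 0 < Real.cos ψ := Real.cos_pos_of_mem_Ioo ⟨by linarith, hψ1⟩
  set u : ℝ := Real.sin ψ + β * Real.cos ψ with hu
  have hu0 : 0 < u := by positivity
  have hu1 : u = Real.sin (ψ + γ) / Real.cos γ := by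
    rw [hu, eq_div_iff hcγ.ne', Real.sin_add, ← htan, Real.tan_eq_sin_div_cos]
    field_simp
  have hsψγ : 0 < Real.sin (ψ + γ) := sin_pos' hγ0 (by linarith) hψ0 hψ1.le
  -- the key inequality
  have hkey := key hg0 hg1 hγ0 hγ1 hψ0 hψ1.le
  have hcg := cos_g_pos hg0 hg1 hψ0 hψ1.le
  have hD1 : d * Real.cos ψ ≤ DD g γ ψ := by
    have h1 : Real.cos ψ ≤ Real.pi / 2 - ψ := by
      rw [← Real.sin_pi_div_two_sub]
      exact Real.sin_le (by linarith)
    exact (mul_le_mul_of_nonneg_left h1 hd0.le).trans hkey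
  have hD2 : Real.exp (DD g γ ψ) * u ^ g = Real.cos (g * ψ) / Real.cos (Real.pi * g / 2) := by
    have e1 : DD g γ ψ = Real.log (Real.cos (g * ψ)) - Real.log (Real.cos (Real.pi * g / 2)) -
        Real.log u * g := by
      unfold DD
      rw [hu1, Real.log_div hsψγ.ne' hcγ.ne']
      ring
    rw [e1, Real.rpow_def_of_pos hu0, ← Real.exp_add, sub_add_cancel, Real.exp_sub,
      Real.exp_log hcg, Real.exp_log hc0]
  have hum : m ≤ u ^ g := by
    apply Real.rpow_le_rpow hmin.le _ hg0.le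
    have e1 : min 1 β * Real.sin ψ ≤ 1 * Real.sin ψ :=
      mul_le_mul_of_nonneg_right (min_le_left _ _) hs0
    have e2 : min 1 β * Real.cos ψ ≤ β * Real.cos ψ :=
      mul_le_mul_of_nonneg_right (min_le_right _ _) hc1.le
    have e3 : 1 ≤ Real.sin ψ + Real.cos ψ := by
      have h1 := Real.sin_sq_add_cos_sq ψ
      have h2 := Real.sin_le_one ψ
      have h3 := Real.cos_le_one ψ
      nlinarith
    have e4 := mul_le_mul_of_nonneg_left e3 hmin.le
    rw [hu]
    linarith
  have hmain : u ^ g + d * m * Real.cos ψ ≤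
      Real.cos (g * ψ) / Real.cos (Real.pi * g / 2) := by
    rw [← hD2]
    have e1 := Real.add_one_le_exp (DD g γ ψ)
    have e2 : 1 + d * Real.cos ψ ≤ Real.exp (DD g γ ψ) := by linarith
    have e3 := mul_le_mul_of_nonneg_right e2 (Real.rpow_nonneg hu0.le g)
    have e4 := mul_le_mul_of_nonneg_left hum (mul_nonneg hd0.le hc1.le)
    linarith
  -- the bound for `|x|`
  have hx : |x| ≤ r * u := by
    have e1 : |x| ≤ |s| + |x - s| := by
      calc |x| = |s + (x - s)| := by congr 1; ring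
        _ ≤ _ := abs_add_le _ _
    have e2 : |s| = r * Real.sin ψ := by
      rw [hsr, abs_neg, abs_mul, abs_of_pos hr0, hsψ]
    have e3 : β * y = β * (r * Real.cos ψ) := by rw [hyr, hcψ]
    rw [hu]
    linarith
  have hxg : |x| ^ g ≤ r ^ g * u ^ g := by
    rw [← Real.mul_rpow hr0.le hu0.le]
    exact Real.rpow_le_rpow (abs_nonneg _) hx hg0.le
  have hyg : d * m * y * r ^ (g - 1) = r ^ g * (d * m * Real.cos ψ) := by
    have e1 : r * r ^ (g - 1) = r ^ g := by
      have := Real.rpow_add hr0 1 (g - 1)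
      rw [Real.rpow_one] at this
      rw [← this]
      congr 1
      ring
    rw [hyr, hcψ, ← e1]
    ring
  rw [hyg]
  unfold cg
  rw [(hpw g).1, hgψ]
  have hrg : 0 ≤ r ^ g := Real.rpow_nonneg hr0.le g
  calc |x| ^ g + r ^ g * (d * m * Real.cos ψ) ≤ r ^ g * u ^ g + r ^ g * (d * m * Real.cos ψ) := by
        linarith
    _ = r ^ g * (u ^ g + d * m * Real.cos ψ) := by ring
    _ ≤ r ^ g * (Real.cos (g * ψ) / Real.cos (Real.pi * g / 2)) :=
        mul_le_mul_of_nonneg_left hmain hrg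
    _ = r ^ g * Real.cos (g * ψ) / Real.cos (Real.pi * g / 2) := by ring

end Pool.Agent.Work.MP_055a27_an.Thr
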