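import Pool.Agent.Work.MP_055a27_an.Thr.Stmts

/-! # The decay integral -/

open MeasureTheory Set Filter Topology Complex Metric
open scoped ENNReal NNReal
namespace Pool.Agent.Work.MP_055a27_an.Thr
namespace Dec

theorem pt {g δ X τ : ℝ} (hg : 0 < g) (hg1 : g < 1) (hδ : 0 < δ) (hX : 1 ≤ X) (hτ : 0 < τ) :
    Real.exp (-(δ * τ * (X + τ) ^ (g - 1))) ≤
      Real.exp (-(δ * 2 ^ (g - 1) * X ^ (g - 1)) * τ) + Real.exp (-(δ * 2 ^ (g - 1)) * τ ^ g) := by
  have hX0 : 0 < X := by linarith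
  rcases le_total τ X with h | h
  · have h1 : (2 * X) ^ (g - 1) ≤ (X + τ) ^ (g - 1) :=
      Real.rpow_le_rpow_of_nonpos (by linarith) (by linarith) (by linarith)
    have h2 : (2 * X) ^ (g - 1) = 2 ^ (g - 1) * X ^ (g - 1) :=
      Real.mul_rpow (by norm_num) hX0.le
    refine le_add_of_le_of_nonneg (Real.exp_le_exp.2 ?_) (Real.exp_pos _).le
    rw [h2] at h1
    have := mul_le_mul_of_nonneg_left h1 (mul_pos hδ hτ).le
    nlinarith
  · have h1 : (2 * τ) ^ (g - 1) ≤ (X + τ) ^ (g - 1) :=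
      Real.rpow_le_rpow_of_nonpos (by linarith) (by linarith) (by linarith)
    have h2 : (2 * τ) ^ (g - 1) = 2 ^ (g - 1) * τ ^ (g - 1) :=
      Real.mul_rpow (by norm_num) hτ.le
    have h3 : τ * τ ^ (g - 1) = τ ^ g := by
      rw [← Real.rpow_one_add' hτ.le (by linarith)]; congr 1; ring
    refine le_add_of_nonneg_of_le (Real.exp_pos _).le (Real.exp_le_exp.2 ?_)
    rw [h2] at h1
    have := mul_le_mul_of_nonneg_left h1 (mul_pos hδ hτ).le
    rw [← h3]
    nlinarith

theorem int_exp {d : ℝ} (hd : 0 < d) :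
    ∫⁻ τ in Ioi (0 : ℝ), ENNReal.ofReal (Real.exp (-d * τ)) = ENNReal.ofReal (1 / d) := by
  have h := integrableOn_exp_mul_Ioi (a := -d) (by linarith) 0
  rw [← ofReal_integral_eq_lintegral_ofReal h (Eventually.of_forall fun x => (Real.exp_pos _).le)]
  rw [integral_exp_mul_Ioi (by linarith)]
  congr 1
  simp

end Dec

theorem stDec : StDec := by
  intro g δ hg hg1 hδ
  set d : ℝ := δ * 2 ^ (g - 1) with hd
  have hd0 : 0 < d := by positivity
  have hint : IntegrableOn (fun τ : ℝ => Real.exp (-d * τ ^ g)) (Ioi 0) := by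
    have := integrableOn_rpow_mul_exp_neg_mul_rpow (p := g) (s := 0) (b := d) (by norm_num) (by linarith) hd0
    simpa using this
  set I : ℝ := ∫ τ in Ioi (0 : ℝ), Real.exp (-d * τ ^ g) with hI
  have hI0 : 0 ≤ I := integral_nonneg fun x => (Real.exp_pos _).le
  have hlI : ∫⁻ τ in Ioi (0 : ℝ), ENNReal.ofReal (Real.exp (-d * τ ^ g)) = ENNReal.ofReal I := by
    rw [hI, ofReal_integral_eq_lintegral_ofReal hint (Eventually.of_forall fun x => (Real.exp_pos _).le)]
  refine ⟨Real.toNNReal (1 / d + I), fun X hX => ?_⟩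
  have hX0 : 0 < X := by linarith
  have hXg : 1 ≤ X ^ (1 - g) := Real.one_le_rpow hX (by linarith)
  calc ∫⁻ τ in Ioi (0 : ℝ), ENNReal.ofReal (Real.exp (-(δ * τ * (X + τ) ^ (g - 1))))
      ≤ ∫⁻ τ in Ioi (0 : ℝ), (ENNReal.ofReal (Real.exp (-(d * X ^ (g - 1)) * τ)) +
          ENNReal.ofReal (Real.exp (-d * τ ^ g))) := by
        refine setLIntegral_mono' measurableSet_Ioi fun τ hτ => ?_
        rw [← ENNReal.ofReal_add (Real.exp_pos _).le (Real.exp_pos _).le]
        exact ENNReal.ofReal_le_ofReal (Dec.pt hg hg1 hδ hX hτ)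
    _ = ENNReal.ofReal (1 / (d * X ^ (g - 1))) + ENNReal.ofReal I := by
        rw [lintegral_add_left (by fun_prop), Dec.int_exp (by positivity), hlI]
    _ ≤ (Real.toNNReal (1 / d + I) : ℝ≥0∞) * ENNReal.ofReal (X ^ (1 - g)) := by
        rw [← ENNReal.ofReal_add (by positivity) hI0]
        rw [show ((Real.toNNReal (1 / d + I) : ℝ≥0) : ℝ≥0∞) = ENNReal.ofReal (1 / d + I) from rfl,
          ← ENNReal.ofReal_mul (by positivity)]
        refine ENNReal.ofReal_le_ofReal ?_
        have e : 1 / (d * X ^ (g - 1)) = 1 / d * X ^ (1 - g) := by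
          rw [show (1 - g) = -(g - 1) by ring, Real.rpow_neg hX0.le]
          field_simp
        rw [e, add_mul]
        have : I ≤ I * X ^ (1 - g) := le_mul_of_one_le_right hI0 hXg
        linarith

end Pool.Agent.Work.MP_055a27_an.Thr
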