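import Pool.Agent.Work.MP_055a27_an.Thr.Stmts

/-! Project MP_055a27_an, module Thr, item ExpZero: exponential decay forces vanishing. -/

set_option autoImplicit false

open MeasureTheory Set Filter Topology Complex Metric
open scoped ENNReal NNReal

namespace Pool.Agent.Work.MP_055a27_an.Thr

namespace ExpZero

lemma cos_abs_mul (g φ : ℝ) (hg : 0 ≤ g) : Real.cos (g * φ) = Real.cos (g * |φ|) := by
  rw [← Real.cos_abs (g * φ), abs_mul, abs_of_nonneg hg]

lemma norm_rpow_le {g r : ℝ} (hg0 : 0 < g) (hg1 : g < 1) (hr : 0 ≤ r) : r ^ g ≤ 1 + r := by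
  rcases le_total r 1 with h | h
  · have := Real.rpow_le_one hr h hg0.le
    linarith
  · have : r ^ g ≤ r ^ (1 : ℝ) := Real.rpow_le_rpow_of_exponent_le h hg1.le
    rw [Real.rpow_one] at this
    linarith

/-- the upper bound for `cg` -/
lemma cg_le {g : ℝ} (hg0 : 0 < g) (hg1 : g < 1) {w : ℂ} (hw : 0 < w.im) :
    cg g w ≤ ‖w‖ ^ g + Real.pi / 2 * (w.im / Real.cos (Real.pi * g / 2)) * ‖w‖ ^ (g - 1) := by
  obtain ⟨φ, h1, h2, him, hre, hpol⟩ := polar hw
  have hh := cos_half_pos hg0 hg1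
  set h : ℝ := Real.cos (Real.pi * g / 2) with hh'
  have hr : 0 < ‖w‖ := norm_pos_iff.2 (ne_zero_of_im hw)
  have hα : |φ| < Real.pi / 2 := abs_lt.2 ⟨h1, h2⟩
  have hα0 := abs_nonneg φ
  have e1 : Real.cos (g * φ) ≤ h + Real.pi / 2 * Real.cos φ := by
    have e2 : Real.cos (g * |φ|) - Real.cos (g * (Real.pi / 2)) ≤ g * (Real.pi / 2 - |φ|) := by
      have e3 := Real.abs_cos_sub_cos_le (g * |φ|) (g * (Real.pi / 2))
      have e4 : |g * |φ| - g * (Real.pi / 2)| = g * (Real.pi / 2 - |φ|) := by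
        rw [abs_of_nonpos]
        · ring
        · nlinarith
      rw [e4] at e3
      exact (le_abs_self _).trans e3
    have e5 : Real.pi / 2 - |φ| ≤ Real.pi / 2 * Real.cos φ := by
      have e6 := Real.mul_le_sin (x := Real.pi / 2 - |φ|) (by linarith) (by linarith)
      rw [Real.sin_pi_div_two_sub, Real.cos_abs] at e6
      have hpi := Real.pi_pos
      have e7 : 2 / Real.pi * (Real.pi / 2 - |φ|) * (Real.pi / 2) = Real.pi / 2 - |φ| := by
        field_simp
      nlinarith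
    rw [cos_abs_mul g φ hg0.le]
    have e8 : g * (Real.pi / 2) = Real.pi * g / 2 := by ring
    rw [e8, ← hh'] at e2
    have e9 : 0 ≤ Real.pi / 2 - |φ| := by linarith
    nlinarith
  unfold cg
  rw [← hh', (hpol g).1, div_le_iff₀ hh]
  have e10 : ‖w‖ ^ g = ‖w‖ ^ (g - 1) * ‖w‖ := by
    rw [← Real.rpow_add_one hr.ne']
    congr 1
    ring
  have e11 : 0 < ‖w‖ ^ g := Real.rpow_pos_of_pos hr g
  calc ‖w‖ ^ g * Real.cos (g * φ) ≤ ‖w‖ ^ g * (h + Real.pi / 2 * Real.cos φ) :=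
        mul_le_mul_of_nonneg_left e1 e11.le
    _ = ‖w‖ ^ g * h + Real.pi / 2 * (‖w‖ * Real.cos φ) * ‖w‖ ^ (g - 1) := by
        rw [e10]
        ring
    _ = (‖w‖ ^ g + Real.pi / 2 * (w.im / h) * ‖w‖ ^ (g - 1)) * h := by
        rw [← him]
        field_simp

/-- the lower bound for `cg` -/
lemma le_cg {g : ℝ} (hg0 : 0 < g) (hg1 : g < 1) {w : ℂ} (hw : 0 < w.im) :
    ‖w‖ ^ (g - 1) * w.im / Real.cos (Real.pi * g / 2) ≤ cg g w := by
  obtain ⟨φ, h1, h2, him, hre, hpol⟩ := polar hw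
  have hh := cos_half_pos hg0 hg1
  set h : ℝ := Real.cos (Real.pi * g / 2) with hh'
  have hr : 0 < ‖w‖ := norm_pos_iff.2 (ne_zero_of_im hw)
  have hα : |φ| < Real.pi / 2 := abs_lt.2 ⟨h1, h2⟩
  have hα0 := abs_nonneg φ
  have e1 : Real.cos φ ≤ Real.cos (g * φ) := by
    rw [cos_abs_mul g φ hg0.le, ← Real.cos_abs φ]
    apply Real.cos_le_cos_of_nonneg_of_le_pi
    · positivity
    · have := Real.pi_pos
      linarith
    · nlinarith
  unfold cg
  rw [← hh', (hpol g).1]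
  apply div_le_div_of_nonneg_right _ hh.le
  have e10 : ‖w‖ ^ g = ‖w‖ ^ (g - 1) * ‖w‖ := by
    rw [← Real.rpow_add_one hr.ne']
    congr 1
    ring
  have e11 : 0 < ‖w‖ ^ g := Real.rpow_pos_of_pos hr g
  calc ‖w‖ ^ (g - 1) * w.im = ‖w‖ ^ g * Real.cos φ := by
        rw [him, e10]
        ring
    _ ≤ ‖w‖ ^ g * Real.cos (g * φ) := mul_le_mul_of_nonneg_left e1 e11.le

/-- `h = cos (π g / 2)` and `u = 1 - g` -/
lemma cos_ge {g : ℝ} (hg0 : 0 < g) (hg1 : g < 1) :
    1 - g ≤ Real.cos (Real.pi * g / 2) ∧ Real.cos (Real.pi * g / 2) ≤ Real.pi / 2 * (1 - g) := by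
  have e1 : Real.cos (Real.pi * g / 2) = Real.sin (Real.pi / 2 * (1 - g)) := by
    rw [← Real.sin_pi_div_two_sub]
    congr 1
    ring
  have hpi := Real.pi_pos
  rw [e1]
  constructor
  · have e2 := Real.mul_le_sin (x := Real.pi / 2 * (1 - g)) (by
      apply mul_nonneg <;> linarith) (by nlinarith)
    have e3 : 2 / Real.pi * (Real.pi / 2 * (1 - g)) = 1 - g := by field_simp
    rw [e3] at e2
    exact e2
  · exact Real.sin_le (by apply mul_nonneg <;> linarith)

lemma h_rpow_le {g : ℝ} (hg0 : 0 < g) (hg1 : g < 1) :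
    Real.cos (Real.pi * g / 2) ^ (g - 1) ≤ Real.exp 1 := by
  have h1 := (cos_ge hg0 hg1).1
  have hu : 0 < 1 - g := by linarith
  calc Real.cos (Real.pi * g / 2) ^ (g - 1) ≤ (1 - g) ^ (g - 1) :=
        Real.rpow_le_rpow_of_nonpos hu h1 (by linarith)
    _ = Real.exp (Real.log (1 - g) * (g - 1)) := by rw [Real.rpow_def_of_pos hu]
    _ ≤ Real.exp 1 := by
        apply Real.exp_le_exp.2
        have h2 := Real.one_sub_inv_le_log_of_pos hu
        have h3 : (1 - g) * (1 - g)⁻¹ = 1 := mul_inv_cancel₀ hu.ne'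
        nlinarith

lemma kernel_lintegral {s y : ℝ} (hy : 0 < y) {M : ℝ} (hM : 0 ≤ M) :
    ∫⁻ t : ℝ, ENNReal.ofReal (y / ((s - t) ^ 2 + y ^ 2)) * ENNReal.ofReal M =
      ENNReal.ofReal (Real.pi * M) := by
  have h1 : ∀ t : ℝ, ENNReal.ofReal (y / ((s - t) ^ 2 + y ^ 2)) * ENNReal.ofReal M =
      ENNReal.ofReal (y * M * (1 / ((s - t) ^ 2 + y ^ 2))) := by
    intro t
    rw [← ENNReal.ofReal_mul (by positivity)]
    congr 1
    ring
  simp only [h1]
  rw [← ofReal_integral_eq_lintegral_ofReal ((integrable_kernel (z := s) hy).const_mul _)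
    (Eventually.of_forall fun t => by positivity), integral_const_mul, integral_kernel hy]
  congr 1
  field_simp

/-- the main estimate for one `g` -/
lemma main_est (hPL : StPL) {ψ : ℂ → ℂ} {C c η : ℝ} (hc : 0 < c) (hη : 0 < η)
    (hψ : DifferentiableOn ℂ ψ uhp)
    (hb : ∀ w : ℂ, η ≤ w.im → ‖ψ w‖ ≤ C * Real.exp (-c * ‖w‖)) {g : ℝ} (hg0 : 0 < g)
    (hg1 : g < 1) {s y : ℝ} (hy : 0 < y) {R : ℝ} (hR1 : 1 ≤ R) (hR : |s| + y + 1 ≤ R) :
    ‖ψ (s + (y + η : ℝ) * I)‖ * (c * y) ≤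
      Real.pi * (C * Real.exp (c * (2 + Real.pi / 2 * Real.exp 1))) * R *
        Real.cos (Real.pi * g / 2) := by
  have hh := cos_half_pos hg0 hg1
  obtain ⟨h, hhdef⟩ : ∃ h, h = Real.cos (Real.pi * g / 2) := ⟨_, rfl⟩
  have hh1 : h ≤ 1 := hhdef ▸ Real.cos_le_one _
  rw [← hhdef] at hh
  have hC : 0 ≤ C := by
    have h1 := hb ((η : ℂ) * I) (by simp)
    have h2 := (norm_nonneg _).trans h1
    by_contra hcon
    push Not at hcon
    have := mul_neg_of_neg_of_pos hcon (Real.exp_pos (-c * ‖(η : ℂ) * I‖))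
    linarith
  set G : ℂ → ℂ := fun ζ => ψ (ζ + η * I) * Complex.exp (((c / h : ℝ) : ℂ) * pw g (ζ + h * I))
    with hG
  have hnorm : ∀ ζ : ℂ, ‖G ζ‖ = ‖ψ (ζ + η * I)‖ * Real.exp (c * cg g (ζ + h * I)) := by
    intro ζ
    simp only [hG]
    rw [norm_mul, Complex.norm_exp, Complex.re_ofReal_mul]
    unfold cg
    rw [← hhdef]
    congr 2
    ring
  have him : ∀ ζ : ℂ, 0 ≤ ζ.im → 0 < (ζ + h * I).im := by
    intro ζ hζ
    simp only [Complex.add_im, Complex.mul_im, Complex.ofReal_re, Complex.I_im, mul_one,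
      Complex.ofReal_im, Complex.I_re, mul_zero, add_zero]
    linarith
  have him2 : ∀ ζ : ℂ, 0 ≤ ζ.im → η ≤ (ζ + η * I).im := by
    intro ζ hζ
    simp only [Complex.add_im, Complex.mul_im, Complex.ofReal_re, Complex.I_im, mul_one,
      Complex.ofReal_im, Complex.I_re, mul_zero, add_zero]
    linarith
  have hdiff : ∀ ζ : ℂ, 0 ≤ ζ.im → DifferentiableAt ℂ G ζ := by
    intro ζ hζ
    have e1 : DifferentiableAt ℂ ψ (ζ + η * I) :=
      hψ.differentiableAt (isOpen_uhp.mem_nhds (lt_of_lt_of_le hη (him2 ζ hζ)))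
    have e2 : DifferentiableAt ℂ (pw g) (ζ + h * I) := (hasDerivAt_pw g (him ζ hζ)).differentiableAt
    have e3 : DifferentiableAt ℂ (fun ζ : ℂ => ψ (ζ + η * I)) ζ :=
      DifferentiableAt.comp ζ (g := ψ) (f := fun ζ : ℂ => ζ + η * I) e1 (by fun_prop)
    have e4 : DifferentiableAt ℂ (fun ζ : ℂ => pw g (ζ + h * I)) ζ :=
      DifferentiableAt.comp ζ (g := pw g) (f := fun ζ : ℂ => ζ + h * I) e2 (by fun_prop)
    exact e3.mul (e4.const_mul _).cexp
  have hcgle : ∀ w : ℂ, 0 < w.im → cg g w ≤ ‖w‖ ^ g / h := by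
    intro w hw
    unfold cg
    rw [← hhdef]
    apply div_le_div_of_nonneg_right _ hh.le
    calc (pw g w).re ≤ ‖pw g w‖ := Complex.re_le_norm _
      _ = ‖w‖ ^ g := norm_pw hw
  have hgrow : ∀ ζ : ℂ, 0 ≤ ζ.im → ‖G ζ‖ ≤ (C * Real.exp (c * (1 / h))) * (1 + ‖ζ‖) ^ 2 *
      Real.exp (c / h * ‖ζ‖ ^ g) := by
    intro ζ hζ
    rw [hnorm]
    have e1 : ‖ψ (ζ + η * I)‖ ≤ C := by
      refine (hb _ (him2 ζ hζ)).trans ?_
      have : Real.exp (-c * ‖ζ + η * I‖) ≤ 1 := by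
        rw [Real.exp_le_one_iff]
        have := norm_nonneg (ζ + η * I)
        nlinarith
      nlinarith
    have e2 : ‖ζ + h * I‖ ^ g ≤ ‖ζ‖ ^ g + 1 := by
      have e3 : ‖ζ + h * I‖ ≤ ‖ζ‖ + h := by
        refine (norm_add_le _ _).trans ?_
        rw [norm_mul, Complex.norm_I, mul_one, Complex.norm_real, Real.norm_eq_abs,
          abs_of_pos hh]
      calc ‖ζ + h * I‖ ^ g ≤ (‖ζ‖ + h) ^ g := Real.rpow_le_rpow (norm_nonneg _) e3 hg0.le
        _ ≤ ‖ζ‖ ^ g + h ^ g := Real.rpow_add_le_add_rpow (norm_nonneg _) hh.le hg0.le hg1.le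
        _ ≤ ‖ζ‖ ^ g + 1 := by
            have := Real.rpow_le_one hh.le hh1 hg0.le
            linarith
    have e3 : c * cg g (ζ + h * I) ≤ c * (1 / h) + c / h * ‖ζ‖ ^ g := by
      calc c * cg g (ζ + h * I) ≤ c * ((‖ζ‖ ^ g + 1) / h) := by
            apply mul_le_mul_of_nonneg_left _ hc.le
            refine (hcgle _ (him ζ hζ)).trans ?_
            exact div_le_div_of_nonneg_right e2 hh.le
        _ = _ := by ring
    have e4 : (1 : ℝ) ≤ (1 + ‖ζ‖) ^ 2 := by
      have := norm_nonneg ζ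
      nlinarith
    calc ‖ψ (ζ + η * I)‖ * Real.exp (c * cg g (ζ + h * I))
        ≤ C * Real.exp (c * (1 / h) + c / h * ‖ζ‖ ^ g) := by
          apply mul_le_mul e1 (Real.exp_le_exp.2 e3) (Real.exp_pos _).le hC
      _ = (C * Real.exp (c * (1 / h))) * 1 * Real.exp (c / h * ‖ζ‖ ^ g) := by
          rw [Real.exp_add]
          ring
      _ ≤ _ := by
          apply mul_le_mul_of_nonneg_right _ (Real.exp_pos _).le
          apply mul_le_mul_of_nonneg_left e4 (by positivity)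
  have hPL1 := hPL g (C * Real.exp (c * (1 / h))) (c / h) G hg0 hg1 hdiff hgrow s y hy
  -- the boundary values
  set C3 : ℝ := C * Real.exp (c * (2 + Real.pi / 2 * Real.exp 1)) with hC3
  have hC30 : 0 ≤ C3 := by positivity
  have hbdry : ∀ t : ℝ, ‖G t‖ ≤ C3 := by
    intro t
    rw [hnorm]
    have e1 : ‖ψ ((t : ℂ) + η * I)‖ ≤ C * Real.exp (-c * |t|) := by
      refine (hb _ (him2 (t : ℂ) (by simp))).trans ?_
      apply mul_le_mul_of_nonneg_left _ hC
      apply Real.exp_le_exp.2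
      have e2 : |((t : ℂ) + η * I).re| ≤ ‖(t : ℂ) + η * I‖ := Complex.abs_re_le_norm _
      have e3 : ((t : ℂ) + η * I).re = t := by simp
      rw [e3] at e2
      nlinarith
    have hw : 0 < ((t : ℂ) + h * I).im := him (t : ℂ) (by simp)
    have hwim : ((t : ℂ) + h * I).im = h := by simp
    have hhr : h ≤ ‖(t : ℂ) + h * I‖ := by
      calc h = ((t : ℂ) + h * I).im := hwim.symm
        _ ≤ |((t : ℂ) + h * I).im| := le_abs_self _
        _ ≤ _ := Complex.abs_im_le_norm _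
    have e2 := cg_le hg0 hg1 hw
    rw [← hhdef, hwim, div_self hh.ne', mul_one] at e2
    have e3 : ‖(t : ℂ) + h * I‖ ^ (g - 1) ≤ Real.exp 1 := by
      have e4 : ‖(t : ℂ) + h * I‖ ^ (g - 1) ≤ h ^ (g - 1) :=
        Real.rpow_le_rpow_of_nonpos hh hhr (by linarith)
      have e5 := h_rpow_le hg0 hg1
      rw [← hhdef] at e5
      exact e4.trans e5
    have e4 : ‖(t : ℂ) + h * I‖ ^ g ≤ 2 + |t| := by
      have e5 := norm_rpow_le hg0 hg1 (norm_nonneg ((t : ℂ) + h * I))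
      have e6 : ‖(t : ℂ) + h * I‖ ≤ |t| + h := by
        refine (norm_add_le _ _).trans ?_
        rw [norm_mul, Complex.norm_I, mul_one, Complex.norm_real, Complex.norm_real,
          Real.norm_eq_abs, Real.norm_eq_abs, abs_of_pos hh]
      linarith
    have hpi := Real.pi_pos
    have e5 : cg g ((t : ℂ) + h * I) ≤ |t| + (2 + Real.pi / 2 * Real.exp 1) := by
      have : Real.pi / 2 * ‖(t : ℂ) + h * I‖ ^ (g - 1) ≤ Real.pi / 2 * Real.exp 1 :=
        mul_le_mul_of_nonneg_left e3 (by positivity)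
      linarith
    calc ‖ψ ((t : ℂ) + η * I)‖ * Real.exp (c * cg g ((t : ℂ) + h * I))
        ≤ (C * Real.exp (-c * |t|)) *
          Real.exp (c * (|t| + (2 + Real.pi / 2 * Real.exp 1))) := by
          apply mul_le_mul e1 _ (Real.exp_pos _).le (by positivity)
          apply Real.exp_le_exp.2
          exact mul_le_mul_of_nonneg_left e5 hc.le
      _ = C3 := by
          rw [hC3, mul_assoc, ← Real.exp_add]
          congr 2
          ring
  have hup : ENNReal.ofReal ‖G (s + y * I)‖ ≤ ENNReal.ofReal (Real.pi * C3) := by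
    rw [← kernel_lintegral (s := s) hy hC30]
    refine hPL1.trans (lintegral_mono fun t => ?_)
    exact mul_le_mul' le_rfl (ENNReal.ofReal_le_ofReal (hbdry t))
  rw [ENNReal.ofReal_le_ofReal_iff (by positivity), hnorm] at hup
  have ew : (s : ℂ) + y * I + η * I = (s : ℂ) + ((y + η : ℝ) : ℂ) * I := by
    push_cast
    ring
  rw [ew] at hup
  -- the lower bound for `cg`
  have hw : 0 < ((s : ℂ) + y * I + h * I).im := him _ (by simp [hy.le])
  have hwim : ((s : ℂ) + y * I + h * I).im = y + h := by simp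
  have e1 := le_cg hg0 hg1 hw
  rw [← hhdef, hwim] at e1
  have e2 : ‖(s : ℂ) + y * I + h * I‖ ≤ R := by
    refine le_trans ?_ hR
    refine (norm_add_le _ _).trans ?_
    have e3 := norm_add_le (s : ℂ) (y * I)
    rw [norm_mul, Complex.norm_I, mul_one, Complex.norm_real, Complex.norm_real,
      Real.norm_eq_abs, Real.norm_eq_abs, abs_of_pos hy] at e3
    rw [norm_mul, Complex.norm_I, mul_one, Complex.norm_real, Real.norm_eq_abs, abs_of_pos hh]
    linarith
  have hr0 : 0 < ‖(s : ℂ) + y * I + h * I‖ := norm_pos_iff.2 (ne_zero_of_im hw)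
  have e3 : 1 / R ≤ ‖(s : ℂ) + y * I + h * I‖ ^ (g - 1) := by
    calc 1 / R = R ^ (-1 : ℝ) := by rw [Real.rpow_neg_one, one_div]
      _ ≤ R ^ (g - 1) := Real.rpow_le_rpow_of_exponent_le hR1 (by linarith)
      _ ≤ _ := Real.rpow_le_rpow_of_nonpos hr0 e2 (by linarith)
  have hR0 : 0 < R := by linarith
  have e4 : y / (R * h) ≤ cg g ((s : ℂ) + y * I + h * I) := by
    refine le_trans ?_ e1
    rw [← div_div]
    apply div_le_div_of_nonneg_right _ hh.le
    have e5 : 0 ≤ ‖(s : ℂ) + y * I + h * I‖ ^ (g - 1) := by positivity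
    calc y / R = 1 / R * y := by ring
      _ ≤ ‖(s : ℂ) + y * I + h * I‖ ^ (g - 1) * y := mul_le_mul_of_nonneg_right e3 hy.le
      _ ≤ ‖(s : ℂ) + y * I + h * I‖ ^ (g - 1) * (y + h) :=
          mul_le_mul_of_nonneg_left (by linarith) e5
  have e5 : c * (y / (R * h)) ≤ Real.exp (c * cg g ((s : ℂ) + y * I + h * I)) := by
    have e6 := Real.add_one_le_exp (c * cg g ((s : ℂ) + y * I + h * I))
    have e7 : c * (y / (R * h)) ≤ c * cg g ((s : ℂ) + y * I + h * I) :=
      mul_le_mul_of_nonneg_left e4 hc.le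
    linarith
  have e6 : ‖ψ ((s : ℂ) + ((y + η : ℝ) : ℂ) * I)‖ * (c * (y / (R * h))) ≤ Real.pi * C3 :=
    (mul_le_mul_of_nonneg_left e5 (norm_nonneg _)).trans hup
  rw [← hhdef]
  calc ‖ψ ((s : ℂ) + ((y + η : ℝ) : ℂ) * I)‖ * (c * y)
      = (‖ψ ((s : ℂ) + ((y + η : ℝ) : ℂ) * I)‖ * (c * (y / (R * h)))) * (R * h) := by
        field_simp
    _ ≤ (Real.pi * C3) * (R * h) := mul_le_mul_of_nonneg_right e6 (by positivity)
    _ = Real.pi * C3 * R * h := by ring

end ExpZero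

theorem stExpZero (hPL : StPL) : StExpZero := by
  intro ψ C c η hc hη hψ hb w hw
  obtain ⟨y, hy⟩ : ∃ y, y = w.im - η := ⟨_, rfl⟩
  have hy0 : 0 < y := by linarith
  obtain ⟨R, hR⟩ : ∃ R, R = |w.re| + y + 1 := ⟨_, rfl⟩
  have hR1 : 1 ≤ R := by
    have := abs_nonneg w.re
    linarith
  have hweq : (w.re : ℂ) + ((y + η : ℝ) : ℂ) * I = w := by
    rw [hy, sub_add_cancel]
    exact Complex.re_add_im w
  obtain ⟨M, hM⟩ : ∃ M, M = Real.pi * (C * Real.exp (c * (2 + Real.pi / 2 * Real.exp 1))) * R :=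
    ⟨_, rfl⟩
  have hC : 0 ≤ C := by
    have h1 := hb w hw.le
    have h2 := (norm_nonneg _).trans h1
    by_contra hcon
    push Not at hcon
    have := mul_neg_of_neg_of_pos hcon (Real.exp_pos (-c * ‖w‖))
    linarith
  have hpi := Real.pi_pos
  have hM0 : 0 ≤ M := by
    rw [hM]
    positivity
  have key : ∀ u : ℝ, 0 < u → u < 1 → ‖ψ w‖ * (c * y) ≤ M * (Real.pi / 2) * u := by
    intro u hu0 hu1
    have h1 := ExpZero.main_est hPL hc hη hψ hb (g := 1 - u) (by linarith) (by linarith)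
      (s := w.re) hy0 hR1 hR.ge
    rw [hweq, ← hM] at h1
    have h2 := (ExpZero.cos_ge (g := 1 - u) (by linarith) (by linarith)).2
    rw [sub_sub_cancel] at h2
    calc ‖ψ w‖ * (c * y) ≤ M * Real.cos (Real.pi * (1 - u) / 2) := h1
      _ ≤ M * (Real.pi / 2 * u) := mul_le_mul_of_nonneg_left h2 hM0
      _ = _ := by ring
  have hlim : Tendsto (fun u : ℝ => M * (Real.pi / 2) * u) (𝓝[>] 0) (𝓝 (M * (Real.pi / 2) * 0)) :=
    ((tendsto_id.mono_left nhdsWithin_le_nhds).const_mul _)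
  rw [mul_zero] at hlim
  have h3 : ‖ψ w‖ * (c * y) ≤ 0 := by
    apply ge_of_tendsto hlim
    have h4 : ∀ᶠ u : ℝ in 𝓝[>] 0, u < 1 :=
      eventually_nhdsWithin_of_eventually_nhds (gt_mem_nhds one_pos)
    filter_upwards [h4, self_mem_nhdsWithin] with u hu1 hu0
    exact key u hu0 hu1
  have h4 : 0 < c * y := by positivity
  have h5 : ‖ψ w‖ ≤ 0 := by
    by_contra hcon
    push Not at hcon
    have := mul_pos hcon h4
    linarith
  exact norm_le_zero_iff.1 h5

end Pool.Agent.Work.MP_055a27_an.Thr
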