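import Pool.Agent.Work.MP_055a27_an.Thr.Stmts

open MeasureTheory Set Filter Topology Complex Metric
open scoped ENNReal NNReal

namespace Pool.Agent.Work.MP_055a27_an.Thr

namespace High

/-- elementary estimates for the norm of `w = z + τ i` -/
lemma norms {g b' x z τ : ℝ} (hg1 : g < 1) (hb' : 0 < b') (hτ : 1 ≤ τ)
    (hxz : |x - z| ≤ b' * τ) :
    (1 + |x|) ^ (1 - g) * ‖(z : ℂ) + τ * I‖ ^ (g - 1) ≤ (2 + b') ^ (1 - g) ∧
    (b' + 1) ^ (g - 1) * ((1 + |x|) + τ) ^ (g - 1) ≤ ‖(z : ℂ) + τ * I‖ ^ (g - 1) := by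
  set w : ℂ := (z : ℂ) + τ * I with hw
  have hre : w.re = z := by simp [hw]
  have him : w.im = τ := by simp [hw]
  have h1 : |z| ≤ ‖w‖ := by rw [← hre]; exact abs_re_le_norm w
  have h2 : τ ≤ ‖w‖ := by
    have := abs_im_le_norm w
    rw [him] at this
    exact (le_abs_self τ).trans this
  have h3 : ‖w‖ ≤ |z| + τ := by
    have := norm_add_le (z : ℂ) (τ * I)
    rw [norm_mul, Complex.norm_I, mul_one, Complex.norm_real, Complex.norm_real,
      Real.norm_eq_abs, Real.norm_eq_abs, abs_of_nonneg (by linarith : 0 ≤ τ)] at this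
    exact this
  have hwpos : 0 < ‖w‖ := by linarith
  have hx0 : 0 ≤ |x| := abs_nonneg x
  have h4 : |x| ≤ |z| + b' * τ := by
    have := abs_sub_abs_le_abs_sub x z
    linarith
  have h5 : |z| ≤ |x| + b' * τ := by
    have := abs_sub_abs_le_abs_sub z x
    rw [abs_sub_comm] at this
    linarith
  constructor
  · have h6 : 1 + |x| ≤ (2 + b') * ‖w‖ := by nlinarith
    have h7 : (1 + |x|) ^ (1 - g) ≤ ((2 + b') * ‖w‖) ^ (1 - g) :=
      Real.rpow_le_rpow (by linarith) h6 (by linarith)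
    rw [Real.mul_rpow (by linarith) hwpos.le] at h7
    have h8 : ‖w‖ ^ (1 - g) * ‖w‖ ^ (g - 1) = 1 := by
      rw [← Real.rpow_add hwpos]
      simp
    calc (1 + |x|) ^ (1 - g) * ‖w‖ ^ (g - 1)
        ≤ ((2 + b') ^ (1 - g) * ‖w‖ ^ (1 - g)) * ‖w‖ ^ (g - 1) := by gcongr
      _ = (2 + b') ^ (1 - g) := by rw [mul_assoc, h8, mul_one]
  · rw [← Real.mul_rpow (by linarith) (by linarith)]
    apply Real.rpow_le_rpow_of_nonpos hwpos _ (by linarith)
    nlinarith

end High

open High in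
theorem stHigh (hCone : StCone) (hKE : StKE) (hPois : StPois) (hMeas : StMeas) (hVert : StVert)
    (hDec : StDec) : StHigh := by
  intro g b b' p hg hg1 hb hb' hb'T hp
  obtain ⟨δ, hδ, hcone⟩ := hCone g b' hg hg1 hb' hb'T
  obtain ⟨C₁, hC₁, hke⟩ := hKE g b p hg hg1 hb hp
  obtain ⟨C₂, hpois⟩ := hPois (2 * b') (by linarith)
  set d : ℝ := δ * (b' + 1) ^ (g - 1) / p with hd
  have hdpos : 0 < d := by positivity
  obtain ⟨C₄, hdec⟩ := hDec g d hg hg1 hdpos
  set K : ℝ := 2 * C₁ * Real.exp (C₁ * (2 + b') ^ (1 - g) / (2 * p)) with hK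
  have hKpos : 0 < K := by positivity
  refine ⟨K.toNNReal * C₂ * C₄, ?_⟩
  intro f hf hvan x z y hxz hy
  set X : ℝ := 1 + |x| with hX
  have hX1 : 1 ≤ X := by have := abs_nonneg x; linarith
  set l : ℝ := X ^ (1 - g) with hl
  have hl1 : 1 ≤ l := Real.one_le_rpow hX1 (by linarith)
  have hy0 : 0 < y := by linarith
  set M := hlM (hh g b p f) x with hM
  have key : ∀ τ ∈ Ioi y, ENNReal.ofReal ‖dschw f (z + τ * I)‖ *
      ENNReal.ofReal (Real.exp (|x| ^ g / p)) ≤
      (ENNReal.ofReal (K / l) * (C₂ * M)) *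
        ENNReal.ofReal (Real.exp (-(d * τ * (X + τ) ^ (g - 1)))) := by
    intro τ hτ
    have hτy : y < τ := hτ
    have hτ0 : 0 < τ := by linarith
    have hxτ : |x - z| ≤ b' * τ := hxz.trans (by gcongr)
    obtain ⟨hn1, hn2⟩ := norms (g := g) hg1 hb' (by linarith : (1:ℝ) ≤ τ) hxτ
    have h1 := hke f hf z τ (l / 2) (by linarith) (by linarith)
    have h2 := hpois (hh g b p f) x z (τ - l / 2) (hMeas g b p f hg hf) (by linarith)
      (hxτ.trans (by nlinarith))
    have h3 := hcone x z τ hτ0 hxτ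
    set W : ℝ := ‖(z : ℂ) + τ * I‖ ^ (g - 1) with hW
    have hW0 : 0 ≤ W := by positivity
    have hexp : (C₁ * (l / 2) * W - cg g (z + τ * I)) / p + |x| ^ g / p ≤
        C₁ * (2 + b') ^ (1 - g) / (2 * p) + -(d * τ * (X + τ) ^ (g - 1)) := by
      have e1 : (C₁ * (l / 2) * W - cg g (z + τ * I)) / p + |x| ^ g / p ≤
          (C₁ * (l / 2) * W - δ * τ * W) / p := by
        rw [← add_div]
        gcongr
        linarith
      have e2 : (C₁ * (l / 2) * W - δ * τ * W) / p ≤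
          (C₁ / 2 * (2 + b') ^ (1 - g) - δ * τ * ((b' + 1) ^ (g - 1) * (X + τ) ^ (g - 1))) / p := by
        apply div_le_div_of_nonneg_right _ hp.le
        have a1 : C₁ * (l / 2) * W ≤ C₁ / 2 * (2 + b') ^ (1 - g) := by
          calc C₁ * (l / 2) * W = C₁ / 2 * (l * W) := by ring
            _ ≤ _ := by gcongr
        have a2 : δ * τ * ((b' + 1) ^ (g - 1) * (X + τ) ^ (g - 1)) ≤ δ * τ * W := by gcongr
        linarith
      refine e1.trans (e2.trans (le_of_eq ?_))
      rw [hd]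
      field_simp
      ring
    calc ENNReal.ofReal ‖dschw f (z + τ * I)‖ * ENNReal.ofReal (Real.exp (|x| ^ g / p))
        ≤ (ENNReal.ofReal (C₁ / (l / 2) *
            Real.exp ((C₁ * (l / 2) * W - cg g (z + τ * I)) / p)) * (C₂ * M)) *
            ENNReal.ofReal (Real.exp (|x| ^ g / p)) := by
          gcongr
          exact h1.trans (by gcongr)
      _ = ENNReal.ofReal (C₁ / (l / 2) *
            Real.exp ((C₁ * (l / 2) * W - cg g (z + τ * I)) / p + |x| ^ g / p)) * (C₂ * M) := by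
          rw [Real.exp_add, ← mul_assoc (C₁ / (l / 2)), ENNReal.ofReal_mul (p := C₁ / (l / 2) *
            Real.exp ((C₁ * (l / 2) * W - cg g (z + τ * I)) / p)) (by positivity)]
          ring
      _ ≤ ENNReal.ofReal (C₁ / (l / 2) *
            Real.exp (C₁ * (2 + b') ^ (1 - g) / (2 * p) + -(d * τ * (X + τ) ^ (g - 1)))) *
            (C₂ * M) := by
          gcongr
      _ = (ENNReal.ofReal (K / l) * (C₂ * M)) *
            ENNReal.ofReal (Real.exp (-(d * τ * (X + τ) ^ (g - 1)))) := by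
          have e : C₁ / (l / 2) *
            Real.exp (C₁ * (2 + b') ^ (1 - g) / (2 * p) + -(d * τ * (X + τ) ^ (g - 1))) =
              K / l * Real.exp (-(d * τ * (X + τ) ^ (g - 1))) := by
            rw [Real.exp_add, hK]
            field_simp
          rw [e, ENNReal.ofReal_mul (by positivity)]
          ring
  have hmeas : Measurable fun τ : ℝ =>
      ENNReal.ofReal (Real.exp (-(d * τ * (X + τ) ^ (g - 1)))) := by fun_prop
  calc ENNReal.ofReal (|poisson f z y| * Real.exp (|x| ^ g / p))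
      = ENNReal.ofReal |poisson f z y| * ENNReal.ofReal (Real.exp (|x| ^ g / p)) := by
        rw [ENNReal.ofReal_mul (abs_nonneg _)]
    _ ≤ (∫⁻ τ in Ioi y, ENNReal.ofReal ‖dschw f (z + τ * I)‖) *
          ENNReal.ofReal (Real.exp (|x| ^ g / p)) := by
        gcongr
        exact hVert f hf hvan z y hy0
    _ = ∫⁻ τ in Ioi y, ENNReal.ofReal ‖dschw f (z + τ * I)‖ *
          ENNReal.ofReal (Real.exp (|x| ^ g / p)) := by
        rw [lintegral_mul_const' _ _ ENNReal.ofReal_ne_top]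
    _ ≤ ∫⁻ τ in Ioi y, (ENNReal.ofReal (K / l) * (C₂ * M)) *
          ENNReal.ofReal (Real.exp (-(d * τ * (X + τ) ^ (g - 1)))) :=
        setLIntegral_mono' measurableSet_Ioi key
    _ ≤ ∫⁻ τ in Ioi (0 : ℝ), (ENNReal.ofReal (K / l) * (C₂ * M)) *
          ENNReal.ofReal (Real.exp (-(d * τ * (X + τ) ^ (g - 1)))) :=
        lintegral_mono_set (Ioi_subset_Ioi hy0.le)
    _ = (ENNReal.ofReal (K / l) * (C₂ * M)) * ∫⁻ τ in Ioi (0 : ℝ),
          ENNReal.ofReal (Real.exp (-(d * τ * (X + τ) ^ (g - 1)))) :=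
        lintegral_const_mul _ hmeas
    _ ≤ (ENNReal.ofReal (K / l) * (C₂ * M)) * (C₄ * ENNReal.ofReal l) := by
        gcongr
        exact hdec X hX1
    _ = (ENNReal.ofReal (K / l) * ENNReal.ofReal l) * (C₂ * C₄) * M := by ring
    _ = ((K.toNNReal * C₂ * C₄ : ℝ≥0) : ℝ≥0∞) * M := by
        rw [← ENNReal.ofReal_mul (by positivity), div_mul_cancel₀ K (by linarith : l ≠ 0)]
        simp only [ENNReal.coe_mul, ENNReal.ofReal]
        ring

end Pool.Agent.Work.MP_055a27_an.Thr
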