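import Pool.Agent.Work.MP_055a27_an.Thr.Stmts

/-!
# The Laplace type comparison
-/

open MeasureTheory Set Filter Topology Complex Metric
open scoped ENNReal NNReal

namespace Pool.Agent.Work.MP_055a27_an.Thr

namespace Lap

lemma lint_even (G : ℝ → ℝ≥0∞) : ∫⁻ x, G |x| = 2 * ∫⁻ x in Ioi (0:ℝ), G x := by
  have h1 : ∫⁻ x, G |x| = (∫⁻ x in Iic (0:ℝ), G |x|) + (∫⁻ x in Ioi (0:ℝ), G |x|) := by
    rw [← lintegral_add_compl _ (measurableSet_Iic (a := (0:ℝ))), compl_Iic]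
  have h2 : ∫⁻ x in Ioi (0:ℝ), G |x| = ∫⁻ x in Ioi (0:ℝ), G x := by
    apply setLIntegral_congr_fun measurableSet_Ioi
    intro x hx
    show G |x| = G x
    rw [abs_of_pos hx]
  have h3 : ∫⁻ x in Iic (0:ℝ), G |x| = ∫⁻ x in Ioi (0:ℝ), G x := by
    rw [← h2]
    have e : ∫⁻ x in Iic (0:ℝ), G |x| = ∫⁻ x in Iio (0:ℝ), G |x| :=
      setLIntegral_congr Iio_ae_eq_Iic.symm
    rw [e]
    have h4 := (Measure.measurePreserving_neg (volume : Measure ℝ)).setLIntegral_comp_preimage_emb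
      (MeasurableEquiv.neg ℝ).measurableEmbedding (fun x => G |x|) (Ioi 0)
    simp only [abs_neg] at h4
    rw [← h4]
    congr 2
    ext x
    simp
  rw [h1, h2, h3, two_mul]

lemma lint_scale {R : ℝ} (hR : 0 < R) (S : Set ℝ) (F : ℝ → ℝ≥0∞) :
    ∫⁻ x in S, F x = ENNReal.ofReal R * ∫⁻ u in (fun u => R * u) ⁻¹' S, F (R * u) := by
  have h := Real.smul_map_volume_mul_left hR.ne'
  have he : MeasurableEmbedding (fun u : ℝ => R * u) := measurableEmbedding_mulLeft₀ hR.ne'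
  have h1 : ∫⁻ x in S, F x = ∫⁻ x in S, F x ∂(ENNReal.ofReal |R| • Measure.map (fun u => R * u) volume) := by
    rw [h]
  rw [h1, Measure.restrict_smul, lintegral_smul_measure, he.restrict_map, he.lintegral_map,
    abs_of_pos hR, smul_eq_mul]

/-- the auxiliary concave function -/
noncomputable def psi (θ s : ℝ) : ℝ := s ^ θ - θ * s

lemma psi_lt {θ s : ℝ} (h0 : 0 < θ) (h1 : θ < 1) (hs : 0 ≤ s) (hs1 : s ≠ 1) : psi θ s < psi θ 1 := by
  have := _root_.rpow_one_add_lt_one_add_mul_self (s := s - 1) (by linarith) (by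
    intro h; apply hs1; linarith) h0 h1
  rw [add_sub_cancel] at this
  unfold psi
  rw [Real.one_rpow]
  linarith

lemma psi_concave {θ : ℝ} (h0 : 0 < θ) (h1 : θ < 1) : ConcaveOn ℝ (Ici 0) (psi θ) := by
  have e : psi θ = (fun s : ℝ => s ^ θ) + fun s => -θ * s := by
    funext s; simp [psi]; ring
  rw [e]
  apply (Real.concaveOn_rpow h0.le h1.le).add
  refine ⟨convex_Ici 0, ?_⟩
  intro x _ y _ a b _ _ _
  simp only [smul_eq_mul]
  apply le_of_eq
  ring

/-- between `s` and `1` the values are larger -/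
lemma psi_le {θ s a b : ℝ} (h0 : 0 < θ) (h1 : θ < 1) (hs : 0 ≤ s) (ha : 0 ≤ a) (hb : 0 ≤ b)
    (hab : a + b = 1) : psi θ s ≤ psi θ (a * s + b) := by
  have h2 := (psi_concave h0 h1).2 (mem_Ici.2 hs) (mem_Ici.2 (zero_le_one)) ha hb hab
  simp only [smul_eq_mul, mul_one] at h2
  have h3 : psi θ s ≤ psi θ 1 := by
    by_cases h : s = 1
    · rw [h]
    · exact (psi_lt h0 h1 hs h).le
  calc psi θ s = a * psi θ s + b * psi θ s := by rw [← add_mul, hab, one_mul]
    _ ≤ a * psi θ s + b * psi θ 1 := by gcongr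
    _ ≤ _ := h2

lemma psi_le_left {θ s s0 : ℝ} (h0 : 0 < θ) (h1 : θ < 1) (hs : 0 ≤ s) (h : s ≤ s0) (hs0 : s0 < 1) :
    psi θ s ≤ psi θ s0 := by
  have hd : 0 < 1 - s := by linarith
  have := psi_le (a := (1 - s0) / (1 - s)) (b := (s0 - s) / (1 - s)) h0 h1 hs
    (div_nonneg (by linarith) hd.le) (div_nonneg (by linarith) hd.le) (by field_simp; ring)
  convert this using 2
  field_simp
  ring

lemma psi_le_right {θ s s0 : ℝ} (h0 : 0 < θ) (h1 : θ < 1) (hs0 : 1 < s0) (h : s0 ≤ s) :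
    psi θ s ≤ psi θ s0 := by
  have hd : 0 < s - 1 := by linarith
  have := psi_le (a := (s0 - 1) / (s - 1)) (b := (s - s0) / (s - 1)) h0 h1 (by linarith)
    (div_nonneg (by linarith) hd.le) (div_nonneg (by linarith) hd.le) (by field_simp; ring)
  convert this using 2
  field_simp
  ring

lemma rpow_le_lin {θ : ℝ} (h0 : 0 < θ) (h1 : θ < 1) : ∃ C : ℝ, ∀ s : ℝ, 0 ≤ s →
    s ^ θ ≤ C + θ / 2 * s := by
  set l : ℝ := (1 / 2) ^ (1 / (1 - θ)) with hl
  have hl0 : 0 < l := by positivity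
  have h1' : 0 < 1 - θ := by linarith
  have hl1 : l ^ (1 - θ) = 1 / 2 := by
    rw [hl, ← Real.rpow_mul (by norm_num), one_div_mul_cancel h1'.ne', Real.rpow_one]
  refine ⟨l ^ (-θ), fun s hs => ?_⟩
  have h2 : (l * s) ^ θ ≤ 1 + θ * (l * s - 1) := by
    have := _root_.rpow_one_add_le_one_add_mul_self (s := l * s - 1) (by nlinarith [mul_nonneg hl0.le hs]) h0.le h1.le
    rwa [add_sub_cancel] at this
  have h3 : s ^ θ = l ^ (-θ) * (l * s) ^ θ := by
    rw [Real.mul_rpow hl0.le hs, ← mul_assoc, ← Real.rpow_add hl0]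
    simp
  have h4 : l ^ (-θ) * l = 1 / 2 := by
    rw [← hl1]
    nth_rewrite 2 [← Real.rpow_one l]
    rw [← Real.rpow_add hl0]
    congr 1; ring
  have h5 : 0 < l ^ (-θ) := by positivity
  calc s ^ θ = l ^ (-θ) * (l * s) ^ θ := h3
    _ ≤ l ^ (-θ) * (1 + θ * (l * s - 1)) := by gcongr
    _ = l ^ (-θ) - l ^ (-θ) * θ + θ * (l ^ (-θ) * l) * s := by ring
    _ = l ^ (-θ) - l ^ (-θ) * θ + θ / 2 * s := by rw [h4]; ring
    _ ≤ _ := by nlinarith [mul_pos h5 h0]

/-- the phase function -/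
noncomputable def phi (g g1 u : ℝ) : ℝ := u ^ g - g / g1 * u ^ g1

lemma phi_eq {g g1 u : ℝ} (hg1 : 0 < g1) (hu : 0 ≤ u) : phi g g1 u = psi (g / g1) (u ^ g1) := by
  unfold phi psi
  rw [← Real.rpow_mul hu, mul_div_cancel₀ _ hg1.ne']

lemma phi_gap {g g1 : ℝ} (h0 : 0 < g) (h1 : g < g1) : ∃ et : ℝ, 0 < et ∧
    ∀ u : ℝ, 0 < u → u ∉ Icc (1 / 2 : ℝ) 2 → phi g g1 u ≤ phi g g1 1 - et := by
  have hg1 : 0 < g1 := h0.trans h1
  have hθ0 : 0 < g / g1 := by positivity
  have hθ1 : g / g1 < 1 := (div_lt_one hg1).2 h1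
  set s1 : ℝ := (1 / 2) ^ g1 with hs1
  set s2 : ℝ := 2 ^ g1 with hs2
  have hs1' : s1 < 1 := Real.rpow_lt_one (by norm_num) (by norm_num) hg1
  have hs2' : 1 < s2 := Real.one_lt_rpow (by norm_num) hg1
  have hs10 : 0 ≤ s1 := by positivity
  have e1 := psi_lt hθ0 hθ1 hs10 hs1'.ne
  have e2 := psi_lt hθ0 hθ1 (by linarith) hs2'.ne'
  refine ⟨min (psi (g / g1) 1 - psi (g / g1) s1) (psi (g / g1) 1 - psi (g / g1) s2),
    lt_min (by linarith) (by linarith), ?_⟩
  intro u hu hmem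
  have e3 : phi g g1 1 = psi (g / g1) 1 := by rw [phi_eq hg1 zero_le_one, Real.one_rpow]
  rw [e3, phi_eq hg1 hu.le]
  by_cases hc : u < 1 / 2
  · have h3 : u ^ g1 ≤ s1 := Real.rpow_le_rpow hu.le hc.le hg1.le
    have h4 := psi_le_left hθ0 hθ1 (by positivity) h3 hs1'
    have h5 := min_le_left (psi (g / g1) 1 - psi (g / g1) s1) (psi (g / g1) 1 - psi (g / g1) s2)
    linarith
  · have hc2 : 2 < u := by
      by_contra hcon
      exact hmem ⟨not_lt.1 hc, not_lt.1 hcon⟩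
    have h3 : s2 ≤ u ^ g1 := Real.rpow_le_rpow (by norm_num) hc2.le hg1.le
    have h4 := psi_le_right hθ0 hθ1 hs2' h3
    have h5 := min_le_right (psi (g / g1) 1 - psi (g / g1) s1) (psi (g / g1) 1 - psi (g / g1) s2)
    linarith

lemma phi_cont {g g1 : ℝ} : ContinuousAt (phi g g1) 1 := by
  unfold phi
  apply ContinuousAt.sub
  · exact Real.continuousAt_rpow_const 1 g (Or.inl one_ne_zero)
  · exact (Real.continuousAt_rpow_const 1 g1 (Or.inl one_ne_zero)).const_mul _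

lemma lint_fin {g g1 : ℝ} (h0 : 0 < g) (h1 : g < g1) :
    ∫⁻ u in Ioi (0 : ℝ), ENNReal.ofReal (Real.exp (phi g g1 u)) ≠ ∞ := by
  have hg1 : 0 < g1 := h0.trans h1
  have hθ0 : 0 < g / g1 := by positivity
  have hθ1 : g / g1 < 1 := (div_lt_one hg1).2 h1
  obtain ⟨C, hC⟩ := rpow_le_lin hθ0 hθ1
  have hi : IntegrableOn (fun x : ℝ => Real.exp (-(g / g1 / 2) * x ^ g1)) (Ioi 0) := by
    have h2 := integral_exp_neg_mul_rpow hg1 (b := g / g1 / 2) (by positivity)
    by_contra hcon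
    rw [integral_undef hcon] at h2
    have : 0 < (g / g1 / 2) ^ (-1 / g1) * Real.Gamma (1 / g1 + 1) := by
      have := Real.Gamma_pos_of_pos (s := 1 / g1 + 1) (by positivity)
      positivity
    linarith
  have hi2 := hi.const_mul (Real.exp C)
  have hlt := hi2.lintegral_lt_top
  apply ne_of_lt
  refine lt_of_le_of_lt ?_ hlt
  apply setLIntegral_mono' measurableSet_Ioi
  intro u hu
  apply ENNReal.ofReal_le_ofReal
  rw [← Real.exp_add]
  apply Real.exp_le_exp.2
  have hu0 : (0 : ℝ) < u := hu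
  rw [phi_eq hg1 hu0.le]
  unfold psi
  have := hC (u ^ g1) (by positivity)
  linarith

lemma half {g g1 : ℝ} (h0 : 0 < g) (h1 : g < g1) : ∃ M0 : ℝ, ∀ M : ℝ, M0 ≤ M →
    ∫⁻ u in Ioi (0 : ℝ), ENNReal.ofReal (Real.exp (M * phi g g1 u)) ≤
      2 * ∫⁻ u in Icc (1 / 2 : ℝ) 2, ENNReal.ofReal (Real.exp (M * phi g g1 u)) := by
  obtain ⟨et, het, hgap⟩ := phi_gap h0 h1
  set K : ℝ≥0∞ := ∫⁻ u in Ioi (0 : ℝ), ENNReal.ofReal (Real.exp (phi g g1 u)) with hK
  have hKf : K ≠ ∞ := lint_fin h0 h1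
  set k : ℝ := K.toReal with hk
  have hk0 : 0 ≤ k := ENNReal.toReal_nonneg
  have hKk : K = ENNReal.ofReal k := (ENNReal.ofReal_toReal hKf).symm
  set c : ℝ := phi g g1 1 with hc
  obtain ⟨d, hd, hcont⟩ := Metric.continuousAt_iff.1 (phi_cont (g := g) (g1 := g1)) (et / 2) (by positivity)
  set r : ℝ := min (d / 2) (1 / 2) with hr
  have hr0 : 0 < r := by positivity
  have hrd : r < d := lt_of_le_of_lt (min_le_left _ _) (by linarith)
  have hr2 : r ≤ 1 / 2 := min_le_right _ _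
  refine ⟨max 1 (2 / et * (k * Real.exp (-(c - et)) / r)), ?_⟩
  intro M hM
  have hM1 : 1 ≤ M := (le_max_left _ _).trans hM
  have hM2 : 2 / et * (k * Real.exp (-(c - et)) / r) ≤ M := (le_max_right _ _).trans hM
  have hin : ENNReal.ofReal (Real.exp (M * (c - et / 2)) * r) ≤
      ∫⁻ u in Icc (1 / 2 : ℝ) 2, ENNReal.ofReal (Real.exp (M * phi g g1 u)) := by
    calc ENNReal.ofReal (Real.exp (M * (c - et / 2)) * r)
        = ∫⁻ u in Icc (1 : ℝ) (1 + r), ENNReal.ofReal (Real.exp (M * (c - et / 2))) := by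
          rw [setLIntegral_const, Real.volume_Icc, add_sub_cancel_left,
            ← ENNReal.ofReal_mul (Real.exp_pos _).le]
      _ ≤ ∫⁻ u in Icc (1 : ℝ) (1 + r), ENNReal.ofReal (Real.exp (M * phi g g1 u)) := by
          apply setLIntegral_mono' measurableSet_Icc
          intro u hu
          apply ENNReal.ofReal_le_ofReal
          apply Real.exp_le_exp.2
          have h2 : dist u 1 < d := by
            rw [Real.dist_eq, abs_of_nonneg (by linarith [hu.1])]
            linarith [hu.2]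
          have h3 := hcont h2
          rw [Real.dist_eq] at h3
          have h4 := (abs_lt.1 h3).1
          have : c - et / 2 ≤ phi g g1 u := by linarith
          nlinarith
      _ ≤ _ := by
          apply lintegral_mono_set
          apply Icc_subset_Icc (by norm_num) (by linarith)
  have hout : ∫⁻ u in Ioi (0 : ℝ) \ Icc (1 / 2 : ℝ) 2, ENNReal.ofReal (Real.exp (M * phi g g1 u)) ≤
      ENNReal.ofReal (Real.exp ((M - 1) * (c - et)) * k) := by
    calc ∫⁻ u in Ioi (0 : ℝ) \ Icc (1 / 2 : ℝ) 2, ENNReal.ofReal (Real.exp (M * phi g g1 u))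
        ≤ ∫⁻ u in Ioi (0 : ℝ) \ Icc (1 / 2 : ℝ) 2, ENNReal.ofReal (Real.exp ((M - 1) * (c - et))) *
            ENNReal.ofReal (Real.exp (phi g g1 u)) := by
          apply setLIntegral_mono' (measurableSet_Ioi.diff measurableSet_Icc)
          intro u hu
          rw [← ENNReal.ofReal_mul (Real.exp_pos _).le, ← Real.exp_add]
          apply ENNReal.ofReal_le_ofReal
          apply Real.exp_le_exp.2
          have h2 := hgap u hu.1 hu.2
          have h3 : (M - 1) * phi g g1 u ≤ (M - 1) * (c - et) :=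
            mul_le_mul_of_nonneg_left h2 (by linarith)
          linarith
      _ ≤ ∫⁻ u in Ioi (0 : ℝ), ENNReal.ofReal (Real.exp ((M - 1) * (c - et))) *
            ENNReal.ofReal (Real.exp (phi g g1 u)) := lintegral_mono_set sdiff_subset
      _ = ENNReal.ofReal (Real.exp ((M - 1) * (c - et)) * k) := by
          rw [lintegral_const_mul' _ _ ENNReal.ofReal_ne_top, ← hK, hKk,
            ← ENNReal.ofReal_mul (Real.exp_pos _).le]
  have hcmp : Real.exp ((M - 1) * (c - et)) * k ≤ Real.exp (M * (c - et / 2)) * r := by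
    have h2 : Real.exp ((M - 1) * (c - et)) = Real.exp (M * (c - et / 2)) * Real.exp (-(c - et)) *
        Real.exp (-(M * et / 2)) := by
      rw [← Real.exp_add, ← Real.exp_add]
      congr 1; ring
    have h3 : k * Real.exp (-(c - et)) / r ≤ M * et / 2 := by
      have : 2 / et * (k * Real.exp (-(c - et)) / r) * (et / 2) ≤ M * (et / 2) :=
        mul_le_mul_of_nonneg_right hM2 (by positivity)
      calc k * Real.exp (-(c - et)) / r = 2 / et * (k * Real.exp (-(c - et)) / r) * (et / 2) := by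
            field_simp
        _ ≤ M * (et / 2) := this
        _ = _ := by ring
    have h4 : M * et / 2 ≤ Real.exp (M * et / 2) := by
      linarith [Real.add_one_le_exp (M * et / 2)]
    have h5 : k * Real.exp (-(c - et)) ≤ Real.exp (M * et / 2) * r :=
      (div_le_iff₀ hr0).1 (h3.trans h4)
    have h6 : Real.exp (M * et / 2) * Real.exp (-(M * et / 2)) = 1 := by
      rw [← Real.exp_add]; simp
    calc Real.exp ((M - 1) * (c - et)) * k
        = Real.exp (M * (c - et / 2)) * Real.exp (-(M * et / 2)) * (k * Real.exp (-(c - et))) := by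
          rw [h2]; ring
      _ ≤ Real.exp (M * (c - et / 2)) * Real.exp (-(M * et / 2)) * (Real.exp (M * et / 2) * r) := by
          gcongr
      _ = Real.exp (M * (c - et / 2)) * r * (Real.exp (M * et / 2) * Real.exp (-(M * et / 2))) := by ring
      _ = _ := by rw [h6, mul_one]
  have hsub : Icc (1 / 2 : ℝ) 2 ⊆ Ioi 0 := by
    intro u hu
    have := hu.1
    show (0 : ℝ) < u
    linarith
  have hun : Ioi (0 : ℝ) = Icc (1 / 2 : ℝ) 2 ∪ (Ioi (0 : ℝ) \ Icc (1 / 2 : ℝ) 2) :=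
    (union_sdiff_cancel hsub).symm
  calc ∫⁻ u in Ioi (0 : ℝ), ENNReal.ofReal (Real.exp (M * phi g g1 u))
      = ∫⁻ u in Icc (1 / 2 : ℝ) 2 ∪ (Ioi (0 : ℝ) \ Icc (1 / 2 : ℝ) 2),
          ENNReal.ofReal (Real.exp (M * phi g g1 u)) := by rw [← hun]
    _ ≤ (∫⁻ u in Icc (1 / 2 : ℝ) 2, ENNReal.ofReal (Real.exp (M * phi g g1 u))) +
        ∫⁻ u in Ioi (0 : ℝ) \ Icc (1 / 2 : ℝ) 2, ENNReal.ofReal (Real.exp (M * phi g g1 u)) :=
        lintegral_union_le _ _ _
    _ ≤ (∫⁻ u in Icc (1 / 2 : ℝ) 2, ENNReal.ofReal (Real.exp (M * phi g g1 u))) +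
        ∫⁻ u in Icc (1 / 2 : ℝ) 2, ENNReal.ofReal (Real.exp (M * phi g g1 u)) := by
        exact add_le_add le_rfl (hout.trans ((ENNReal.ofReal_le_ofReal hcmp).trans hin))
    _ = _ := (two_mul _).symm

end Lap

open Lap in
theorem stLap : StLap := by
  intro g g1 h0 h1 _
  have hg1 : 0 < g1 := h0.trans h1
  obtain ⟨M0, hM0⟩ := half h0 h1
  refine ⟨max 1 ((max M0 1) ^ (1 / g)), le_max_left _ _, ?_⟩
  intro R hR
  have hR1 : 1 ≤ R := (le_max_left _ _).trans hR
  have hR0 : 0 < R := by linarith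
  have hM : M0 ≤ R ^ g := by
    have h2 : (max M0 1) ^ (1 / g) ≤ R := (le_max_right _ _).trans hR
    have h3 : ((max M0 1) ^ (1 / g)) ^ g ≤ R ^ g :=
      Real.rpow_le_rpow (by positivity) h2 h0.le
    rw [← Real.rpow_mul (by positivity), one_div_mul_cancel h0.ne', Real.rpow_one] at h3
    exact (le_max_left _ _).trans h3
  have key := hM0 (R ^ g) hM
  -- scaling of the exponent
  have hsc : ∀ u : ℝ, 0 ≤ u → (R * u) ^ g - g / g1 * R ^ (g - g1) * (R * u) ^ g1 =
      R ^ g * phi g g1 u := by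
    intro u hu
    rw [Real.mul_rpow hR0.le hu, Real.mul_rpow hR0.le hu]
    have : R ^ (g - g1) * R ^ g1 = R ^ g := by
      rw [← Real.rpow_add hR0]; congr 1; ring
    unfold phi
    calc R ^ g * u ^ g - g / g1 * R ^ (g - g1) * (R ^ g1 * u ^ g1)
        = R ^ g * u ^ g - g / g1 * (R ^ (g - g1) * R ^ g1) * u ^ g1 := by ring
      _ = _ := by rw [this]; ring
  have e1 : ∫⁻ x : ℝ, ENNReal.ofReal (Real.exp (|x| ^ g - g / g1 * R ^ (g - g1) * |x| ^ g1)) =
      2 * (ENNReal.ofReal R * ∫⁻ u in Ioi (0 : ℝ), ENNReal.ofReal (Real.exp (R ^ g * phi g g1 u))) := by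
    rw [lint_even (fun x => ENNReal.ofReal (Real.exp (x ^ g - g / g1 * R ^ (g - g1) * x ^ g1))),
      lint_scale hR0]
    congr 2
    have : (fun u => R * u) ⁻¹' Ioi (0 : ℝ) = Ioi 0 := by
      ext u
      simp [hR0]
    rw [this]
    apply setLIntegral_congr_fun measurableSet_Ioi
    intro u hu
    show ENNReal.ofReal (Real.exp ((R * u) ^ g - g / g1 * R ^ (g - g1) * (R * u) ^ g1)) = _
    rw [hsc u (le_of_lt hu)]
  have e2 : ∫⁻ x in Icc (R / 2) (2 * R),
      ENNReal.ofReal (Real.exp (x ^ g - g / g1 * R ^ (g - g1) * x ^ g1)) =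
      ENNReal.ofReal R * ∫⁻ u in Icc (1 / 2 : ℝ) 2, ENNReal.ofReal (Real.exp (R ^ g * phi g g1 u)) := by
    rw [lint_scale hR0]
    congr 1
    have : (fun u => R * u) ⁻¹' Icc (R / 2) (2 * R) = Icc (1 / 2) 2 := by
      ext u
      simp only [mem_preimage, mem_Icc]
      constructor
      · rintro ⟨h2, h3⟩
        constructor <;> nlinarith
      · rintro ⟨h2, h3⟩
        constructor <;> nlinarith
    rw [this]
    apply setLIntegral_congr_fun measurableSet_Icc
    intro u hu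
    show ENNReal.ofReal (Real.exp ((R * u) ^ g - g / g1 * R ^ (g - g1) * (R * u) ^ g1)) = _
    rw [hsc u (by linarith [hu.1])]
  rw [e1, e2]
  calc 2 * (ENNReal.ofReal R * ∫⁻ u in Ioi (0 : ℝ), ENNReal.ofReal (Real.exp (R ^ g * phi g g1 u)))
      ≤ 2 * (ENNReal.ofReal R * (2 * ∫⁻ u in Icc (1 / 2 : ℝ) 2,
          ENNReal.ofReal (Real.exp (R ^ g * phi g g1 u)))) := by gcongr
    _ = _ := by ring

end Pool.Agent.Work.MP_055a27_an.Thr
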