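import Pool.Agent.Work.MP_055a27_an.Thr.Stmts

/-!
# The weights `exp (|x| ^ g)`: upper bound for `cg` above a boundary point
-/

open MeasureTheory Set Filter Topology Complex Metric
open scoped ENNReal NNReal

namespace Pool.Agent.Work.MP_055a27_an.Thr

namespace Loss

lemma cos_le {g φ : ℝ} (h0 : 0 < g) (h1 : -(Real.pi / 2) < φ) (h2 : φ < Real.pi / 2) :
    Real.cos (g * φ) ≤ Real.cos (Real.pi * g / 2) + g * (Real.pi / 2) * Real.cos φ := by
  have hle : |φ| ≤ Real.pi / 2 := (abs_lt.2 ⟨h1, h2⟩).le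
  have e1 : Real.cos (g * φ) = Real.cos (g * |φ|) := by
    rw [← Real.cos_abs (g * φ), abs_mul, abs_of_pos h0]
  have e2 : Real.cos (g * |φ|) - Real.cos (Real.pi * g / 2) ≤ g * (Real.pi / 2 - |φ|) := by
    have h3 := Real.abs_cos_sub_cos_le (g * |φ|) (Real.pi * g / 2)
    have h4 : |g * |φ| - Real.pi * g / 2| = g * (Real.pi / 2 - |φ|) := by
      rw [abs_sub_comm, abs_of_nonneg]
      · ring
      · nlinarith
    rw [h4] at h3
    exact (le_abs_self _).trans h3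
  have e3 : Real.pi / 2 - |φ| ≤ Real.pi / 2 * Real.cos φ := by
    have h3 := Real.mul_le_sin (x := Real.pi / 2 - |φ|) (by linarith)
      (by have := abs_nonneg φ; linarith)
    rw [Real.sin_pi_div_two_sub, Real.cos_abs] at h3
    have hpi := Real.pi_pos
    have h4 : Real.pi / 2 * (2 / Real.pi * (Real.pi / 2 - |φ|)) = Real.pi / 2 - |φ| := by
      field_simp
    calc Real.pi / 2 - |φ| = Real.pi / 2 * (2 / Real.pi * (Real.pi / 2 - |φ|)) := h4.symm
      _ ≤ Real.pi / 2 * Real.cos φ := mul_le_mul_of_nonneg_left h3 (by positivity)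
  have e4 : g * (Real.pi / 2 - |φ|) ≤ g * (Real.pi / 2 * Real.cos φ) :=
    mul_le_mul_of_nonneg_left e3 h0.le
  rw [e1]
  linarith

lemma pow_sub {g r t a : ℝ} (h1 : g < 1) (hr : 0 < r) (ht0 : 0 ≤ t) (htr : t ≤ r)
    (hra : r ≤ t + a) : r ^ g ≤ t ^ g + a * r ^ (g - 1) := by
  have hq0 : 0 ≤ t / r := by positivity
  have hq1 : t / r ≤ 1 := (div_le_one hr).2 htr
  have e1 : t / r ≤ (t / r) ^ g := Real.self_le_rpow_of_le_one hq0 hq1 h1.le
  have e2 : t ^ g = r ^ g * (t / r) ^ g := by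
    rw [← Real.mul_rpow hr.le hq0]
    congr 1
    field_simp
  have e3 : r ^ (g - 1) = r ^ g / r := Real.rpow_sub_one hr.ne' g
  have hpos : 0 < r ^ g := Real.rpow_pos_of_pos hr g
  have e4 : r ^ g * (1 - t / r) ≤ a * (r ^ g / r) := by
    have h5 : a * (r ^ g / r) = r ^ g * (a / r) := by ring
    rw [h5]
    apply mul_le_mul_of_nonneg_left _ hpos.le
    rw [sub_le_iff_le_add, ← add_div, le_div_iff₀ hr]
    linarith
  have e5 : r ^ g * (t / r) ≤ r ^ g * (t / r) ^ g := mul_le_mul_of_nonneg_left e1 hpos.le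
  rw [e2, e3]
  linarith

end Loss

open Loss in
theorem stLoss : StLoss := by
  intro g h0 h1
  have hc := cos_half_pos h0 h1
  have hpi := Real.pi_pos
  refine ⟨1 + g * (Real.pi / 2) / Real.cos (Real.pi * g / 2), by positivity, ?_⟩
  intro x a ha
  obtain ⟨w, hwdef⟩ : ∃ w : ℂ, w = (x : ℂ) + a * I := ⟨_, rfl⟩
  have him : w.im = a := by rw [hwdef]; simp
  have hre : w.re = x := by rw [hwdef]; simp
  rw [← hwdef]
  have hw : 0 < w.im := by rw [him]; exact ha
  obtain ⟨φ, hφ1, hφ2, hcos, hsin, hpw⟩ := polar hw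
  have hr : 0 < ‖w‖ := norm_pos_iff.2 (ne_zero_of_im hw)
  have hxr : |x| ≤ ‖w‖ := by
    have := Complex.abs_re_le_norm w
    rwa [hre] at this
  have hrx : ‖w‖ ≤ |x| + a := by
    rw [hwdef]
    refine (norm_add_le _ _).trans ?_
    rw [Complex.norm_real, norm_mul, Complex.norm_real, Complex.norm_I, mul_one,
      Real.norm_eq_abs, Real.norm_eq_abs, abs_of_pos ha]
  have e1 := pow_sub h1 hr (abs_nonneg x) hxr hrx
  have e2 := cos_le h0 hφ1 hφ2
  have e3 : ‖w‖ ^ (g - 1) = ‖w‖ ^ g / ‖w‖ := Real.rpow_sub_one hr.ne' g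
  have hpos : 0 < ‖w‖ ^ g := Real.rpow_pos_of_pos hr g
  have hac : Real.cos φ = a / ‖w‖ := by
    rw [← him, hcos]
    field_simp
  unfold cg
  rw [(hpw g).1]
  have e4 : ‖w‖ ^ g * Real.cos (g * φ) / Real.cos (Real.pi * g / 2) ≤
      ‖w‖ ^ g + g * (Real.pi / 2) / Real.cos (Real.pi * g / 2) * (a * ‖w‖ ^ (g - 1)) := by
    rw [div_le_iff₀ hc]
    have e5 := mul_le_mul_of_nonneg_left e2 hpos.le
    refine e5.trans (le_of_eq ?_)
    rw [hac, e3]
    field_simp
  calc _ ≤ ‖w‖ ^ g + g * (Real.pi / 2) / Real.cos (Real.pi * g / 2) * (a * ‖w‖ ^ (g - 1)) := e4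
    _ ≤ (|x| ^ g + a * ‖w‖ ^ (g - 1)) +
        g * (Real.pi / 2) / Real.cos (Real.pi * g / 2) * (a * ‖w‖ ^ (g - 1)) := by linarith
    _ = _ := by ring

end Pool.Agent.Work.MP_055a27_an.Thr
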