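import Pool.Agent.Work.MP_055a27_an.Thr.Stmts

/-!
# Low points of the cone
-/

open MeasureTheory Set Filter Topology Complex Metric
open scoped ENNReal NNReal

namespace Pool.Agent.Work.MP_055a27_an.Thr

namespace Low

lemma pow_comp {g B x t y : ℝ} (hg : 0 < g) (hg1 : g < 1) (hB : 0 < B)
    (hxt : |x - t| ≤ B * y) (hy : y ≤ (1 + |x|) ^ (1 - g)) :
    |x| ^ g ≤ |t| ^ g + (1 + 2 * B) := by
  have ht0 : 0 ≤ |t| ^ g := by positivity
  rcases le_or_gt |x| 1 with h1 | h1
  · have : |x| ^ g ≤ 1 := Real.rpow_le_one (abs_nonneg _) h1 hg.le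
    linarith
  rcases le_or_gt |x| |t| with h2 | h2
  · have : |x| ^ g ≤ |t| ^ g := Real.rpow_le_rpow (abs_nonneg _) h2 hg.le
    linarith
  have hx0 : 0 < |x| := by linarith
  have hxg : 0 < |x| ^ g := by positivity
  have hr0 : 0 ≤ |t| / |x| := by positivity
  have hr1 : |t| / |x| ≤ 1 := (div_le_one hx0).2 h2.le
  have h3 : |t| / |x| ≤ (|t| / |x|) ^ g := by
    have := Real.rpow_le_rpow_of_exponent_ge' hr0 hr1 hg.le hg1.le
    rwa [Real.rpow_one] at this
  have h4 : (|t| / |x|) ^ g * |x| ^ g = |t| ^ g := by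
    rw [← Real.mul_rpow hr0 hx0.le, div_mul_cancel₀ _ hx0.ne']
  have h5 : |t| / |x| * |x| ^ g ≤ |t| ^ g := by
    rw [← h4]; gcongr
  have h6 : y ≤ 2 * |x| ^ (1 - g) := by
    refine hy.trans ?_
    calc (1 + |x|) ^ (1 - g) ≤ (2 * |x|) ^ (1 - g) :=
          Real.rpow_le_rpow (by linarith) (by linarith) (by linarith)
      _ = 2 ^ (1 - g) * |x| ^ (1 - g) := Real.mul_rpow (by norm_num) hx0.le
      _ ≤ 2 ^ (1 : ℝ) * |x| ^ (1 - g) := by
          gcongr
          · norm_num
          · linarith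
      _ = 2 * |x| ^ (1 - g) := by rw [Real.rpow_one]
  have h7 : |x| - |t| ≤ B * y := (abs_sub_abs_le_abs_sub x t).trans hxt
  have h8 : |x| ^ (1 - g) * |x| ^ g = |x| := by
    rw [← Real.rpow_add hx0]; simp
  have h9 : (|x| - |t|) / |x| * |x| ^ g ≤ 2 * B := by
    calc (|x| - |t|) / |x| * |x| ^ g ≤ (B * (2 * |x| ^ (1 - g))) / |x| * |x| ^ g := by
          gcongr
          exact h7.trans (by gcongr)
      _ = 2 * B * (|x| ^ (1 - g) * |x| ^ g) / |x| := by ring
      _ = 2 * B := by rw [h8]; field_simp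
  have h10 : (|x| - |t|) / |x| * |x| ^ g = |x| ^ g - |t| / |x| * |x| ^ g := by
    field_simp
  linarith

lemma int_le (h : ℝ → ℝ≥0∞) {x r : ℝ} (hr : 0 < r) :
    ∫⁻ t in Icc (x - r) (x + r), h t ≤ ENNReal.ofReal (2 * r) * hlM h x := by
  have h1 : (∫⁻ t in Icc (x - r) (x + r), h t) / ENNReal.ofReal (2 * r) ≤ hlM h x := by
    unfold hlM
    exact le_iSup_of_le r (le_iSup_of_le hr le_rfl)
  have h0 : ENNReal.ofReal (2 * r) ≠ 0 := by
    rw [Ne, ENNReal.ofReal_eq_zero, not_le]; positivity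
  rw [mul_comm]
  exact (ENNReal.div_le_iff h0 ENNReal.ofReal_ne_top).1 h1

end Low

open Low in
theorem stLow : StLow := by
  intro g b b' p hg hg1 hb hb' hp
  set K : ℝ := 1 + 2 * (b + b') with hK
  refine ⟨(Real.exp (K / p) * ((b + b') / b)).toNNReal, ?_⟩
  intro f hf x z y hy hxz hyx
  set a : ℝ≥0∞ := ENNReal.ofReal (|poisson f z y| * Real.exp (|x| ^ g / p)) with ha
  set r : ℝ := (b + b') * y with hr
  have hr0 : 0 < r := by positivity
  have h1 : ∀ t ∈ Icc (z - b * y) (z + b * y),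
      a ≤ ENNReal.ofReal (Real.exp (K / p)) * hh g b p f t := by
    intro t ht
    have htz : |t - z| ≤ b * y := by
      rw [abs_le]; constructor <;> linarith [ht.1, ht.2]
    have hxt : |x - t| ≤ (b + b') * y := by
      have e1 : x - t = (x - z) + (z - t) := by ring
      have e2 := abs_add_le (x - z) (z - t)
      rw [abs_sub_comm z t] at e2
      rw [e1]
      linarith
    have h2 := pow_comp hg hg1 (by positivity : 0 < b + b') hxt hyx
    have h3 : Real.exp (|x| ^ g / p) ≤ Real.exp (K / p) * Real.exp (|t| ^ g / p) := by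
      rw [← Real.exp_add]
      apply Real.exp_le_exp.2
      rw [← add_div]
      gcongr
      linarith
    unfold hh
    rw [ha, ENNReal.ofReal_mul (abs_nonneg _)]
    calc ENNReal.ofReal |poisson f z y| * ENNReal.ofReal (Real.exp (|x| ^ g / p))
        ≤ ntMax b f t * ENNReal.ofReal (Real.exp (K / p) * Real.exp (|t| ^ g / p)) :=
          mul_le_mul' (le_ntMax hy htz) (ENNReal.ofReal_le_ofReal h3)
      _ = _ := by
          rw [ENNReal.ofReal_mul (Real.exp_pos _).le]
          ring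
  have hJ : ENNReal.ofReal (2 * (b * y)) ≠ 0 := by
    rw [Ne, ENNReal.ofReal_eq_zero, not_le]; positivity
  have h4 : a * ENNReal.ofReal (2 * (b * y)) ≤
      ENNReal.ofReal (Real.exp (K / p)) * (ENNReal.ofReal (2 * r) * hlM (hh g b p f) x) := by
    calc a * ENNReal.ofReal (2 * (b * y)) = ∫⁻ _ in Icc (z - b * y) (z + b * y), a := by
          rw [setLIntegral_const, Real.volume_Icc]
          congr 2
          ring
      _ ≤ ∫⁻ t in Icc (z - b * y) (z + b * y),
            ENNReal.ofReal (Real.exp (K / p)) * hh g b p f t :=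
          setLIntegral_mono' measurableSet_Icc h1
      _ = ENNReal.ofReal (Real.exp (K / p)) *
            ∫⁻ t in Icc (z - b * y) (z + b * y), hh g b p f t :=
          lintegral_const_mul' _ _ ENNReal.ofReal_ne_top
      _ ≤ ENNReal.ofReal (Real.exp (K / p)) * ∫⁻ t in Icc (x - r) (x + r), hh g b p f t := by
          refine mul_le_mul' le_rfl (lintegral_mono_set (Icc_subset_Icc ?_ ?_))
          · have := (abs_le.1 hxz).2
            rw [hr]; linarith
          · have := (abs_le.1 hxz).1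
            rw [hr]; linarith
      _ ≤ _ := by
          gcongr
          exact int_le _ hr0
  have h5 : a ≤ (ENNReal.ofReal (Real.exp (K / p)) *
      (ENNReal.ofReal (2 * r) * hlM (hh g b p f) x)) / ENNReal.ofReal (2 * (b * y)) :=
    (ENNReal.le_div_iff_mul_le (Or.inl hJ) (Or.inl ENNReal.ofReal_ne_top)).2 h4
  refine h5.trans (le_of_eq ?_)
  have h6 : (((Real.exp (K / p) * ((b + b') / b)).toNNReal : ℝ≥0) : ℝ≥0∞) =
      ENNReal.ofReal (Real.exp (K / p)) * ENNReal.ofReal (2 * r) /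
        ENNReal.ofReal (2 * (b * y)) := by
    rw [← ENNReal.ofReal_mul (Real.exp_pos _).le, ← ENNReal.ofReal_div_of_pos (by positivity)]
    change ENNReal.ofReal _ = ENNReal.ofReal _
    congr 1
    rw [hr]
    field_simp
  rw [h6, ENNReal.div_eq_inv_mul, ENNReal.div_eq_inv_mul]
  ring

end Pool.Agent.Work.MP_055a27_an.Thr
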