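import Pool.Agent.Work.MP_055a27_an.Thr.Stmts

/-!
# Item Meas: measurability of hh
-/

open MeasureTheory Set Filter Topology Complex Metric
open scoped ENNReal NNReal

namespace Pool.Agent.Work.MP_055a27_an.Thr

theorem stMeas : StMeas := by
  intro g b p f hg hf
  have h1 : Measurable (fun t : ℝ => ntMax b f t) := by
    have e2 : ∀ x, ntMax b f x = NT (schw f) b x := fun x => ntMax_eq hf
    simp_rw [e2]
    exact measurable_NT (schw_diff hf) b
  have h2 : Measurable (fun t : ℝ => |t| ^ g) := by
    fun_prop
  have h3 : Measurable (fun t : ℝ => ENNReal.ofReal (Real.exp (|t| ^ g / p))) :=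
    ENNReal.measurable_ofReal.comp (Real.measurable_exp.comp (h2.div_const p))
  exact h1.mul h3

end Pool.Agent.Work.MP_055a27_an.Thr
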