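import Pool.Agent.Work.MP_055a27_an.Thr.Stmts

/-!
# The weights `exp (|x| ^ g)`, item Neg: the negative part of the theorem
-/

open MeasureTheory Set Filter Topology Complex Metric
open scoped ENNReal NNReal

namespace Pool.Agent.Work.MP_055a27_an.Thr

namespace Neg

lemma T_g1 (a : ℝ) : T (2 / Real.pi * Real.arctan a) = a := by
  unfold T
  have h : Real.pi * (2 / Real.pi * Real.arctan a) / 2 = Real.arctan a := by
    field_simp
  rw [h, Real.tan_arctan]

lemma g1_pos {a : ℝ} (ha : 0 < a) : 0 < 2 / Real.pi * Real.arctan a :=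
  mul_pos (by positivity) (Real.arctan_pos.2 ha)

lemma g1_lt (a : ℝ) : 2 / Real.pi * Real.arctan a < 1 := by
  have h := Real.arctan_lt_pi_div_two a
  have hp := Real.pi_pos
  calc 2 / Real.pi * Real.arctan a < 2 / Real.pi * (Real.pi / 2) :=
        mul_lt_mul_of_pos_left h (by positivity)
    _ = 1 := by field_simp

lemma g_lt {g a : ℝ} (h0 : 0 < g) (h1 : g < 1) (h : T g < a) :
    g < 2 / Real.pi * Real.arctan a := by
  have hp := Real.pi_pos
  have e1 : Real.arctan (T g) = Real.pi * g / 2 := by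
    unfold T
    exact Real.arctan_tan (by nlinarith) (by nlinarith)
  have e2 : Real.arctan (T g) < Real.arctan a := Real.arctan_strictMono h
  rw [e1] at e2
  calc g = 2 / Real.pi * (Real.pi * g / 2) := by field_simp
    _ < 2 / Real.pi * Real.arctan a := mul_lt_mul_of_pos_left e2 (by positivity)

lemma exp_rpow (A p y : ℝ) (hp : 0 < p) :
    (Real.exp (-(A / p) * y)) ^ p = Real.exp (-(A * y)) := by
  rw [← Real.exp_mul]
  congr 1
  field_simp

/-- the main inequality -/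
lemma core (hTest : StTest) (hUp : StTestUp) (hLap : StLap) {g lam b p c e : ℝ} {C : ℝ≥0}
    (hg0 : 0 < g) (hg1 : g < 1) (hlam : 0 < lam) (hb : 0 < b) (hp : 0 < p)
    (hmax : max b (T g) ≤ lam) (hc : 0 < c) (he0 : 0 < e) (he1 : e ≤ 1)
    (hC : ∀ f : ℝ → ℝ, Admissible f →
      ∫⁻ x : ℝ, (areaFn lam f x) ^ p * ENNReal.ofReal (Ug g x)
        ≤ (C : ℝ≥0∞) * ∫⁻ x : ℝ, (ntMax b f x) ^ p * ENNReal.ofReal (Ug g x))
    (hA : ∀ g1 A x η : ℝ, 0 < g1 → g1 < 1 → lam < T g1 → T g1 ≤ lam + 1 → 0 < A → 0 < x → 0 < η →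
      (1 / (T g1 - lam)) ^ 2 ≤ A * x ^ g1 → η ≤ c * x / (A * x ^ g1) →
      ENNReal.ofReal (c * (1 / (T g1 - lam)) ^ (1 / 2 : ℝ) * Real.exp (-(A / p) * x ^ g1)) ≤
        areaFn lam (tf A p g1 η) x) :
    ENNReal.ofReal ((c * (1 / e) ^ (1 / 2 : ℝ)) ^ p) ≤ 4 * (C : ℝ≥0∞) := by
  obtain ⟨g1, hgdef⟩ : ∃ g1, g1 = 2 / Real.pi * Real.arctan (lam + e) := ⟨_, rfl⟩
  have hT : T g1 = lam + e := by rw [hgdef, T_g1]
  have h0 : 0 < g1 := by rw [hgdef]; exact g1_pos (by linarith)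
  have h1 : g1 < 1 := by rw [hgdef]; exact g1_lt _
  have hTg : T g < lam + e := by
    have := (le_max_right b (T g)).trans hmax
    linarith
  have hbT : b < T g1 := by
    have := (le_max_left b (T g)).trans hmax
    rw [hT]; linarith
  have hgg : g < g1 := by rw [hgdef]; exact g_lt hg0 hg1 hTg
  obtain ⟨R0, hR0, hR⟩ := hLap g g1 hg0 hgg h1
  -- the choice of R
  obtain ⟨R, hRR0, hRbig⟩ : ∃ R : ℝ, R0 ≤ R ∧ (1 / e) ^ 2 * (g1 / g) * 2 ^ g1 ≤ R ^ g := by
    have ht := tendsto_rpow_atTop hg0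
    have h2 := (ht.eventually_ge_atTop ((1 / e) ^ 2 * (g1 / g) * 2 ^ g1)).and
      (eventually_ge_atTop R0)
    obtain ⟨R, hR1, hR2⟩ := h2.exists
    exact ⟨R, hR2, hR1⟩
  have hRpos : 0 < R := by linarith
  obtain ⟨A, hAdef⟩ : ∃ A, A = g / g1 * R ^ (g - g1) := ⟨_, rfl⟩
  have hApos : 0 < A := by rw [hAdef]; positivity
  -- lower bound for A x ^ g1
  have hAx : ∀ x ∈ Icc (R / 2) (2 * R), (1 / e) ^ 2 ≤ A * x ^ g1 := by
    intro x hx
    have hx1 : (R / 2) ^ g1 ≤ x ^ g1 := Real.rpow_le_rpow (by positivity) hx.1 h0.le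
    have e1 : A * (R / 2) ^ g1 = g / g1 * R ^ g / 2 ^ g1 := by
      rw [hAdef, Real.div_rpow hRpos.le (by norm_num)]
      have e2 : R ^ (g - g1) * R ^ g1 = R ^ g := by
        rw [← Real.rpow_add hRpos]; congr 1; ring
      rw [← e2]
      ring
    have e3 : (1 / e) ^ 2 ≤ A * (R / 2) ^ g1 := by
      rw [e1, le_div_iff₀ (by positivity)]
      have e4 : (1 / e) ^ 2 * 2 ^ g1 = g / g1 * ((1 / e) ^ 2 * (g1 / g) * 2 ^ g1) := by
        field_simp
      rw [e4]
      exact mul_le_mul_of_nonneg_left hRbig (by positivity)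
    exact e3.trans (mul_le_mul_of_nonneg_left hx1 hApos.le)
  -- the choice of η
  obtain ⟨η, hηdef⟩ : ∃ η, η = c * (R / 2) / (A * (2 * R) ^ g1) := ⟨_, rfl⟩
  have hηpos : 0 < η := by rw [hηdef]; positivity
  have hηx : ∀ x ∈ Icc (R / 2) (2 * R), η ≤ c * x / (A * x ^ g1) := by
    intro x hx
    have hxpos : 0 < x := lt_of_lt_of_le (by positivity) hx.1
    rw [hηdef]
    have hx2 : x ^ g1 ≤ (2 * R) ^ g1 := Real.rpow_le_rpow hxpos.le hx.2 h0.le
    exact div_le_div₀ (by positivity) (mul_le_mul_of_nonneg_left hx.1 hc.le) (by positivity)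
      (mul_le_mul_of_nonneg_left hx2 hApos.le)
  have hf := (hTest A p g1 η hApos hp h0 h1 hηpos).1
  have hCf := hC _ hf
  have hLR := hR R hRR0
  rw [← hAdef] at hLR
  obtain ⟨Iin, hIdef⟩ : ∃ Iin : ℝ≥0∞, Iin = ∫⁻ x in Icc (R / 2) (2 * R),
      ENNReal.ofReal (Real.exp (x ^ g - A * x ^ g1)) := ⟨_, rfl⟩
  rw [← hIdef] at hLR
  -- Iin is finite and positive
  have hItop : Iin ≠ ∞ := by
    have h2 : Iin ≤ ∫⁻ x in Icc (R / 2) (2 * R), ENNReal.ofReal (Real.exp ((2 * R) ^ g)) := by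
      rw [hIdef]
      refine setLIntegral_mono' measurableSet_Icc fun x hx => ?_
      have hxpos : 0 < x := lt_of_lt_of_le (by positivity) hx.1
      refine ENNReal.ofReal_le_ofReal (Real.exp_le_exp.2 ?_)
      have hx2 : x ^ g ≤ (2 * R) ^ g := Real.rpow_le_rpow hxpos.le hx.2 hg0.le
      have hx3 : 0 ≤ A * x ^ g1 := by positivity
      linarith
    rw [setLIntegral_const] at h2
    refine ne_top_of_le_ne_top ?_ h2
    exact ENNReal.mul_ne_top ENNReal.ofReal_ne_top (by simp [Real.volume_Icc])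
  have hI0 : Iin ≠ 0 := by
    have h2 : ∫⁻ x in Icc (R / 2) (2 * R), ENNReal.ofReal (Real.exp (-(A * (2 * R) ^ g1))) ≤
        Iin := by
      rw [hIdef]
      refine setLIntegral_mono' measurableSet_Icc fun x hx => ?_
      have hxpos : 0 < x := lt_of_lt_of_le (by positivity) hx.1
      refine ENNReal.ofReal_le_ofReal (Real.exp_le_exp.2 ?_)
      have hx2 : x ^ g1 ≤ (2 * R) ^ g1 := Real.rpow_le_rpow hxpos.le hx.2 h0.le
      have hx3 : A * x ^ g1 ≤ A * (2 * R) ^ g1 := mul_le_mul_of_nonneg_left hx2 hApos.le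
      have hx4 : 0 ≤ x ^ g := by positivity
      linarith
    rw [setLIntegral_const, Real.volume_Icc] at h2
    intro h3
    rw [h3] at h2
    have h4 : ENNReal.ofReal (Real.exp (-(A * (2 * R) ^ g1))) * ENNReal.ofReal (2 * R - R / 2) = 0 :=
      le_antisymm h2 zero_le
    rcases mul_eq_zero.1 h4 with h5 | h5
    · rw [ENNReal.ofReal_eq_zero] at h5
      exact absurd h5 (not_le.2 (Real.exp_pos _))
    · rw [ENNReal.ofReal_eq_zero] at h5
      linarith
  -- the chain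
  have hKnn : 0 ≤ c * (1 / e) ^ (1 / 2 : ℝ) := by positivity
  have chain : ENNReal.ofReal ((c * (1 / e) ^ (1 / 2 : ℝ)) ^ p) * Iin ≤
      (4 * (C : ℝ≥0∞)) * Iin := by
    calc ENNReal.ofReal ((c * (1 / e) ^ (1 / 2 : ℝ)) ^ p) * Iin
        = ∫⁻ x in Icc (R / 2) (2 * R), ENNReal.ofReal ((c * (1 / e) ^ (1 / 2 : ℝ)) ^ p) *
            ENNReal.ofReal (Real.exp (x ^ g - A * x ^ g1)) := by
          rw [hIdef, lintegral_const_mul' _ _ ENNReal.ofReal_ne_top]
      _ ≤ ∫⁻ x in Icc (R / 2) (2 * R), (areaFn lam (tf A p g1 η) x) ^ p *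
            ENNReal.ofReal (Ug g x) := by
          refine setLIntegral_mono' measurableSet_Icc fun x hx => ?_
          have hxpos : 0 < x := lt_of_lt_of_le (by positivity) hx.1
          have h2 := hA g1 A x η h0 h1 (by rw [hT]; linarith) (by rw [hT]; linarith) hApos hxpos
            hηpos (by rw [hT, add_sub_cancel_left]; exact hAx x hx) (hηx x hx)
          rw [hT, add_sub_cancel_left] at h2
          have h3 := ENNReal.rpow_le_rpow h2 hp.le
          rw [ENNReal.ofReal_rpow_of_nonneg (by positivity) hp.le,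
            Real.mul_rpow hKnn (Real.exp_pos _).le, exp_rpow A p _ hp] at h3
          have h4 : ENNReal.ofReal ((c * (1 / e) ^ (1 / 2 : ℝ)) ^ p) *
              ENNReal.ofReal (Real.exp (x ^ g - A * x ^ g1)) =
              ENNReal.ofReal ((c * (1 / e) ^ (1 / 2 : ℝ)) ^ p * Real.exp (-(A * x ^ g1))) *
                ENNReal.ofReal (Ug g x) := by
            rw [← ENNReal.ofReal_mul (by positivity), ← ENNReal.ofReal_mul (by positivity)]
            congr 1
            unfold Ug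
            rw [abs_of_pos hxpos, mul_assoc, ← Real.exp_add]
            congr 2
            ring
          rw [h4]
          exact mul_le_mul_left h3 _
      _ ≤ ∫⁻ x : ℝ, (areaFn lam (tf A p g1 η) x) ^ p * ENNReal.ofReal (Ug g x) :=
          setLIntegral_le_lintegral _ _
      _ ≤ (C : ℝ≥0∞) * ∫⁻ x : ℝ, (ntMax b (tf A p g1 η) x) ^ p * ENNReal.ofReal (Ug g x) := hCf
      _ ≤ (C : ℝ≥0∞) * ∫⁻ x : ℝ, ENNReal.ofReal (Real.exp (|x| ^ g - A * |x| ^ g1)) := by
          gcongr with x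
          have h2 := hUp A p g1 η b hApos hp h0 h1 hηpos hb hbT x
          have h3 := ENNReal.rpow_le_rpow h2 hp.le
          rw [ENNReal.ofReal_rpow_of_nonneg (Real.exp_pos _).le hp.le, exp_rpow A p _ hp] at h3
          have h4 : ENNReal.ofReal (Real.exp (|x| ^ g - A * |x| ^ g1)) =
              ENNReal.ofReal (Real.exp (-(A * |x| ^ g1))) * ENNReal.ofReal (Ug g x) := by
            rw [← ENNReal.ofReal_mul (Real.exp_pos _).le]
            congr 1
            unfold Ug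
            rw [← Real.exp_add]
            congr 1
            ring
          rw [h4]
          exact mul_le_mul_left h3 _
      _ ≤ (C : ℝ≥0∞) * (4 * Iin) := by gcongr
      _ = (4 * (C : ℝ≥0∞)) * Iin := by ring
  exact (ENNReal.mul_le_mul_iff_left hI0 hItop).1 chain

end Neg

theorem stNeg (hTest : StTest) (hUp : StTestUp) (hArea : StAreaLow) (hLap : StLap) : StNeg := by
  intro g lam b p hg0 hg1 hlam hb hp hmax hStar
  obtain ⟨C, hC⟩ := hStar
  obtain ⟨c, hc, hA⟩ := hArea lam p hlam hp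
  obtain ⟨N, hNdef⟩ : ∃ N : ℝ, N = max 1 ((4 * (C : ℝ) + 1) ^ (1 / p) / c) := ⟨_, rfl⟩
  have hN1 : 1 ≤ N := by rw [hNdef]; exact le_max_left _ _
  have hN2 : (4 * (C : ℝ) + 1) ^ (1 / p) ≤ c * N := by
    have h := le_max_right 1 ((4 * (C : ℝ) + 1) ^ (1 / p) / c)
    rw [← hNdef, div_le_iff₀ hc] at h
    linarith
  have hNpos : 0 < N := by linarith
  have he0 : 0 < 1 / N ^ 2 := by positivity
  have he1 : 1 / N ^ 2 ≤ 1 := by
    rw [div_le_one (by positivity)]
    nlinarith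
  have key := Neg.core hTest hUp hLap hg0 hg1 hlam hb hp hmax hc he0 he1 hC hA
  have e1 : (1 / (1 / N ^ 2)) ^ (1 / 2 : ℝ) = N := by
    rw [one_div_one_div, ← Real.sqrt_eq_rpow, Real.sqrt_sq hNpos.le]
  rw [e1] at key
  have e2 : 4 * (C : ℝ) + 1 ≤ (c * N) ^ p := by
    have h4 : (0 : ℝ) ≤ 4 * (C : ℝ) + 1 := by positivity
    calc 4 * (C : ℝ) + 1 = ((4 * (C : ℝ) + 1) ^ (1 / p)) ^ p := by
          rw [← Real.rpow_mul h4, one_div_mul_cancel hp.ne', Real.rpow_one]
      _ ≤ (c * N) ^ p := Real.rpow_le_rpow (by positivity) hN2 hp.le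
  have e3 : ENNReal.ofReal (4 * (C : ℝ) + 1) ≤ 4 * (C : ℝ≥0∞) :=
    (ENNReal.ofReal_le_ofReal e2).trans key
  have e4 : (4 * (C : ℝ≥0∞)) = ENNReal.ofReal (4 * (C : ℝ)) := by
    rw [ENNReal.ofReal_mul (by norm_num), ENNReal.ofReal_coe_nnreal]
    norm_num
  rw [e4, ENNReal.ofReal_le_ofReal_iff (by positivity)] at e3
  linarith

end Pool.Agent.Work.MP_055a27_an.Thr
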