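import Pool.Agent.Work.MP_055a27_an.Thr.Stmts

/-!
# There are non trivial functions with finite right side
-/

set_option autoImplicit false

open MeasureTheory Set Filter Topology Complex Metric
open scoped ENNReal NNReal

namespace Pool.Agent.Work.MP_055a27_an.Thr

namespace Nonvac

lemma norm_tst (A p g1 η : ℝ) (w : ℂ) :
    ‖tst A p g1 η w‖ = Real.exp (-(A / p) * cg g1 (w + η * I)) := by
  unfold tst cg
  rw [Complex.norm_exp]
  congr 1
  rw [← Complex.ofReal_neg, Complex.re_ofReal_mul, div_mul_eq_div_div]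
  ring

lemma cg_ge {s : ℝ} (h0 : 0 < s) (h1 : s < 1) {w : ℂ} (hw : 0 < w.im) :
    ‖w‖ ^ s ≤ cg s w := by
  obtain ⟨φ, hφ1, hφ2, -, -, h⟩ := polar hw
  unfold cg
  rw [(h s).1]
  have hc := cos_half_pos h0 h1
  have h2 : Real.cos (Real.pi * s / 2) ≤ Real.cos (s * φ) := by
    rw [← Real.cos_abs (s * φ)]
    refine Real.cos_le_cos_of_nonneg_of_le_pi (abs_nonneg _) ?_ ?_
    · have := Real.pi_pos
      nlinarith
    · rw [abs_mul, abs_of_pos h0]
      have h3 : |φ| ≤ Real.pi / 2 := (abs_lt.2 ⟨hφ1, hφ2⟩).le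
      have := mul_le_mul_of_nonneg_left h3 h0.le
      linarith
  rw [mul_div_assoc]
  have h4 : 1 ≤ Real.cos (s * φ) / Real.cos (Real.pi * s / 2) := by
    rw [le_div_iff₀ hc, one_mul]
    exact h2
  exact le_mul_of_one_le_right (by positivity) h4

lemma absorb {g s c : ℝ} (hg : 0 < g) (hgs : g < s) (hc : 0 < c) :
    ∃ C : ℝ, ∀ t : ℝ, 0 ≤ t → t ^ g ≤ c * t ^ s + C := by
  set t0 : ℝ := (1 / c) ^ (1 / (s - g)) with ht0
  have hc' : 0 < 1 / c := by positivity
  have hsg : 0 < s - g := by linarith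
  have ht0p : 0 < t0 := Real.rpow_pos_of_pos hc' _
  refine ⟨t0 ^ g, fun t ht => ?_⟩
  rcases le_total t t0 with h | h
  · have h1 := Real.rpow_le_rpow ht h hg.le
    have h2 : 0 ≤ c * t ^ s := by positivity
    linarith
  · have htp : 0 < t := ht0p.trans_le h
    have h3 : 1 / c ≤ t ^ (s - g) := by
      calc 1 / c = t0 ^ (s - g) := by
            rw [ht0, ← Real.rpow_mul hc'.le, one_div_mul_cancel hsg.ne', Real.rpow_one]
        _ ≤ _ := Real.rpow_le_rpow ht0p.le h hsg.le
    have h4 : t ^ s = t ^ g * t ^ (s - g) := by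
      rw [← Real.rpow_add htp]
      congr 1
      ring
    have h5 : 1 ≤ c * t ^ (s - g) := by
      rw [div_le_iff₀ hc] at h3
      linarith
    have h6 : 0 ≤ t ^ g := by positivity
    have h7 : 0 ≤ t0 ^ g := by positivity
    calc t ^ g = t ^ g * 1 := (mul_one _).symm
      _ ≤ t ^ g * (c * t ^ (s - g)) := mul_le_mul_of_nonneg_left h5 h6
      _ = c * t ^ s := by rw [h4]; ring
      _ ≤ c * t ^ s + t0 ^ g := by linarith

lemma decay {s c : ℝ} (hs : 0 < s) (hc : 0 < c) :
    ∃ K : ℝ, 0 < K ∧ ∀ t : ℝ, 0 ≤ t → Real.exp (-(c * t ^ s)) ≤ K * (1 + t ^ 2)⁻¹ := by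
  obtain ⟨m, hm⟩ := exists_nat_ge (2 / s)
  have hms : 2 ≤ s * m := by
    rw [div_le_iff₀ hs] at hm
    linarith
  set F : ℝ := (m.factorial : ℝ) with hF
  have hFp : 0 < F := by
    rw [hF]
    exact_mod_cast m.factorial_pos
  have hcm : 0 < c ^ m := by positivity
  refine ⟨2 + 2 * (F / c ^ m), by positivity, fun t ht => ?_⟩
  have h1t : (0 : ℝ) < 1 + t ^ 2 := by positivity
  rw [← div_eq_mul_inv, le_div_iff₀ h1t]
  have hexp0 : 0 ≤ Real.exp (-(c * t ^ s)) := (Real.exp_pos _).le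
  rcases le_total t 1 with h | h
  · have h1 : Real.exp (-(c * t ^ s)) ≤ 1 := by
      rw [Real.exp_le_one_iff]
      have : 0 ≤ c * t ^ s := by positivity
      linarith
    have h2 : 1 + t ^ 2 ≤ 2 := by
      have : t ^ 2 ≤ 1 := pow_le_one₀ ht h
      linarith
    have h3 : 0 ≤ 2 * (F / c ^ m) := by positivity
    calc Real.exp (-(c * t ^ s)) * (1 + t ^ 2) ≤ 1 * 2 := mul_le_mul h1 h2 h1t.le zero_le_one
      _ ≤ _ := by linarith
  · have htp : 0 < t := by linarith
    have h2 : (c * t ^ s) ^ m / F ≤ Real.exp (c * t ^ s) :=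
      Real.pow_div_factorial_le_exp _ (by positivity) m
    have h3 : t ^ 2 ≤ (t ^ s) ^ m := by
      rw [← Real.rpow_natCast (t ^ s) m, ← Real.rpow_mul ht, ← Real.rpow_natCast t 2]
      exact Real.rpow_le_rpow_of_exponent_le h (by exact_mod_cast hms)
    have h4 : t ^ 2 ≤ F / c ^ m * Real.exp (c * t ^ s) := by
      have h5 : c ^ m * t ^ 2 ≤ F * Real.exp (c * t ^ s) := by
        rw [div_le_iff₀ hFp] at h2
        calc c ^ m * t ^ 2 ≤ c ^ m * (t ^ s) ^ m := mul_le_mul_of_nonneg_left h3 hcm.le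
          _ = (c * t ^ s) ^ m := (mul_pow _ _ _).symm
          _ ≤ _ := by linarith
      rw [div_mul_eq_mul_div, le_div_iff₀ hcm]
      linarith
    have h6 : 1 + t ^ 2 ≤ 2 * t ^ 2 := by
      have : 1 ≤ t ^ 2 := one_le_pow₀ h
      linarith
    have h7 : Real.exp (-(c * t ^ s)) * Real.exp (c * t ^ s) = 1 := by
      rw [← Real.exp_add, neg_add_cancel, Real.exp_zero]
    calc Real.exp (-(c * t ^ s)) * (1 + t ^ 2) ≤ Real.exp (-(c * t ^ s)) * (2 * t ^ 2) :=
          mul_le_mul_of_nonneg_left h6 hexp0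
      _ ≤ Real.exp (-(c * t ^ s)) * (2 * (F / c ^ m * Real.exp (c * t ^ s))) :=
          mul_le_mul_of_nonneg_left (by linarith) hexp0
      _ = 2 * (F / c ^ m) * (Real.exp (-(c * t ^ s)) * Real.exp (c * t ^ s)) := by ring
      _ = 2 * (F / c ^ m) := by rw [h7, mul_one]
      _ ≤ _ := by linarith

end Nonvac

theorem stNonvac (hTest : StTest) : StNonvac := by
  intro g hg0 hg1
  set s : ℝ := (1 + g) / 2 with hs
  have hs0 : 0 < s := by rw [hs]; linarith
  have hs1 : s < 1 := by rw [hs]; linarith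
  have hgs : g < s := by rw [hs]; linarith
  obtain ⟨hadm, hpo, hgr⟩ := hTest 1 1 s 1 one_pos one_pos hs0 hs1 one_pos
  refine ⟨tf 1 1 s 1, hadm, ?_, ?_⟩
  · by_contra hcon
    push Not at hcon
    have h1 := hgr 0 1 one_pos
    have h2 : gradSq (tf 1 1 s 1) 0 1 = 0 := by
      unfold gradSq
      have e1 : deriv (fun r : ℝ => poisson (tf 1 1 s 1) r 1) 0 = 0 := by
        have : (fun r : ℝ => poisson (tf 1 1 s 1) r 1) = fun _ => (0 : ℝ) := by
          funext r
          exact hcon r 1 one_pos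
        rw [this, deriv_const]
      have e2 : deriv (fun r : ℝ => poisson (tf 1 1 s 1) 0 r) 1 = 0 := by
        have : (fun r : ℝ => poisson (tf 1 1 s 1) 0 r) =ᶠ[𝓝 1] fun _ => (0 : ℝ) := by
          filter_upwards [lt_mem_nhds (zero_lt_one (α := ℝ))] with r hr
          exact hcon 0 r hr
        rw [this.deriv_eq, deriv_const]
      rw [e1, e2]
      norm_num
    rw [h2] at h1
    have hc := cos_half_pos hs0 hs1
    have hw : 0 < ‖((0 : ℝ) : ℂ) + ((1 + 1 : ℝ) : ℂ) * I‖ := by
      rw [norm_pos_iff]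
      apply ne_zero_of_im
      simp
    have h3 : 0 < (1 * s / (1 * Real.cos (Real.pi * s / 2)) *
        ‖((0 : ℝ) : ℂ) + ((1 + 1 : ℝ) : ℂ) * I‖ ^ (s - 1) *
        Real.exp (-(1 / 1) * cg s (((0 : ℝ) : ℂ) + ((1 + 1 : ℝ) : ℂ) * I))) ^ 2 := by
      have h4 : 0 < ‖((0 : ℝ) : ℂ) + ((1 + 1 : ℝ) : ℂ) * I‖ ^ (s - 1) :=
        Real.rpow_pos_of_pos hw _
      positivity
    rw [← h1] at h3
    exact lt_irrefl _ h3
  · intro b p hb hp
    have hb1 : 0 < 1 + b := by linarith
    -- pointwise bound for the maximal function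
    have hmax : ∀ x : ℝ, ntMax b (tf 1 1 s 1) x ≤
        ENNReal.ofReal (Real.exp (-((|x| / (1 + b)) ^ s))) := by
      intro x
      refine ntMax_le fun z y hy hz => ?_
      rw [hpo z y hy]
      refine (Complex.abs_re_le_norm _).trans ?_
      rw [Nonvac.norm_tst]
      refine Real.exp_le_exp.2 ?_
      have e1 : (z : ℂ) + y * I + ((1 : ℝ) : ℂ) * I = (z : ℂ) + ((y + 1 : ℝ) : ℂ) * I := by
        push_cast
        ring
      rw [e1]
      set w : ℂ := (z : ℂ) + ((y + 1 : ℝ) : ℂ) * I with hwdef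
      have hwim : w.im = y + 1 := by simp [hwdef]
      have hwre : w.re = z := by simp [hwdef]
      have h1 := Nonvac.cg_ge hs0 hs1 (w := w) (by rw [hwim]; linarith)
      have h2 : |x| / (1 + b) ≤ ‖w‖ := by
        rw [div_le_iff₀ hb1]
        have h3 : |z| ≤ ‖w‖ := by
          rw [← hwre]
          exact Complex.abs_re_le_norm w
        have h4 : y ≤ ‖w‖ := by
          have := Complex.abs_im_le_norm w
          rw [hwim] at this
          linarith [le_abs_self (y + 1)]
        have h5 : |x| ≤ |x - z| + |z| := by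
          have := abs_add_le (x - z) z
          simpa using this
        have h6 : b * y ≤ b * ‖w‖ := mul_le_mul_of_nonneg_left h4 hb.le
        calc |x| ≤ b * y + |z| := by linarith
          _ ≤ ‖w‖ * (1 + b) := by linarith
      have h7 : (|x| / (1 + b)) ^ s ≤ ‖w‖ ^ s := Real.rpow_le_rpow (by positivity) h2 hs0.le
      have h8 : -(1 / 1 : ℝ) * cg s w = - cg s w := by ring
      rw [h8]
      linarith
    set κ : ℝ := p * ((1 + b)⁻¹) ^ s with hκ
    have hκ0 : 0 < κ := by positivity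
    obtain ⟨C, hC⟩ := Nonvac.absorb hg0 hgs (c := κ / 2) (by positivity)
    obtain ⟨K, hK0, hK⟩ := Nonvac.decay hs0 (c := κ / 2) (by positivity)
    have hpt : ∀ x : ℝ, (ntMax b (tf 1 1 s 1) x) ^ p * ENNReal.ofReal (Ug g x) ≤
        ENNReal.ofReal (Real.exp C * K * (1 + x ^ 2)⁻¹) := by
      intro x
      calc (ntMax b (tf 1 1 s 1) x) ^ p * ENNReal.ofReal (Ug g x)
          ≤ (ENNReal.ofReal (Real.exp (-((|x| / (1 + b)) ^ s)))) ^ p *
            ENNReal.ofReal (Ug g x) := by
            gcongr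
            exact hmax x
        _ = ENNReal.ofReal (Real.exp (-(κ * |x| ^ s)) * Real.exp (|x| ^ g)) := by
            rw [ENNReal.ofReal_rpow_of_nonneg (Real.exp_pos _).le hp.le, ← Real.exp_mul,
              ← ENNReal.ofReal_mul (Real.exp_pos _).le]
            unfold Ug
            congr 3
            rw [hκ, div_eq_mul_inv, Real.mul_rpow (abs_nonneg _) (by positivity)]
            ring
        _ ≤ ENNReal.ofReal (Real.exp C * K * (1 + x ^ 2)⁻¹) := by
            refine ENNReal.ofReal_le_ofReal ?_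
            have h1 := hC |x| (abs_nonneg x)
            have h2 := hK |x| (abs_nonneg x)
            rw [sq_abs] at h2
            calc Real.exp (-(κ * |x| ^ s)) * Real.exp (|x| ^ g)
                = Real.exp (-(κ * |x| ^ s) + |x| ^ g) := (Real.exp_add _ _).symm
              _ ≤ Real.exp (C + -(κ / 2 * |x| ^ s)) := Real.exp_le_exp.2 (by linarith)
              _ = Real.exp C * Real.exp (-(κ / 2 * |x| ^ s)) := Real.exp_add _ _
              _ ≤ Real.exp C * (K * (1 + x ^ 2)⁻¹) :=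
                  mul_le_mul_of_nonneg_left h2 (Real.exp_pos _).le
              _ = _ := by ring
    refine (lintegral_mono hpt).trans_lt ?_
    have hint : Integrable (fun x : ℝ => Real.exp C * K * (1 + x ^ 2)⁻¹) :=
      integrable_inv_one_add_sq.const_mul _
    exact hint.lintegral_lt_top

end Pool.Agent.Work.MP_055a27_an.Thr
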