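import Pool.Agent.Work.MP_055a27_an.Thr.Stmts

/-! # The positive part of the theorem -/

open MeasureTheory Set Filter Topology Complex Metric
open scoped ENNReal NNReal

namespace Pool.Agent.Work.MP_055a27_an.Thr

theorem stPos (hW : StWeight) (hA : StAper) : StPos := by
  intro g lam b p hg hg1 hlam hb hp hmax
  have hp0 : 0 < p := by linarith
  by_cases hlb : lam < b
  · exact weak_star (hW g hg).1 (hW g hg).2.1 hlam hlb hp0
  · have hlT : lam < T g := by
      rcases lt_max_iff.1 hmax with h | h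
      · exact absurd h hlb
      · exact h
    have hb1 : lam < (lam + T g) / 2 := by linarith
    have hb2 : (lam + T g) / 2 < T g := by linarith
    have hb0 : 0 < (lam + T g) / 2 := by linarith
    obtain ⟨C₁, h₁⟩ := weak_star (hW g hg).1 (hW g hg).2.1 hlam hb1 hp0
    obtain ⟨C₂, h₂⟩ := hA g b ((lam + T g) / 2) p hg hg1 hb hb0 hb2 hp
    refine ⟨C₁ * C₂, fun f hf => ?_⟩
    calc ∫⁻ x : ℝ, (areaFn lam f x) ^ p * ENNReal.ofReal (Ug g x)
        ≤ (C₁ : ℝ≥0∞) * ∫⁻ x : ℝ, (ntMax ((lam + T g) / 2) f x) ^ p *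
          ENNReal.ofReal (Ug g x) := h₁ f hf
      _ ≤ (C₁ : ℝ≥0∞) * ((C₂ : ℝ≥0∞) * ∫⁻ x : ℝ, (ntMax b f x) ^ p *
          ENNReal.ofReal (Ug g x)) := mul_le_mul_right (h₂ f hf) _
      _ = ((C₁ * C₂ : ℝ≥0) : ℝ≥0∞) * ∫⁻ x : ℝ, (ntMax b f x) ^ p *
          ENNReal.ofReal (Ug g x) := by
        rw [ENNReal.coe_mul, mul_assoc]

end Pool.Agent.Work.MP_055a27_an.Thr
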