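import Pool.Agent.Work.MP_055a27_an.Thr.Stmts

/-!
# The test functions
-/

open MeasureTheory Set Filter Topology Complex Metric
open scoped ENNReal NNReal

namespace Pool.Agent.Work.MP_055a27_an.Thr

namespace Test

lemma im_add {w : ℂ} {η : ℝ} (hw : 0 ≤ w.im) (hη : 0 < η) : 0 < (w + η * I).im := by
  simp
  linarith

lemma pw_re_nonneg {g1 : ℝ} {w : ℂ} (h0 : 0 < g1) (h1 : g1 < 1) (hw : 0 < w.im) :
    0 ≤ (pw g1 w).re := by
  obtain ⟨φ, hl, hu, _, _, h⟩ := polar hw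
  rw [(h g1).1]
  apply mul_nonneg (by positivity)
  apply Real.cos_nonneg_of_mem_Icc
  have := Real.pi_pos
  constructor <;> nlinarith

lemma norm_tst {A p g1 η : ℝ} (w : ℂ) :
    ‖tst A p g1 η w‖ = Real.exp (-(A / p) * cg g1 (w + η * I)) := by
  unfold tst cg
  rw [Complex.norm_exp]
  congr 1
  rw [neg_mul, Complex.neg_re, Complex.re_ofReal_mul]
  rw [← div_div]
  ring

lemma norm_tst_le {A p g1 η : ℝ} (hA : 0 < A) (hp : 0 < p) (h0 : 0 < g1) (h1 : g1 < 1)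
    (hη : 0 < η) {w : ℂ} (hw : 0 ≤ w.im) : ‖tst A p g1 η w‖ ≤ 1 := by
  rw [norm_tst, Real.exp_le_one_iff]
  have h2 : 0 ≤ cg g1 (w + η * I) := by
    unfold cg
    exact div_nonneg (pw_re_nonneg h0 h1 (im_add hw hη)) (cos_half_pos h0 h1).le
  have h3 : 0 ≤ A / p := by positivity
  nlinarith

lemma hasDerivAt_tst {A p g1 η : ℝ} (hη : 0 < η) {w : ℂ} (hw : 0 ≤ w.im) :
    HasDerivAt (tst A p g1 η)
      (tst A p g1 η w * (-((A / (p * Real.cos (Real.pi * g1 / 2)) : ℝ) : ℂ) *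
        (-I * g1 * pw (g1 - 1) (w + η * I)))) w := by
  have h1 : HasDerivAt (fun w : ℂ => w + η * I) 1 w := (hasDerivAt_id w).add_const _
  have h2 := (hasDerivAt_pw g1 (im_add hw hη)).comp w h1
  rw [mul_one] at h2
  have h3 := (h2.const_mul (-((A / (p * Real.cos (Real.pi * g1 / 2)) : ℝ) : ℂ))).cexp
  exact h3

end Test

open Test in
theorem stTest : StTest := by
  intro A p g1 η hA hp h0 h1 hη
  have hd : ∀ ζ : ℂ, 0 ≤ ζ.im → DifferentiableAt ℂ (tst A p g1 η) ζ := fun ζ hζ =>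
    (hasDerivAt_tst hη hζ).differentiableAt
  have hb : ∀ ζ : ℂ, 0 ≤ ζ.im → ‖tst A p g1 η ζ‖ ≤ 1 := fun ζ hζ =>
    norm_tst_le hA hp h0 h1 hη hζ
  have hpo : ∀ z y : ℝ, 0 < y → poisson (tf A p g1 η) z y = (tst A p g1 η (z + y * I)).re := by
    intro z y hy
    exact poisson_re hd hb hy
  refine ⟨admissible_re hd hb, hpo, ?_⟩
  intro z y hy
  have him : (0 : ℝ) ≤ ((z : ℂ) + y * I).im := by simp; exact hy.le
  rw [gradSq_of_re hy (hasDerivAt_tst hη him) hpo]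
  congr 1
  have e : (z : ℂ) + y * I + η * I = (z : ℂ) + ((y + η : ℝ) : ℂ) * I := by push_cast; ring
  have hc := cos_half_pos h0 h1
  have hw' : 0 < ((z : ℂ) + ((y + η : ℝ) : ℂ) * I).im := by
    simp; linarith
  rw [norm_mul, norm_mul, norm_mul, norm_mul, norm_tst, norm_neg, norm_neg, norm_I, one_mul, e,
    norm_pw hw', Complex.norm_real, Complex.norm_real, Real.norm_eq_abs, Real.norm_eq_abs,
    abs_of_pos h0, abs_of_pos (by positivity : 0 < A / (p * Real.cos (Real.pi * g1 / 2)))]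
  field_simp

end Pool.Agent.Work.MP_055a27_an.Thr
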