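import Pool.Agent.Work.MP_055a27_an.Thr.Stmts

/-!
# Upper bound for the maximal function of the test functions
-/

set_option autoImplicit false

open MeasureTheory Set Filter Topology Complex Metric
open scoped ENNReal NNReal

namespace Pool.Agent.Work.MP_055a27_an.Thr

namespace TestUp

lemma norm_tst (A p g1 η : ℝ) (w : ℂ) :
    ‖tst A p g1 η w‖ = Real.exp (-(A / p) * cg g1 (w + η * I)) := by
  unfold tst cg
  rw [Complex.norm_exp]
  congr 1
  rw [← Complex.ofReal_neg, Complex.re_ofReal_mul, div_mul_eq_div_div]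
  ring

end TestUp

theorem stTestUp (hCone : StCone) (hTest : StTest) : StTestUp := by
  intro A p g1 η b hA hp h0 h1 hη hb hbT x
  obtain ⟨δ, hδ, hcone⟩ := hCone g1 b h0 h1 hb hbT
  refine ntMax_le fun z y hy hz => ?_
  rw [(hTest A p g1 η hA hp h0 h1 hη).2.1 z y hy]
  refine (Complex.abs_re_le_norm _).trans ?_
  rw [TestUp.norm_tst]
  refine Real.exp_le_exp.2 ?_
  have e1 : (z : ℂ) + y * I + η * I = (z : ℂ) + ((y + η : ℝ) : ℂ) * I := by
    push_cast
    ring
  rw [e1]
  have h2 := hcone x z (y + η) (by positivity) (hz.trans (by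
    have : 0 ≤ b * η := by positivity
    linarith))
  have h3 : 0 ≤ δ * (y + η) * ‖(z : ℂ) + ((y + η : ℝ) : ℂ) * I‖ ^ (g1 - 1) := by positivity
  have h4 : |x| ^ g1 ≤ cg g1 ((z : ℂ) + ((y + η : ℝ) : ℂ) * I) := by linarith
  have h5 : 0 ≤ A / p := by positivity
  have h6 := mul_le_mul_of_nonneg_left h4 h5
  linarith

end Pool.Agent.Work.MP_055a27_an.Thr
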