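import Pool.Agent.Work.MP_055a27_an.Thr.Stmts

/-! # Upper: upper bound for `cg` in a cone -/

set_option autoImplicit false

open MeasureTheory Set Filter Topology Complex Metric
open scoped ENNReal NNReal

namespace Pool.Agent.Work.MP_055a27_an.Thr

namespace Upper

/-- the angular factor -/
lemma ang (g φ r X y : ℝ) (h0 : 0 < g) (h1 : g < 1) (ha : -(Real.pi / 2) < φ)
    (hb : φ < Real.pi / 2) (hr : 0 < r) (hX : 0 < X) (hy : 0 < y) (hre : X = -(r * Real.sin φ))
    (him : y = r * Real.cos φ) :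
    Real.cos (g * φ) / Real.cos (Real.pi * g / 2) ≤ 1 + T g * (g * (y / X)) := by
  have hpi := Real.pi_pos
  obtain ⟨θ, hθ⟩ : ∃ θ : ℝ, θ = Real.pi / 2 + φ := ⟨_, rfl⟩
  have hcos : Real.cos θ = -Real.sin φ := by
    rw [hθ, add_comm, Real.cos_add_pi_div_two]
  have hsin : Real.sin θ = Real.cos φ := by
    rw [hθ, add_comm, Real.sin_add_pi_div_two]
  have hθ0 : 0 < θ := by linarith
  have hcpos : 0 < Real.cos θ := by
    rw [hcos]
    by_contra hcon
    push Not at hcon
    nlinarith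
  have hθ1 : θ < Real.pi / 2 := by
    by_contra hcon
    push Not at hcon
    have := Real.cos_nonpos_of_pi_div_two_le_of_le hcon (by linarith)
    linarith
  have htan : θ < y / X := by
    have h2 := Real.lt_tan hθ0 hθ1
    rw [Real.tan_eq_sin_div_cos, hcos, hsin] at h2
    have h3 : Real.cos φ / -Real.sin φ = y / X := by
      rw [hre, him]
      rw [← mul_neg, mul_div_mul_left _ _ hr.ne']
    rw [h3] at h2
    exact h2
  have hc := cos_half_pos h0 h1
  have hT := T_pos h0 h1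
  have e1 : Real.cos (g * φ) / Real.cos (Real.pi * g / 2) =
      Real.cos (g * θ) + T g * Real.sin (g * θ) := by
    have e2 : g * φ = g * θ - Real.pi * g / 2 := by rw [hθ]; ring
    rw [e2, Real.cos_sub]
    unfold T
    rw [Real.tan_eq_sin_div_cos, add_div, mul_div_cancel_right₀ _ hc.ne']
    ring
  rw [e1]
  have h4 := Real.cos_le_one (g * θ)
  have h5 : Real.sin (g * θ) ≤ g * θ := Real.sin_le (by positivity)
  have h6 : g * θ ≤ g * (y / X) := mul_le_mul_of_nonneg_left htan.le h0.le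
  have h7 := mul_le_mul_of_nonneg_left (h5.trans h6) hT.le
  linarith

lemma rad (g r X y : ℝ) (h0 : 0 < g) (h1 : g < 1) (hX : 0 < X) (hr : 0 < r)
    (hr2 : r ^ 2 = X ^ 2 + y ^ 2) : r ^ g ≤ X ^ g * (1 + y ^ 2 / X ^ 2) := by
  have hrX : X ≤ r := by
    by_contra hcon
    push Not at hcon
    have := pow_lt_pow_left₀ hcon hr.le two_ne_zero
    nlinarith [sq_nonneg y]
  have h2 : 1 ≤ r / X := by rwa [le_div_iff₀ hX, one_mul]
  have h3 : (r / X) ^ g ≤ (r / X) ^ (2 : ℝ) := Real.rpow_le_rpow_of_exponent_le h2 (by linarith)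
  have h4 : (r / X) ^ (2 : ℝ) = 1 + y ^ 2 / X ^ 2 := by
    rw [Real.rpow_two, div_pow, hr2]
    field_simp
  have h5 : r ^ g = X ^ g * (r / X) ^ g := by
    rw [← Real.mul_rpow hX.le (by positivity), mul_div_cancel₀ _ hX.ne']
  rw [h5]
  rw [h4] at h3
  exact mul_le_mul_of_nonneg_left h3 (Real.rpow_nonneg hX.le g)

lemma cg_le (g X y : ℝ) (h0 : 0 < g) (h1 : g < 1) (hX : 0 < X) (hy : 0 < y) :
    cg g ((X : ℂ) + y * I) ≤ X ^ g * (1 + y ^ 2 / X ^ 2) * (1 + T g * (g * (y / X))) := by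
  obtain ⟨w, hw⟩ : ∃ w : ℂ, w = (X : ℂ) + y * I := ⟨_, rfl⟩
  rw [← hw]
  have hre : w.re = X := by rw [hw]; simp
  have him : w.im = y := by rw [hw]; simp
  have hwi : 0 < w.im := by rw [him]; exact hy
  obtain ⟨φ, ha, hb, e1, e2, h⟩ := polar hwi
  have hr : 0 < ‖w‖ := norm_pos_iff.mpr (ne_zero_of_im hwi)
  have hr2 : ‖w‖ ^ 2 = X ^ 2 + y ^ 2 := by
    rw [← Complex.normSq_eq_norm_sq, Complex.normSq_apply, hre, him]
    ring
  have h2 := ang g φ ‖w‖ X y h0 h1 ha hb hr hX hy (by rw [← hre]; exact e2) (by rw [← him]; exact e1)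
  have h3 := rad g ‖w‖ X y h0 h1 hX hr hr2
  have hT := T_pos h0 h1
  unfold cg
  rw [(h g).1, mul_div_assoc]
  have hlow : 0 ≤ Real.cos (g * φ) := by
    apply Real.cos_nonneg_of_mem_Icc
    constructor <;> nlinarith
  refine mul_le_mul h3 h2 ?_ ?_
  · exact div_nonneg hlow (cos_half_pos h0 h1).le
  · positivity

end Upper

theorem stUpper : StUpper := by
  intro B hB
  refine ⟨2 * B ^ 2 + 8, 1 / (2 * B), by positivity, by positivity, ?_⟩
  intro g x y β h0 h1 hTB hx hy hyx hβ hβB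
  have hB0 : 0 < B := by linarith
  have hT := T_pos h0 h1
  obtain ⟨q, hq⟩ : ∃ q : ℝ, q = 1 - β * y / x := ⟨_, rfl⟩
  have hyx2 : B * y / x ≤ 1 / 2 := by
    rw [div_le_iff₀ hx]
    have := mul_le_mul_of_nonneg_left hyx hB0.le
    have e : B * (1 / (2 * B) * x) = 1 / 2 * x := by field_simp
    rw [e] at this
    exact this
  have hs0 : 0 ≤ β * y / x := by positivity
  have hs1 : β * y / x ≤ 1 / 2 := by
    refine le_trans ?_ hyx2
    apply div_le_div_of_nonneg_right _ hx.le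
    exact mul_le_mul_of_nonneg_right hβB hy.le
  have hq0 : 1 / 2 ≤ q := by linarith
  have hq1 : q ≤ 1 := by linarith
  have hqpos : 0 < q := by linarith
  have hX : x - β * y = x * q := by rw [hq]; field_simp
  have hXpos : 0 < x * q := by positivity
  rw [hX]
  have h2 := Upper.cg_le g (x * q) y h0 h1 hXpos hy
  refine h2.trans ?_
  -- powers
  obtain ⟨P, hP⟩ : ∃ P : ℝ, P = x ^ (g - 2) := ⟨_, rfl⟩
  have hP0 : 0 < P := by rw [hP]; exact Real.rpow_pos_of_pos hx _
  have e1 : x ^ (g - 1) = P * x := by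
    rw [hP, ← Real.rpow_add_one hx.ne']
    congr 1
    ring
  have e0 : x ^ g = P * x ^ 2 := by
    rw [hP, ← Real.rpow_two, ← Real.rpow_add hx]
    congr 1
    ring
  have hXg : (x * q) ^ g = P * x ^ 2 * q ^ g := by
    rw [Real.mul_rpow hx.le hqpos.le, e0]
  rw [hXg, e1, e0, ← hP]
  -- the factors of q
  have hqg : q ^ g ≤ 1 - g * (β * y / x) := by
    have := rpow_one_add_le_one_add_mul_self (s := -(β * y / x)) (by linarith) h0.le h1.le
    rw [hq]
    have e : 1 - β * y / x = 1 + -(β * y / x) := by ring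
    rw [e]
    linarith
  have hqg0 : 0 ≤ q ^ g := Real.rpow_nonneg hqpos.le g
  have hqg1 : q ^ g ≤ 1 := Real.rpow_le_one hqpos.le hq1 h0.le
  have hu : (x * q) ^ 2 = x ^ 2 * q ^ 2 := by ring
  -- q ^ g / q ≤ 1 + 2 s
  have hA : q ^ g / q ≤ 1 + 2 * (β * y / x) := by
    rw [div_le_iff₀ hqpos]
    have e : (1 + 2 * (β * y / x)) * q = 1 + (β * y / x) * (1 - 2 * (β * y / x)) := by
      rw [hq]; ring
    rw [e]
    have : 0 ≤ (β * y / x) * (1 - 2 * (β * y / x)) := mul_nonneg hs0 (by linarith)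
    linarith
  have hBd : q ^ g / q ^ 2 ≤ 4 := by
    rw [div_le_iff₀ (by positivity)]
    have : 1 / 4 ≤ q ^ 2 := by nlinarith
    linarith
  have hD : 1 + T g * (g * (y / (x * q))) ≤ 2 := by
    have h3 : y / (x * q) ≤ 2 * (y / x) := by
      rw [div_le_iff₀ hXpos]
      have e : 2 * (y / x) * (x * q) = 2 * q * y := by field_simp
      rw [e]
      nlinarith
    have h4 : g * (y / (x * q)) ≤ 2 * (y / x) := by
      have h5 : g * (y / (x * q)) ≤ 1 * (y / (x * q)) :=
        mul_le_mul_of_nonneg_right h1.le (by positivity)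
      linarith
    have h6 : T g * (g * (y / (x * q))) ≤ B * (2 * (y / x)) :=
      mul_le_mul hTB h4 (by positivity) hB0.le
    have e : B * (2 * (y / x)) = 2 * (B * y / x) := by ring
    rw [e] at h6
    linarith
  -- expansion
  have key : P * x ^ 2 * q ^ g * (1 + y ^ 2 / (x * q) ^ 2) * (1 + T g * (g * (y / (x * q)))) =
      P * x ^ 2 * q ^ g + P * x * y * (T g * g) * (q ^ g / q)
        + P * y ^ 2 * (q ^ g / q ^ 2) * (1 + T g * (g * (y / (x * q)))) := by
    field_simp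
  rw [key]
  have k1 : P * x ^ 2 * q ^ g ≤ P * x ^ 2 - g * (P * x) * β * y := by
    have := mul_le_mul_of_nonneg_left hqg (by positivity : 0 ≤ P * x ^ 2)
    have e : P * x ^ 2 * (1 - g * (β * y / x)) = P * x ^ 2 - g * (P * x) * β * y := by
      field_simp
    rwa [e] at this
  have k2 : P * x * y * (T g * g) * (q ^ g / q) ≤
      g * (P * x) * T g * y + 2 * B ^ 2 * P * y ^ 2 := by
    have h3 := mul_le_mul_of_nonneg_left hA (by positivity : 0 ≤ P * x * y * (T g * g))
    have e : P * x * y * (T g * g) * (1 + 2 * (β * y / x)) =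
        g * (P * x) * T g * y + 2 * (T g * g * β) * P * y ^ 2 := by
      field_simp
    rw [e] at h3
    have h4 : T g * g * β ≤ B ^ 2 := by
      have h5 : T g * g ≤ B * 1 := mul_le_mul hTB h1.le h0.le hB0.le
      have h6 : T g * g * β ≤ B * 1 * B := mul_le_mul h5 hβB hβ (by positivity)
      linarith [h6, (by ring : B * 1 * B = B ^ 2)]
    have h7 : 2 * (T g * g * β) * P * y ^ 2 ≤ 2 * B ^ 2 * P * y ^ 2 := by
      have h8 := mul_le_mul_of_nonneg_right h4 (by positivity : 0 ≤ 2 * (P * y ^ 2))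
      linarith [h8]
    linarith
  have k3 : P * y ^ 2 * (q ^ g / q ^ 2) * (1 + T g * (g * (y / (x * q)))) ≤ 8 * P * y ^ 2 := by
    have h3 : P * y ^ 2 * (q ^ g / q ^ 2) ≤ P * y ^ 2 * 4 :=
      mul_le_mul_of_nonneg_left hBd (by positivity)
    have h4 : P * y ^ 2 * (q ^ g / q ^ 2) * (1 + T g * (g * (y / (x * q)))) ≤ P * y ^ 2 * 4 * 2 :=
      mul_le_mul h3 hD (by positivity) (by positivity)
    linarith
  have e5 : P * x ^ 2 + g * (P * x) * (T g - β) * y + (2 * B ^ 2 + 8) * P * y ^ 2 =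
      (P * x ^ 2 - g * (P * x) * β * y) + (g * (P * x) * T g * y + 2 * B ^ 2 * P * y ^ 2)
        + 8 * P * y ^ 2 := by ring
  rw [e5]
  linarith

end Pool.Agent.Work.MP_055a27_an.Thr
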