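import Pool.Agent.Work.MP_055a27_an.Thr.Stmts

/-! Project MP_055a27_an, module Thr, item Vac: the weights `exp (|x| ^ g)` with `1 ≤ g`. -/

set_option autoImplicit false

open MeasureTheory Set Filter Topology Complex Metric
open scoped ENNReal NNReal

namespace Pool.Agent.Work.MP_055a27_an.Thr

namespace Vac

lemma U_low {g x v : ℝ} (hg : 1 ≤ g) (hx : v ≤ |x|) : Real.exp (v - 1) ≤ Ug g x := by
  unfold Ug
  apply Real.exp_le_exp.2
  have h0 := abs_nonneg x
  rcases le_total 1 |x| with h | h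
  · have : |x| ^ (1 : ℝ) ≤ |x| ^ g := Real.rpow_le_rpow_of_exponent_le h hg
    rw [Real.rpow_one] at this
    linarith
  · have : 0 ≤ |x| ^ g := Real.rpow_nonneg h0 g
    linarith

lemma U_meas (g : ℝ) : Measurable (fun x => ENNReal.ofReal (Ug g x)) := by
  unfold Ug
  apply Measurable.ennreal_ofReal
  fun_prop

lemma U_ball {g b y : ℝ} (hg : 1 ≤ g) (hb : 0 < b) (hy : 0 < y) (z : ℝ) :
    ENNReal.ofReal ((b * y / 2) * Real.exp (|z| + b * y / 2 - 1)) ≤
      ∫⁻ x in Icc (z - b * y) (z + b * y), ENNReal.ofReal (Ug g x) := by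
  have hby : 0 < b * y := by positivity
  have key : ∀ a c : ℝ, c - a = b * y / 2 → Icc a c ⊆ Icc (z - b * y) (z + b * y) →
      (∀ x ∈ Icc a c, |z| + b * y / 2 ≤ |x|) →
      ENNReal.ofReal ((b * y / 2) * Real.exp (|z| + b * y / 2 - 1)) ≤
      ∫⁻ x in Icc (z - b * y) (z + b * y), ENNReal.ofReal (Ug g x) := by
    intro a c hac hsub hx
    calc ENNReal.ofReal ((b * y / 2) * Real.exp (|z| + b * y / 2 - 1))
        = ∫⁻ x in Icc a c, ENNReal.ofReal (Real.exp (|z| + b * y / 2 - 1)) := by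
          rw [setLIntegral_const, Real.volume_Icc, hac, ← ENNReal.ofReal_mul (by positivity),
            mul_comm]
      _ ≤ ∫⁻ x in Icc a c, ENNReal.ofReal (Ug g x) := by
          apply setLIntegral_mono' measurableSet_Icc
          intro x hx'
          apply ENNReal.ofReal_le_ofReal
          exact U_low hg (hx x hx')
      _ ≤ _ := lintegral_mono_set hsub
  rcases le_total 0 z with hz | hz
  · apply key (z + b * y / 2) (z + b * y) (by ring)
    · apply Icc_subset_Icc <;> linarith
    · intro x hx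
      rw [abs_of_nonneg hz]
      exact hx.1.trans (le_abs_self x)
  · apply key (z - b * y) (z - b * y / 2) (by ring)
    · apply Icc_subset_Icc <;> linarith
    · intro x hx
      rw [abs_of_nonpos hz]
      have := neg_le_abs x
      linarith [hx.2]

/-- Finiteness of the right side bounds the harmonic function. -/
lemma poisson_bound {g b p : ℝ} (hg : 1 ≤ g) (hb : 0 < b) (hp : 0 < p) {f : ℝ → ℝ}
    (hK : ∫⁻ x, (ntMax b f x) ^ p * ENNReal.ofReal (Ug g x) ≠ ∞) {η : ℝ} (hη : 0 < η) :
    ∃ C c : ℝ, 0 < C ∧ 0 < c ∧ ∀ z y : ℝ, η ≤ y →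
      |poisson f z y| ≤ C * Real.exp (-(c * (|z| + y))) := by
  set K : ℝ := (∫⁻ x, (ntMax b f x) ^ p * ENNReal.ofReal (Ug g x)).toReal with hKdef
  have hK0 : 0 ≤ K := ENNReal.toReal_nonneg
  set c0 : ℝ := min 1 (b / 2) with hc0
  have hc00 : 0 < c0 := lt_min one_pos (by positivity)
  refine ⟨((K + 1) * (2 / (b * η)) * Real.exp 1) ^ (1 / p), c0 / p, by positivity,
    by positivity, ?_⟩
  intro z y hy
  have hy0 : 0 < y := hη.trans_le hy
  have h1 : (ENNReal.ofReal |poisson f z y|) ^ p *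
      ENNReal.ofReal ((b * y / 2) * Real.exp (|z| + b * y / 2 - 1)) ≤ ENNReal.ofReal K := by
    calc (ENNReal.ofReal |poisson f z y|) ^ p *
          ENNReal.ofReal ((b * y / 2) * Real.exp (|z| + b * y / 2 - 1))
        ≤ (ENNReal.ofReal |poisson f z y|) ^ p *
          ∫⁻ x in Icc (z - b * y) (z + b * y), ENNReal.ofReal (Ug g x) := by
          gcongr
          exact U_ball hg hb hy0 z
      _ = ∫⁻ x in Icc (z - b * y) (z + b * y), (ENNReal.ofReal |poisson f z y|) ^ p *
          ENNReal.ofReal (Ug g x) := by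
          rw [lintegral_const_mul _ (U_meas g)]
      _ ≤ ∫⁻ x in Icc (z - b * y) (z + b * y), (ntMax b f x) ^ p * ENNReal.ofReal (Ug g x) := by
          apply setLIntegral_mono' measurableSet_Icc
          intro x hx
          gcongr
          unfold ntMax
          have hxz : |x - z| ≤ b * y := by rw [abs_le]; constructor <;> linarith [hx.1, hx.2]
          refine le_trans ?_ (le_iSup₂_of_le (x - z) y (le_iSup_of_le ⟨hy0, hxz⟩ le_rfl))
          rw [sub_sub_cancel]
      _ ≤ ∫⁻ x, (ntMax b f x) ^ p * ENNReal.ofReal (Ug g x) := setLIntegral_le_lintegral _ _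
      _ = ENNReal.ofReal K := (ENNReal.ofReal_toReal hK).symm
  rw [ENNReal.ofReal_rpow_of_nonneg (abs_nonneg _) hp.le, ← ENNReal.ofReal_mul (by positivity)] at h1
  have h2 := (ENNReal.ofReal_le_ofReal_iff hK0).1 h1
  have hexp : c0 * (|z| + y) ≤ |z| + b * y / 2 := by
    have e1 : c0 ≤ 1 := min_le_left _ _
    have e2 : c0 ≤ b / 2 := min_le_right _ _
    have e3 := abs_nonneg z
    nlinarith
  have h3 : |poisson f z y| ^ p ≤
      (K + 1) * (2 / (b * η)) * Real.exp 1 * Real.exp (-(c0 * (|z| + y))) := by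
    have e : Real.exp (-(|z| + b * y / 2 - 1)) * Real.exp (|z| + b * y / 2 - 1) = 1 := by
      rw [← Real.exp_add]; simp
    have h4 : |poisson f z y| ^ p * (b * η / 2) ≤
        (K + 1) * Real.exp (-(|z| + b * y / 2 - 1)) := by
      calc |poisson f z y| ^ p * (b * η / 2)
          ≤ |poisson f z y| ^ p * (b * y / 2) := by gcongr
        _ = (|poisson f z y| ^ p * ((b * y / 2) * Real.exp (|z| + b * y / 2 - 1))) *
            Real.exp (-(|z| + b * y / 2 - 1)) := by
            calc _ = |poisson f z y| ^ p * (b * y / 2) *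
                  (Real.exp (-(|z| + b * y / 2 - 1)) * Real.exp (|z| + b * y / 2 - 1)) := by
                  rw [e, mul_one]
              _ = _ := by ring
        _ ≤ K * Real.exp (-(|z| + b * y / 2 - 1)) := by gcongr
        _ ≤ (K + 1) * Real.exp (-(|z| + b * y / 2 - 1)) := by gcongr; linarith
    have h5 : Real.exp (-(|z| + b * y / 2 - 1)) ≤ Real.exp 1 * Real.exp (-(c0 * (|z| + y))) := by
      rw [← Real.exp_add]
      apply Real.exp_le_exp.2
      linarith
    calc |poisson f z y| ^ p = (|poisson f z y| ^ p * (b * η / 2)) * (2 / (b * η)) := by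
          field_simp
      _ ≤ ((K + 1) * Real.exp (-(|z| + b * y / 2 - 1))) * (2 / (b * η)) := by gcongr
      _ ≤ ((K + 1) * (Real.exp 1 * Real.exp (-(c0 * (|z| + y))))) * (2 / (b * η)) := by gcongr
      _ = _ := by ring
  calc |poisson f z y| = (|poisson f z y| ^ p) ^ (1 / p) := by
        rw [← Real.rpow_mul (abs_nonneg _), mul_one_div_cancel hp.ne', Real.rpow_one]
    _ ≤ ((K + 1) * (2 / (b * η)) * Real.exp 1 * Real.exp (-(c0 * (|z| + y)))) ^ (1 / p) := by
        gcongr
    _ = ((K + 1) * (2 / (b * η)) * Real.exp 1) ^ (1 / p) *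
        Real.exp (-(c0 / p * (|z| + y))) := by
        rw [Real.mul_rpow (by positivity) (Real.exp_pos _).le, ← Real.exp_mul]
        congr 2
        field_simp

lemma deriv_bound {g b p : ℝ} (hg : 1 ≤ g) (hb : 0 < b) (hp : 0 < p) {f : ℝ → ℝ}
    (hf : Admissible f) (hK : ∫⁻ x, (ntMax b f x) ^ p * ENNReal.ofReal (Ug g x) ≠ ∞) {η : ℝ}
    (hη : 0 < η) : ∃ C c : ℝ, 0 < c ∧ ∀ w : ℂ, 2 * η ≤ w.im →
      ‖deriv (schw f) w‖ ≤ C * Real.exp (-c * ‖w‖) := by
  obtain ⟨C, c, hC, hc, h⟩ := poisson_bound hg hb hp hK hη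
  refine ⟨4 * C / η, c / 2, by positivity, ?_⟩
  intro w hw
  have hρ : 0 < w.im / 2 := by linarith
  have hball : ∀ v ∈ ball w (w.im / 2), w.im / 2 ≤ v.im ∧ ‖w‖ / 2 ≤ ‖v‖ := by
    intro v hv
    rw [mem_ball, dist_eq_norm] at hv
    have e1 : |(v - w).im| ≤ ‖v - w‖ := Complex.abs_im_le_norm _
    rw [Complex.sub_im] at e1
    have e2 := (abs_le.1 (e1.trans hv.le)).1
    have e3 : ‖w‖ ≤ ‖v‖ + ‖v - w‖ := by
      calc ‖w‖ = ‖v - (v - w)‖ := by congr 1; ring
        _ ≤ ‖v‖ + ‖v - w‖ := norm_sub_le _ _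
    have e4 : w.im ≤ ‖w‖ := (le_abs_self _).trans (Complex.abs_im_le_norm w)
    constructor <;> linarith
  have hd : DifferentiableOn ℂ (schw f) (ball w (w.im / 2)) := by
    apply (schw_diff hf).mono
    intro v hv
    show 0 < v.im
    have := (hball v hv).1
    linarith
  have h1 := grad_bound (σ := C * Real.exp (-(c / 2) * ‖w‖)) hρ hd (by
    intro v hv
    obtain ⟨e1, e2⟩ := hball v hv
    have e3 : η ≤ v.im := by linarith
    have e4 := h v.re v.im e3
    rw [poisson_eq_re hf (by linarith), Complex.re_add_im] at e4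
    refine e4.trans ?_
    apply mul_le_mul_of_nonneg_left _ hC.le
    apply Real.exp_le_exp.2
    have e5 : ‖v‖ ≤ |v.re| + |v.im| := Complex.norm_le_abs_re_add_abs_im v
    rw [abs_of_pos (by linarith : 0 < v.im)] at e5
    nlinarith)
  refine h1.trans ?_
  have h2 : 0 ≤ C * Real.exp (-(c / 2) * ‖w‖) := by positivity
  rw [div_le_iff₀ hρ]
  calc 4 * (C * Real.exp (-(c / 2) * ‖w‖)) = 4 * C / η * Real.exp (-(c / 2) * ‖w‖) * η := by
        field_simp
    _ ≤ 4 * C / η * Real.exp (-(c / 2) * ‖w‖) * (w.im / 2) := by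
        apply mul_le_mul_of_nonneg_left _ (by positivity)
        linarith

end Vac

theorem stVac (hZ : StExpZero) : StVac := by
  intro g lam b p hg hlam hb hp
  refine ⟨1, fun f hf => ?_⟩
  by_cases hK : ∫⁻ x, (ntMax b f x) ^ p * ENNReal.ofReal (Ug g x) = ∞
  · rw [hK]; simp
  · have hz : ∀ w : ℂ, 0 < w.im → deriv (schw f) w = 0 := by
      intro w hw
      obtain ⟨C, c, hc, h⟩ := Vac.deriv_bound hg hb hp hf hK (η := w.im / 4) (by positivity)
      exact hZ (deriv (schw f)) C c (2 * (w.im / 4)) hc (by positivity)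
        ((schw_diff hf).deriv isOpen_uhp) h w (by linarith)
    have hS : ∀ x, areaFn lam f x = 0 := by
      intro x
      rw [areaFn_eq hf]
      have : ∫⁻ q in cone lam x, ENNReal.ofReal (gsq (schw f) q) = 0 := by
        rw [← lintegral_zero (μ := volume.restrict (cone lam x))]
        apply setLIntegral_congr_fun (measurableSet_cone lam x)
        intro q hq
        simp only [gsq]
        rw [hz _ (mem_uhp hq.2)]
        simp
      rw [this]
      exact ENNReal.zero_rpow_of_pos (by norm_num)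
    simp only [hS, ENNReal.zero_rpow_of_pos hp, zero_mul, lintegral_zero]
    exact bot_le

end Pool.Agent.Work.MP_055a27_an.Thr
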