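import Pool.Agent.Work.MP_055a27_an.Thr.Stmts

/-!
# Vanishing at infinity of the Poisson integral
-/

open MeasureTheory Set Filter Topology
open scoped ENNReal

namespace Pool.Agent.Work.MP_055a27_an.Thr

namespace Van

lemma one_le_Ug (g x : ℝ) : 1 ≤ Ug g x := by
  unfold Ug
  exact Real.one_le_exp (Real.rpow_nonneg (abs_nonneg _) _)

lemma bound {g b p : ℝ} (hb : 0 < b) (hp : 0 < p) {f : ℝ → ℝ}
    (hK : ∫⁻ x, (ntMax b f x) ^ p * ENNReal.ofReal (Ug g x) ≠ ∞) (z y : ℝ) (hy : 0 < y) :
    |poisson f z y| ≤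
      ((∫⁻ x, (ntMax b f x) ^ p * ENNReal.ofReal (Ug g x)).toReal / (2 * b) / y) ^ (1 / p) := by
  set K : ℝ := (∫⁻ x, (ntMax b f x) ^ p * ENNReal.ofReal (Ug g x)).toReal with hKdef
  have hK0 : 0 ≤ K := ENNReal.toReal_nonneg
  have hby : 0 < b * y := by positivity
  have h1 : (ENNReal.ofReal |poisson f z y|) ^ p * ENNReal.ofReal (2 * (b * y)) ≤
      ENNReal.ofReal K := by
    calc (ENNReal.ofReal |poisson f z y|) ^ p * ENNReal.ofReal (2 * (b * y))
        = ∫⁻ _x in Icc (z - b * y) (z + b * y), (ENNReal.ofReal |poisson f z y|) ^ p := by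
          rw [setLIntegral_const, Real.volume_Icc]
          congr 2
          ring
      _ ≤ ∫⁻ x in Icc (z - b * y) (z + b * y), (ntMax b f x) ^ p * ENNReal.ofReal (Ug g x) := by
          apply setLIntegral_mono' measurableSet_Icc
          intro x hx
          have hU : (1 : ℝ≥0∞) ≤ ENNReal.ofReal (Ug g x) := by
            rw [← ENNReal.ofReal_one]
            exact ENNReal.ofReal_le_ofReal (one_le_Ug g x)
          have hxz : |x - z| ≤ b * y := by
            rw [abs_le]
            constructor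
            · linarith only [hx.1]
            · linarith only [hx.2]
          have hn : ENNReal.ofReal |poisson f z y| ≤ ntMax b f x := by
            unfold ntMax
            refine le_trans ?_ (le_iSup₂_of_le (x - z) y (le_iSup_of_le ⟨hy, hxz⟩ le_rfl))
            rw [sub_sub_cancel]
          calc (ENNReal.ofReal |poisson f z y|) ^ p
              ≤ (ntMax b f x) ^ p := ENNReal.rpow_le_rpow hn hp.le
            _ = (ntMax b f x) ^ p * 1 := (mul_one _).symm
            _ ≤ (ntMax b f x) ^ p * ENNReal.ofReal (Ug g x) := by gcongr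
      _ ≤ ∫⁻ x, (ntMax b f x) ^ p * ENNReal.ofReal (Ug g x) := setLIntegral_le_lintegral _ _
      _ = ENNReal.ofReal K := (ENNReal.ofReal_toReal hK).symm
  rw [ENNReal.ofReal_rpow_of_nonneg (abs_nonneg _) hp.le,
    ← ENNReal.ofReal_mul (Real.rpow_nonneg (abs_nonneg _) _)] at h1
  have h2 := (ENNReal.ofReal_le_ofReal_iff hK0).1 h1
  have h3 : |poisson f z y| ^ p ≤ K / (2 * b) / y := by
    rw [div_div, le_div_iff₀ (by positivity), mul_assoc]
    exact h2
  calc |poisson f z y| = (|poisson f z y| ^ p) ^ (1 / p) := by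
        rw [← Real.rpow_mul (abs_nonneg _), mul_one_div_cancel hp.ne', Real.rpow_one]
    _ ≤ (K / (2 * b) / y) ^ (1 / p) :=
        Real.rpow_le_rpow (Real.rpow_nonneg (abs_nonneg _) _) h3 (by positivity)

lemma lim (K b p : ℝ) (hp : 0 < p) :
    Tendsto (fun y : ℝ => (K / (2 * b) / y) ^ (1 / p)) atTop (𝓝 0) := by
  have h1 : Tendsto (fun y : ℝ => K / (2 * b) / y) atTop (𝓝 0) :=
    tendsto_const_nhds.div_atTop tendsto_id
  have h2 := h1.rpow_const (p := 1 / p) (Or.inr (by positivity))
  rwa [Real.zero_rpow (by positivity)] at h2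

end Van

/-- Vanishing at infinity. -/
theorem stVan : StVan := by
  intro g b p f _ hb hp _ hK z
  rw [tendsto_zero_iff_abs_tendsto_zero]
  refine squeeze_zero' (Eventually.of_forall fun y => abs_nonneg _) ?_
    (Van.lim (∫⁻ x, (ntMax b f x) ^ p * ENNReal.ofReal (Ug g x)).toReal b p hp)
  filter_upwards [eventually_gt_atTop (0 : ℝ)] with y hy
  exact Van.bound hb hp hK z y hy

end Pool.Agent.Work.MP_055a27_an.Thr
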