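import Pool.Agent.Work.MP_055a27_an.Thr.Stmts

/-!
# Elementary properties of the weight `exp (|x| ^ g)`
-/

set_option autoImplicit false

open MeasureTheory Set Filter Topology
open scoped ENNReal NNReal

namespace Pool.Agent.Work.MP_055a27_an.Thr

namespace Weight

lemma cont {g : ℝ} (hg : 0 < g) : Continuous (Ug g) := by
  unfold Ug
  exact Real.continuous_exp.comp (continuous_abs.rpow_const fun x => Or.inr hg.le)

lemma hint {g : ℝ} (hg : 0 < g) (a c : ℝ) : IntegrableOn (Ug g) (Icc a c) :=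
  (cont hg).continuousOn.integrableOn_Icc

lemma low {g : ℝ} (hg : 0 < g) {a c : ℝ} (hac : a ≤ c) (ha : 0 ≤ a) :
    (c - a) * Real.exp (a ^ g) ≤ ∫ t in Icc a c, Ug g t := by
  calc (c - a) * Real.exp (a ^ g) = ∫ _t in Icc a c, Real.exp (a ^ g) := by
        rw [setIntegral_const, Real.volume_real_Icc_of_le hac, smul_eq_mul]
    _ ≤ _ := by
        apply setIntegral_mono_on _ (hint hg _ _) measurableSet_Icc
        · intro x hx
          exact Real.exp_le_exp.2 (Real.rpow_le_rpow ha (hx.1.trans (le_abs_self x)) hg.le)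
        · exact integrableOn_const (by simp)

lemma up {g : ℝ} (hg : 0 < g) {c : ℝ} (hc : 0 ≤ c) :
    ∫ t in Icc 0 c, Ug g t ≤ c * Real.exp (c ^ g) := by
  calc ∫ t in Icc 0 c, Ug g t ≤ ∫ _t in Icc 0 c, Real.exp (c ^ g) := by
        apply setIntegral_mono_on (hint hg _ _) _ measurableSet_Icc
        · intro x hx
          refine Real.exp_le_exp.2 (Real.rpow_le_rpow (abs_nonneg _) ?_ hg.le)
          rw [abs_of_nonneg hx.1]
          exact hx.2
        · exact integrableOn_const (by simp)
    _ = _ := by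
        rw [setIntegral_const, Real.volume_real_Icc_of_le hc, smul_eq_mul, sub_zero]

lemma split {g : ℝ} (hg : 0 < g) {a c : ℝ} :
    ∫ t in Icc 0 c, Ug g t ≤ (∫ t in Icc 0 a, Ug g t) + ∫ t in Icc a c, Ug g t := by
  have hpos : ∀ t, 0 ≤ Ug g t := fun t => (Real.exp_pos _).le
  have hu : Icc 0 c ⊆ Icc 0 a ∪ Ioc a c := by
    intro x hx
    rcases le_or_gt x a with h | h
    · left
      exact ⟨hx.1, h⟩
    · right
      exact ⟨h, hx.2⟩
  have hd : Disjoint (Icc 0 a) (Ioc a c) := by
    rw [Set.disjoint_left]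
    intro x hx hx'
    exact absurd hx.2 (not_le.2 hx'.1)
  calc ∫ t in Icc 0 c, Ug g t ≤ ∫ t in Icc 0 a ∪ Ioc a c, Ug g t := by
        apply setIntegral_mono_set ((hint hg _ _).union
          ((hint hg a c).mono_set Ioc_subset_Icc_self))
        · filter_upwards with x using hpos x
        · exact hu.eventuallyLE
    _ = _ := by
        rw [setIntegral_union hd measurableSet_Ioc (hint hg _ _)
          ((hint hg a c).mono_set Ioc_subset_Icc_self), ← integral_Icc_eq_integral_Ioc]

lemma lowAbs {g : ℝ} (hg : 0 < g) {a c m : ℝ} (hac : a ≤ c) (hm : 0 ≤ m)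
    (h : ∀ t ∈ Icc a c, m ≤ |t|) : (c - a) * Real.exp (m ^ g) ≤ ∫ t in Icc a c, Ug g t := by
  calc (c - a) * Real.exp (m ^ g) = ∫ _t in Icc a c, Real.exp (m ^ g) := by
        rw [setIntegral_const, Real.volume_real_Icc_of_le hac, smul_eq_mul]
    _ ≤ _ := by
        apply setIntegral_mono_on _ (hint hg _ _) measurableSet_Icc
        · intro x hx
          exact Real.exp_le_exp.2 (Real.rpow_le_rpow hm (h x hx) hg.le)
        · exact integrableOn_const (by simp)

theorem weak {g : ℝ} (hg : 0 < g) : WeakAInfty (Ug g) := by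
  refine ⟨2, 1, two_pos, one_pos, ?_⟩
  intro x r hr E hE hEs
  rw [Real.rpow_one]
  have hpos : ∀ t, 0 ≤ Ug g t := fun t => (Real.exp_pos _).le
  have hm : 0 ≤ |x| + r := by positivity
  have hEfin : volume E ≠ ∞ := ((measure_mono hEs).trans_lt (by simp)).ne
  have hup : ∫ t in E, Ug g t ≤ volume.real E * Real.exp ((|x| + r) ^ g) := by
    calc ∫ t in E, Ug g t ≤ ∫ _t in E, Real.exp ((|x| + r) ^ g) := by
          apply setIntegral_mono_on ((hint hg _ _).mono_set hEs) _ hE
          · intro t ht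
            have h1 := hEs ht
            refine Real.exp_le_exp.2 (Real.rpow_le_rpow (abs_nonneg _) ?_ hg.le)
            rw [abs_le]
            constructor
            · linarith [neg_abs_le x, h1.1]
            · linarith [le_abs_self x, h1.2]
          · exact integrableOn_const hEfin
      _ = _ := by rw [setIntegral_const, smul_eq_mul]
  have hlow : r * Real.exp ((|x| + r) ^ g) ≤ ∫ t in Icc (x - 2 * r) (x + 2 * r), Ug g t := by
    have key : ∀ a c : ℝ, c - a = r → Icc a c ⊆ Icc (x - 2 * r) (x + 2 * r) →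
        (∀ t ∈ Icc a c, |x| + r ≤ |t|) →
        r * Real.exp ((|x| + r) ^ g) ≤ ∫ t in Icc (x - 2 * r) (x + 2 * r), Ug g t := by
      intro a c hac hsub ht
      have h1 := lowAbs hg (by linarith) hm ht
      rw [hac] at h1
      refine h1.trans ?_
      apply setIntegral_mono_set (hint hg _ _)
      · filter_upwards with t using hpos t
      · exact hsub.eventuallyLE
    rcases le_total 0 x with hx | hx
    · refine key (x + r) (x + 2 * r) (by ring) (Icc_subset_Icc (by linarith) le_rfl) ?_
      intro t ht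
      rw [abs_of_nonneg hx]
      exact ht.1.trans (le_abs_self t)
    · refine key (x - 2 * r) (x - r) (by ring) (Icc_subset_Icc le_rfl (by linarith)) ?_
      intro t ht
      rw [abs_of_nonpos hx]
      have := neg_abs_le t
      linarith [ht.2]
  have hE0 : 0 ≤ volume.real E := measureReal_nonneg
  calc ∫ t in E, Ug g t ≤ volume.real E * Real.exp ((|x| + r) ^ g) := hup
    _ = 2 * (volume.real E / (2 * r)) * (r * Real.exp ((|x| + r) ^ g)) := by
        field_simp
    _ ≤ _ := mul_le_mul_of_nonneg_left hlow (by positivity)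

theorem notA {g : ℝ} (hg : 0 < g) : IsWeight (Ug g) ∧ ¬ AInfty (Ug g) := by
  refine ⟨⟨fun _ => (Real.exp_pos _).le, (cont hg).locallyIntegrable⟩, ?_⟩
  rintro ⟨C, ε, hC, hε, h⟩
  -- choice of `θ`
  obtain ⟨θ, hθ0, hθ1, hθC⟩ : ∃ θ : ℝ, 0 < θ ∧ θ < 1 ∧ 2 * C * θ ^ ε < 1 := by
    have h4 : 0 < 1 / (4 * C) := by positivity
    refine ⟨min (1 / 2) ((1 / (4 * C)) ^ (1 / ε)), lt_min (by norm_num)
      (Real.rpow_pos_of_pos h4 _), (min_le_left _ _).trans_lt (by norm_num), ?_⟩
    have h5 : (min (1 / 2) ((1 / (4 * C)) ^ (1 / ε))) ^ ε ≤ 1 / (4 * C) := by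
      calc (min (1 / 2) ((1 / (4 * C)) ^ (1 / ε))) ^ ε
          ≤ ((1 / (4 * C)) ^ (1 / ε)) ^ ε :=
            Real.rpow_le_rpow (le_min (by norm_num) (Real.rpow_nonneg h4.le _))
              (min_le_right _ _) hε.le
        _ = 1 / (4 * C) := by
            rw [← Real.rpow_mul h4.le, one_div_mul_cancel hε.ne', Real.rpow_one]
    calc 2 * C * (min (1 / 2) ((1 / (4 * C)) ^ (1 / ε))) ^ ε ≤ 2 * C * (1 / (4 * C)) :=
          mul_le_mul_of_nonneg_left h5 (by positivity)
      _ = 1 / 2 := by field_simp; norm_num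
      _ < 1 := by norm_num
  -- the gap of the exponents
  set c : ℝ := (1 - θ / 2) ^ g - (1 - θ) ^ g with hc
  have hc0 : 0 < c := by
    have : (1 - θ) ^ g < (1 - θ / 2) ^ g := Real.rpow_lt_rpow (by linarith) (by linarith) hg
    linarith
  set R : ℝ := ((2 / θ) / c) ^ (1 / g) with hR
  have hb0 : 0 < (2 / θ) / c := by positivity
  have hR0 : 0 < R := Real.rpow_pos_of_pos hb0 _
  have hRg : R ^ g = (2 / θ) / c := by
    rw [hR, ← Real.rpow_mul hb0.le, one_div_mul_cancel hg.ne', Real.rpow_one]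
  set a : ℝ := R * (1 - θ) with ha
  have ha0 : 0 ≤ a := mul_nonneg hR0.le (by linarith)
  have haR : a ≤ R := by
    have : 0 < R * θ := by positivity
    rw [ha]
    linarith
  set b : ℝ := R * (1 - θ / 2) with hb
  have hRθ : 0 < R * θ := by positivity
  have hab : a ≤ b := by
    rw [ha, hb]
    linarith
  have hbR : b ≤ R := by
    rw [hb]
    linarith
  have hb00 : 0 ≤ b := ha0.trans hab
  have h1 := h 0 R hR0 (Icc a R) measurableSet_Icc (Icc_subset_Icc ha0 le_rfl)
  rw [Real.volume_real_Icc_of_le haR] at h1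
  have e1 : (R - a) / (R - 0) = θ := by
    rw [ha, sub_zero]
    field_simp
    ring
  rw [e1] at h1
  have hpos : ∀ t, 0 ≤ Ug g t := fun t => (Real.exp_pos _).le
  set Y := ∫ t in Icc a R, Ug g t with hY
  have hYlow : (R - b) * Real.exp (b ^ g) ≤ Y := by
    refine (low hg hbR hb00).trans ?_
    apply setIntegral_mono_set (hint hg _ _)
    · filter_upwards with t using hpos t
    · exact (Icc_subset_Icc hab le_rfl).eventuallyLE
  have hexp : a * Real.exp (a ^ g) ≤ (R - b) * Real.exp (b ^ g) := by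
    have e2 : b ^ g = a ^ g + 2 / θ := by
      have e3 : b ^ g - a ^ g = 2 / θ := by
        rw [hb, ha, Real.mul_rpow hR0.le (by linarith), Real.mul_rpow hR0.le (by linarith),
          ← mul_sub, ← hc, hRg, div_mul_cancel₀ _ hc0.ne']
      linarith
    have e4 : R - b = R * θ / 2 := by
      rw [hb]
      ring
    have e5 : 2 / θ ≤ Real.exp (2 / θ) := by
      have := Real.add_one_le_exp (2 / θ)
      linarith
    rw [e2, e4, Real.exp_add]
    calc a * Real.exp (a ^ g) ≤ R * Real.exp (a ^ g) :=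
          mul_le_mul_of_nonneg_right haR (Real.exp_pos _).le
      _ = R * θ / 2 * (Real.exp (a ^ g) * (2 / θ)) := by field_simp
      _ ≤ R * θ / 2 * (Real.exp (a ^ g) * Real.exp (2 / θ)) :=
          mul_le_mul_of_nonneg_left (mul_le_mul_of_nonneg_left e5 (Real.exp_pos _).le)
            (by positivity)
  have hYpos : 0 < Y := by
    refine lt_of_lt_of_le ?_ hYlow
    have e4 : R - b = R * θ / 2 := by
      rw [hb]
      ring
    rw [e4]
    positivity
  have htot : ∫ t in Icc 0 R, Ug g t ≤ 2 * Y := by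
    have h2 := split hg (a := a) (c := R)
    have h3 := up hg ha0
    linarith
  have hCθ : 0 ≤ C * θ ^ ε := mul_nonneg hC.le (Real.rpow_nonneg hθ0.le _)
  have h4 : Y ≤ C * θ ^ ε * (2 * Y) := h1.trans (mul_le_mul_of_nonneg_left htot hCθ)
  have h5 : (2 * C * θ ^ ε) * Y < 1 * Y := mul_lt_mul_of_pos_right hθC hYpos
  linarith

end Weight

theorem stWeight : StWeight := fun _ hg =>
  ⟨(Weight.notA hg).1, Weight.weak hg, (Weight.notA hg).2⟩

end Pool.Agent.Work.MP_055a27_an.Thr
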